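import Mathlib

/-!
The level `k` quantum `SU(N)` invariant (Reshetikhin-Turaev) of the closed oriented 3-manifold
obtained by surgery on the closure of a framed pure braid (every closed oriented 3-manifold arises
in this way, by a theorem of Lickorish), defined by the R-matrix of the vector representation of
`U_q(sl_N)`, `q = exp (π i / r)`, `r = k + N`; a component coloured by a dominant weight is
replaced by parallel strands carrying the Jacobi-Trudi combination of products of q-symmetrisers.
-/

open Finset
open scoped Real

namespace Pool.Agent.Helper15.RT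

/-- `q = exp (π i / r)`. -/
noncomputable def q (r : ℕ) : ℂ := Complex.exp (π * Complex.I / r)

/-- The colours of `SU(N)` at level `r - N`: the shifted dominant weights
`0 = x 0 < x 1 < ... < x (N-1) < r`. -/
def colours (N r : ℕ) : Finset (Fin N → ℕ) :=
  (Fintype.piFinset fun _ : Fin N => Finset.range r).filter
    fun x => StrictMono x ∧ ∀ i : Fin N, (i : ℕ) = 0 → x i = 0

/-- The number of boxes of the Young diagram of the colour `x`. -/
def boxes {N : ℕ} (x : Fin N → ℕ) : ℕ := ∑ i, (x i - i)

/-- The R-matrix of the vector representation of `U_q(sl_N)` (in the normalisation with eigenvalues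
`q`, `-q⁻¹`) acting on the tensor factors `j`, `j + 1` of `(ℂ^N)^{⊗ M}`. -/
noncomputable def Rmat (N r M j : ℕ) : Matrix (Fin M → Fin N) (Fin M → Fin N) ℂ := fun w w' =>
  if h : j + 1 < M then
    if w' = w then
      if w ⟨j, by omega⟩ = w ⟨j + 1, h⟩ then q r
      else if w ⟨j + 1, h⟩ < w ⟨j, by omega⟩ then q r - (q r)⁻¹ else 0
    else if w' = w ∘ Equiv.swap ⟨j, by omega⟩ ⟨j + 1, h⟩ then 1 else 0
  else 0

/-- The trace over `(ℂ^N)^{⊗ M}` composed with the action of `q^{2 ρ}`. -/
noncomputable def qtrace {N M : ℕ} (r : ℕ) (X : Matrix (Fin M → Fin N) (Fin M → Fin N) ℂ) : ℂ :=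
  ∑ w : Fin M → Fin N, (∏ s, q r ^ ((N : ℤ) - 1 - 2 * (w s : ℕ))) * X w w

section Algebra

variable {A : Type*} [Ring A] [Algebra ℂ A]

/-- The value of a braid word (a list of pairs of an index and a sign, `true` for positive) under
`σ_j ↦ s j`, `σ_j⁻¹ ↦ s' j`. -/
def evalBraid (s s' : ℕ → A) (w : List (ℕ × Bool)) : A :=
  (w.map fun p => if p.2 then s p.1 else s' p.1).prod

/-- The q-symmetriser on the `n` strands `o, o + 1, ..., o + n - 1`. -/
noncomputable def symm (t : ℂ) (s : ℕ → A) (o : ℕ) : ℕ → A
  | 0 => 1
  | n + 1 => (∑ i ∈ range (n + 1), t ^ (2 * i))⁻¹ •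
      ((∑ i ∈ range (n + 1), t ^ i • ((List.range i).map fun j => s (o + n - i + j)).prod) *
        symm t s o n)

/-- The product of the q-symmetrisers on consecutive groups of strands. -/
noncomputable def symms (t : ℂ) (s : ℕ → A) : ℕ → List ℕ → A
  | _, [] => 1
  | o, n :: l => symm t s o n * symms t s (o + n) l

/-- The colour `x` on the strands `o, ..., o + boxes x - 1`: the Jacobi-Trudi determinant
`det (h_{x_a - b})` in the q-symmetrisers. -/
noncomputable def colourElt {N : ℕ} (t : ℂ) (s : ℕ → A) (o : ℕ) (x : Fin N → ℕ) : A :=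
  ∑ p : Equiv.Perm (Fin N), if ∀ a, (p a : ℕ) ≤ x a then
    ((Equiv.Perm.sign p : ℤ) : ℂ) • symms t s o (List.ofFn fun a => x a - (p a : ℕ)) else 0

/-- The colours `x` of a list on consecutive groups of strands. -/
noncomputable def colourElts {N : ℕ} (t : ℂ) (s : ℕ → A) : ℕ → List (Fin N → ℕ) → A
  | _, [] => 1
  | o, x :: l => colourElt t s o x * colourElts t s (o + boxes x) l

end Algebra

/-- The crossing of a group of `a` parallel strands, starting with strand `o`, over a group of `b`
parallel strands. -/
def block (o a b : ℕ) : List (ℕ × Bool) :=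
  (List.range a).reverse.flatMap fun t => (List.range b).map fun u => (o + t + u, true)

/-- The inverse of a braid word. -/
def inv (w : List (ℕ × Bool)) : List (ℕ × Bool) := (w.map fun p => (p.1, !p.2)).reverse

/-- The braid word in which every strand of a braid word is replaced by parallel strands, their
numbers at the beginning being given by a list `l`. -/
def cable : List ℕ → List (ℕ × Bool) → List (ℕ × Bool)
  | _, [] => []
  | l, (i, e) :: w =>
    let o := (l.take i).sum
    let a := l.getD i 0
    let b := l.getD (i + 1) 0
    (if e then block o a b else inv (block o b a)) ++ cable ((l.set i b).set (i + 1) a) w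

/-- The number of positive minus the number of negative crossings. -/
def writhe (w : List (ℕ × Bool)) : ℤ := (w.map fun p => if p.2 then (1 : ℤ) else -1).sum

/-- The invariant of the closure, with blackboard framing, of a pure braid whose components are
coloured by `l`. The components have no self-crossings, so this is the zero framing. The R-matrix
of `U_q(sl_N)` is `q^(-1/N)` times `Rmat`, which gives the factor in front. -/
noncomputable def J (N r : ℕ) (w : List (ℕ × Bool)) (l : List (Fin N → ℕ)) : ℂ :=
  let c := cable (l.map boxes) w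
  let s := Rmat N r ((l.map boxes).sum)
  Complex.exp (-(π * Complex.I * writhe c / (r * N))) *
    qtrace r (evalBraid s (fun j => (s j)⁻¹) c * colourElts (q r) s 0 l)

/-- `S_{0x}`, the vacuum row of the modular S-matrix. -/
noncomputable def S₀ (N r : ℕ) (x : Fin N → ℕ) : ℝ :=
  (∏ i, ∏ j ∈ Ioi i, 2 * Real.sin (π * ((x j : ℝ) - x i) / r)) / √(N * (r : ℝ) ^ (N - 1))

/-- The invariant inner product of two weights. -/
noncomputable def inn {N : ℕ} (x y : Fin N → ℕ) : ℝ :=
  (∑ i, (x i : ℝ) * y i) - (∑ i, (x i : ℝ)) * (∑ i, (y i : ℝ)) / N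

/-- The twist of the colour `x`. -/
noncomputable def twist (N r : ℕ) (x : Fin N → ℕ) : ℂ :=
  Complex.exp (π * Complex.I / r *
    ((inn x x - inn (fun i : Fin N => (i : ℕ)) (fun i : Fin N => (i : ℕ)) : ℝ) : ℂ))

/-- The central charge. -/
noncomputable def centralCharge (N k : ℕ) : ℝ := k * ((N : ℝ) ^ 2 - 1) / (k + N)

/-- A framed pure braid: a pure braid word with an integer (the framing coefficient) for each
component of its closure. -/
structure FramedPureBraid where
  strands : ℕ
  word : List (ℕ × Bool)
  framing : Fin strands → ℤ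
  bounded : ∀ p ∈ word, p.1 + 1 < strands
  pure : (word.map fun p => Equiv.swap p.1 (p.1 + 1)).prod = 1

/-- The level `k` quantum `SU(N)` invariant, with `r = k + N`, of the 3-manifold obtained by surgery
on the closure of the framed pure braid `L`, for the 2-framing number `f`: the surgery formula of
Reshetikhin and Turaev, normalised as Witten's partition function (its value for `S^3` is `S_{00}`,
for `S^2 × S^1` it is `1`). The canonical 2-framing is `f = -3 σ`, with `σ` the signature of the
linking matrix. -/
noncomputable def Z (N k : ℕ) (f : ℤ) (L : FramedPureBraid) : ℂ :=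
  Complex.exp (2 * π * Complex.I * centralCharge N k / 24) ^ f *
    S₀ N (k + N) (fun i : Fin N => (i : ℕ)) *
    ∑ x ∈ Fintype.piFinset fun _ : Fin L.strands => colours N (k + N),
      (∏ i, (S₀ N (k + N) (x i) : ℂ) * twist N (k + N) (x i) ^ L.framing i) *
        J N (k + N) L.word (List.ofFn x)

end Pool.Agent.Helper15.RT
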