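import Mathlib
import Pool.Agent.Helper15.AllN.Defs
import Pool.Agent.Helper15.RT.Defs

/-!
Auxiliary definitions (not part of any statement handed in).
-/

open Finset
open scoped Real

namespace Pool.Agent.Helper15.RT

open Pool.Agent.Helper15.AllN

/-- configurations in the (unshifted) alcove -/
def alc {N : ℕ} (r : ℕ) (l : Fin N → ℕ) : Prop := StrictMono l ∧ ∀ i j, l i < l j + r

/-- the cyclic horizontal strips of size `n` over `l` -/
def strips (N r n : ℕ) (l : Fin N → ℕ) : Finset (Fin N → ℕ) :=
  (Fintype.piFinset fun i => Finset.Ico (l i) (l i + r)).filter fun l' =>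
    (∀ i j, i < j → l' i < l j) ∧ (∀ i j, l' i < l j + r) ∧ ∑ i, l' i = ∑ i, l i + n

section Blocks

variable {G : Type*} [Monoid G]

/-- the value of a positive braid word -/
def posEval (s : ℕ → G) (w : List (ℕ × Bool)) : G := (w.map fun p => s p.1).prod

/-- the block crossing -/
def XB (s : ℕ → G) (o a b : ℕ) : G := posEval s (block o a b)

/-- `s (j-1) ... s 0 s 0 ... s (j-1)`: strand `j` around the strands `0, ..., j-1` -/
def JM (s : ℕ → G) : ℕ → G
  | 0 => 1
  | j + 1 => s j * JM s j * s j

/-- the full twist on `n` strands -/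
def FT (s : ℕ → G) : ℕ → G
  | 0 => 1
  | n + 1 => FT s n * JM s n

/-- braid relations for the generators `0, ..., m - 1` -/
structure BraidRel (m : ℕ) (s : ℕ → G) : Prop where
  comm : ∀ j k, j + 2 ≤ k → k < m → s j * s k = s k * s j
  braid : ∀ j, j + 1 < m → s j * s (j + 1) * s j = s (j + 1) * s j * s (j + 1)

end Blocks

end Pool.Agent.Helper15.RT
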