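import Mathlib

open Finset
open scoped Real

namespace Pool.Agent.Helper15.RT

variable {W : Type*} [Fintype W] [DecidableEq W]

/-- the matrix of `f ↦ (w ↦ a w * f w + b w * f (s w))` -/
def two (a b : W → ℂ) (s : W → W) : Matrix W W ℂ := fun w w' =>
  (if w' = w then a w else 0) + (if w' = s w then b w else 0)

theorem two_mulVec (a b : W → ℂ) (s : W → W) (f : W → ℂ) (w : W) :
    (two a b s).mulVec f w = a w * f w + b w * f (s w) := by
  simp only [Matrix.mulVec, dotProduct, two, add_mul, ite_mul, zero_mul, Finset.sum_add_distrib,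
    Finset.sum_ite_eq', Finset.mem_univ, if_true]

theorem ext_mulVec {X Y : Matrix W W ℂ} (h : ∀ f : W → ℂ, X.mulVec f = Y.mulVec f) : X = Y := by
  ext i j
  have := congrFun (h (Pi.single j 1)) i
  simpa [Matrix.mulVec_single_one] using this

theorem two_sq {a b : W → ℂ} {s : W → W} (hs : ∀ w, s (s w) = w) (h : ℂ)
    (h1 : ∀ w, a w * a w + b w * b (s w) = h * a w + 1)
    (h2 : ∀ w, b w * (a w + a (s w)) = h * b w) :
    two a b s * two a b s = h • two a b s + 1 := by
  apply ext_mulVec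
  intro f
  ext w
  rw [← Matrix.mulVec_mulVec, Matrix.add_mulVec, Matrix.smul_mulVec, Matrix.one_mulVec]
  simp only [Pi.add_apply, Pi.smul_apply, smul_eq_mul, two_mulVec, hs]
  linear_combination f w * h1 w + f (s w) * h2 w

theorem two_comm {a b a' b' : W → ℂ} {s s' : W → W}
    (hss : ∀ w, s (s' w) = s' (s w))
    (h1 : ∀ w, b w * a' (s w) = b w * a' w) (h2 : ∀ w, b' w * a (s' w) = b' w * a w)
    (h3 : ∀ w, b w * b' (s w) = b' w * b (s' w)) :
    two a b s * two a' b' s' = two a' b' s' * two a b s := by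
  apply ext_mulVec
  intro f
  ext w
  rw [← Matrix.mulVec_mulVec, ← Matrix.mulVec_mulVec]
  simp only [two_mulVec, hss]
  linear_combination f (s w) * h1 w - f (s' w) * h2 w + f (s' (s w)) * h3 w

theorem two_braid {a b a' b' : W → ℂ} {s s' : W → W} (hs : ∀ w, s (s w) = w)
    (hs' : ∀ w, s' (s' w) = w) (hss : ∀ w, s (s' (s w)) = s' (s (s' w)))
    (h0 : ∀ w, a w * a' w * a w + b w * a' (s w) * b (s w) =
      a' w * a w * a' w + b' w * a (s' w) * b' (s' w))
    (h1 : ∀ w, a w * a' w * b w + b w * a' (s w) * a (s w) = a' w * b w * a' (s w))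
    (h2 : ∀ w, a w * b' w * a (s' w) = a' w * a w * b' w + b' w * a (s' w) * a' (s' w))
    (h3 : ∀ w, a w * b' w * b (s' w) = b' w * b (s' w) * a' (s (s' w)))
    (h4 : ∀ w, b w * b' (s w) * a (s' (s w)) = a' w * b w * b' (s w))
    (h5 : ∀ w, b w * b' (s w) * b (s' (s w)) = b' w * b (s' w) * b' (s (s' w))) :
    two a b s * two a' b' s' * two a b s = two a' b' s' * two a b s * two a' b' s' := by
  apply ext_mulVec
  intro f
  ext w
  rw [← Matrix.mulVec_mulVec, ← Matrix.mulVec_mulVec, ← Matrix.mulVec_mulVec,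
    ← Matrix.mulVec_mulVec]
  simp only [two_mulVec, hs, hs', hss]
  linear_combination f w * h0 w + f (s w) * h1 w + f (s' w) * h2 w + f (s (s' w)) * h3 w +
    f (s' (s w)) * h4 w + f (s' (s (s' w))) * h5 w

end Pool.Agent.Helper15.RT
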