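import Mathlib
import Pool.Agent.Helper15.RT.Two

open Finset
open scoped Real

namespace Pool.Agent.Helper15.RT

variable {N M : ℕ}

/-- exchange of the letters `j`, `j+1` -/
def sw (j : ℕ) (w : Fin M → Fin N) : Fin M → Fin N :=
  if h : j + 1 < M then w ∘ Equiv.swap ⟨j, by omega⟩ ⟨j + 1, h⟩ else w

theorem sw_eq {j : ℕ} (h : j + 1 < M) (w : Fin M → Fin N) :
    sw j w = w ∘ Equiv.swap ⟨j, by omega⟩ ⟨j + 1, h⟩ := by
  rw [sw, dif_pos h]

theorem sw_fst {j : ℕ} (h : j + 1 < M) (w : Fin M → Fin N) :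
    sw j w ⟨j, by omega⟩ = w ⟨j + 1, h⟩ := by
  rw [sw_eq h, Function.comp_apply, Equiv.swap_apply_left]

theorem sw_snd {j : ℕ} (h : j + 1 < M) (w : Fin M → Fin N) :
    sw j w ⟨j + 1, h⟩ = w ⟨j, by omega⟩ := by
  rw [sw_eq h, Function.comp_apply, Equiv.swap_apply_right]

theorem sw_ne {j : ℕ} (h : j + 1 < M) (w : Fin M → Fin N) {s : Fin M} (h1 : (s : ℕ) ≠ j)
    (h2 : (s : ℕ) ≠ j + 1) : sw j w s = w s := by
  rw [sw_eq h, Function.comp_apply, Equiv.swap_apply_of_ne_of_ne]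
  · exact fun h => h1 (congrArg Fin.val h)
  · exact fun h => h2 (congrArg Fin.val h)

theorem sw_sw (j : ℕ) (w : Fin M → Fin N) : sw j (sw j w) = w := by
  by_cases h : j + 1 < M
  · rw [sw_eq h, sw_eq h, Function.comp_assoc]
    ext s
    simp
  · rw [sw, dif_neg h, sw, dif_neg h]

theorem sw_self {j : ℕ} (h : j + 1 < M) {w : Fin M → Fin N} (he : w ⟨j, by omega⟩ = w ⟨j + 1, h⟩) :
    sw j w = w := by
  ext s
  by_cases h1 : (s : ℕ) = j
  · have : s = ⟨j, by omega⟩ := Fin.ext h1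
    rw [this, sw_fst h, he]
  · by_cases h2 : (s : ℕ) = j + 1
    · have : s = ⟨j + 1, h⟩ := Fin.ext h2
      rw [this, sw_snd h, he]
    · rw [sw_ne h w h1 h2]

theorem sw_comm {j k : ℕ} (hjk : j + 2 ≤ k) (hk : k + 1 < M) (w : Fin M → Fin N) :
    sw j (sw k w) = sw k (sw j w) := by
  have hj : j + 1 < M := by omega
  ext s
  by_cases h1 : (s : ℕ) = j
  · have : s = ⟨j, by omega⟩ := Fin.ext h1
    rw [this, sw_fst hj, sw_ne hk _ (by simp; omega) (by simp; omega),
      sw_ne hk _ (by simp; omega) (by simp; omega), sw_fst hj]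
  by_cases h2 : (s : ℕ) = j + 1
  · have : s = ⟨j + 1, hj⟩ := Fin.ext h2
    rw [this, sw_snd hj, sw_ne hk _ (by simp; omega) (by simp; omega),
      sw_ne hk _ (by simp; omega) (by simp; omega), sw_snd hj]
  by_cases h3 : (s : ℕ) = k
  · have : s = ⟨k, by omega⟩ := Fin.ext h3
    rw [this, sw_ne hj _ (by simp; omega) (by simp; omega), sw_fst hk, sw_fst hk,
      sw_ne hj _ (by simp; omega) (by simp; omega)]
  by_cases h4 : (s : ℕ) = k + 1
  · have : s = ⟨k + 1, hk⟩ := Fin.ext h4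
    rw [this, sw_ne hj _ (by simp; omega) (by simp; omega), sw_snd hk, sw_snd hk,
      sw_ne hj _ (by simp; omega) (by simp; omega)]
  rw [sw_ne hj _ h1 h2, sw_ne hk _ h3 h4, sw_ne hk _ h3 h4, sw_ne hj _ h1 h2]

theorem sw_braid {j : ℕ} (h : j + 2 < M) (w : Fin M → Fin N) :
    sw j (sw (j + 1) (sw j w)) = sw (j + 1) (sw j (sw (j + 1) w)) := by
  have hj : j + 1 < M := by omega
  have hj' : (j + 1) + 1 < M := by omega
  ext s
  by_cases h1 : (s : ℕ) = j
  · have : s = ⟨j, by omega⟩ := Fin.ext h1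
    rw [this, sw_fst hj, sw_fst hj', sw_ne hj _ (by simp <;> omega) (by simp <;> omega),
      sw_ne hj' _ (by simp <;> omega) (by simp <;> omega), sw_fst hj, sw_fst hj']
  by_cases h2 : (s : ℕ) = j + 1
  · have : s = ⟨j + 1, hj⟩ := Fin.ext h2
    rw [this, sw_snd hj, sw_ne hj' _ (by simp <;> omega) (by simp <;> omega), sw_fst hj, sw_fst hj',
      sw_ne hj _ (by simp <;> omega) (by simp <;> omega), sw_snd hj']
  by_cases h3 : (s : ℕ) = j + 1 + 1
  · have : s = ⟨j + 1 + 1, hj'⟩ := Fin.ext h3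
    rw [this, sw_ne hj _ (by simp <;> omega) (by simp <;> omega), sw_snd hj', sw_snd hj, sw_snd hj', sw_snd hj,
      sw_ne hj' _ (by simp <;> omega) (by simp <;> omega)]
  rw [sw_ne hj _ h1 h2, sw_ne hj' _ h2 h3, sw_ne hj _ h1 h2, sw_ne hj' _ h2 h3, sw_ne hj _ h1 h2,
    sw_ne hj' _ h2 h3]

/-- the configuration at time `t` of the word `w` started at `l` -/
def cfg (l : Fin N → ℕ) (w : Fin M → Fin N) (t : ℕ) : Fin N → ℕ := fun i =>
  l i + #{s : Fin M | (s : ℕ) < t ∧ w s = i}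

theorem cfg_zero (l : Fin N → ℕ) (w : Fin M → Fin N) : cfg l w 0 = l := by
  ext i
  simp [cfg]

theorem cfg_succ (l : Fin N → ℕ) (w : Fin M → Fin N) {t : ℕ} (h : t < M) :
    cfg l w (t + 1) = cfg l w t + Pi.single (w ⟨t, h⟩) 1 := by
  ext i
  simp only [cfg, Pi.add_apply]
  rw [add_assoc]
  congr 1
  have h1 : (univ.filter fun s : Fin M => (s : ℕ) < t + 1 ∧ w s = i) =
      (univ.filter fun s : Fin M => (s : ℕ) < t ∧ w s = i) ∪
        (if w ⟨t, h⟩ = i then {⟨t, h⟩} else ∅) := by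
    ext s
    by_cases hs : s = ⟨t, h⟩
    · subst hs
      by_cases hw : w ⟨t, h⟩ = i <;> simp [hw]
    · have hs' : (s : ℕ) ≠ t := fun e => hs (Fin.ext e)
      by_cases hw : w ⟨t, h⟩ = i
      · simp only [mem_filter, mem_univ, true_and, mem_union, hw, if_true, mem_singleton, hs,
          or_false]
        constructor
        · rintro ⟨a, b⟩; exact ⟨by omega, b⟩
        · rintro ⟨a, b⟩; exact ⟨by omega, b⟩
      · simp only [mem_filter, mem_univ, true_and, mem_union, hw, if_false, notMem_empty,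
          or_false]
        constructor
        · rintro ⟨a, b⟩; exact ⟨by omega, b⟩
        · rintro ⟨a, b⟩; exact ⟨by omega, b⟩
  rw [h1, card_union_of_disjoint]
  · congr 1
    by_cases hw : w ⟨t, h⟩ = i
    · subst hw; simp
    · rw [if_neg hw, Pi.single_apply, if_neg (Ne.symm hw)]; rfl
  · rw [Finset.disjoint_left]
    intro s hs hs'
    by_cases hw : w ⟨t, h⟩ = i
    · rw [if_pos hw, mem_singleton] at hs'
      subst hs'
      simp at hs
    · rw [if_neg hw] at hs'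
      simp at hs'

theorem cfg_congr (l : Fin N → ℕ) {w w' : Fin M → Fin N} {t : ℕ}
    (h : ∀ s : Fin M, (s : ℕ) < t → w s = w' s) : cfg l w t = cfg l w' t := by
  ext i
  simp only [cfg]
  congr 2
  ext s
  simp only [mem_filter, mem_univ, true_and]
  constructor
  · rintro ⟨a, b⟩; exact ⟨a, by rw [← h s a]; exact b⟩
  · rintro ⟨a, b⟩; exact ⟨a, by rw [h s a]; exact b⟩

theorem cfg_sw_of_le (l : Fin N → ℕ) (w : Fin M → Fin N) {j t : ℕ} (hj : j + 1 < M) (ht : t ≤ j) :
    cfg l (sw j w) t = cfg l w t :=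
  cfg_congr l fun s hs => sw_ne hj w (by omega) (by omega)

theorem cfg_sw_of_ge (l : Fin N → ℕ) (w : Fin M → Fin N) {j t : ℕ} (hj : j + 1 < M)
    (ht : j + 2 ≤ t) : cfg l (sw j w) t = cfg l w t := by
  ext i
  simp only [cfg]
  congr 1
  rw [sw_eq hj]
  refine Finset.card_bij' (fun s _ => Equiv.swap ⟨j, by omega⟩ ⟨j + 1, hj⟩ s)
    (fun s _ => Equiv.swap ⟨j, by omega⟩ ⟨j + 1, hj⟩ s) ?_ ?_ ?_ ?_
  · intro s hs
    simp only [mem_filter, mem_univ, true_and, Function.comp_apply] at hs ⊢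
    refine ⟨?_, hs.2⟩
    have hlt := hs.1
    rw [Equiv.swap_apply_def]
    split_ifs with e1 e2
    · simp only; omega
    · simp only; omega
    · exact hlt
  · intro s hs
    simp only [mem_filter, mem_univ, true_and, Function.comp_apply, Equiv.swap_apply_self] at hs ⊢
    refine ⟨?_, hs.2⟩
    have hlt := hs.1
    rw [Equiv.swap_apply_def]
    split_ifs with e1 e2
    · simp only; omega
    · simp only; omega
    · exact hlt
  · intro s _; simp
  · intro s _; simp

end Pool.Agent.Helper15.RT
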