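import Mathlib
import Pool.Agent.Helper15.RT.Words
import Pool.Agent.Helper15.RT.Defs

open Finset
open scoped Real

namespace Pool.Agent.Helper15.RT

/-- the Hecke relations for the first `m` generators -/
structure HeckeRep {A : Type*} [Ring A] [Algebra ℂ A] (t : ℂ) (m : ℕ) (s : ℕ → A) : Prop where
  sq : ∀ j, j < m → s j * s j = (t - t⁻¹) • s j + 1
  comm : ∀ j k, j + 2 ≤ k → k < m → s j * s k = s k * s j
  braid : ∀ j, j + 1 < m → s j * s (j + 1) * s j = s (j + 1) * s j * s (j + 1)

/-- diagonal coefficient of the R-matrix -/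
noncomputable def va {N : ℕ} (t : ℂ) (x y : Fin N) : ℂ := if x = y then t else if y < x then t - t⁻¹ else 0

/-- off-diagonal coefficient of the R-matrix -/
noncomputable def vb {N : ℕ} (x y : Fin N) : ℂ := if x = y then 0 else 1

theorem q_ne_zero (r : ℕ) : q r ≠ 0 := Complex.exp_ne_zero _

theorem Rmat_eq {N r M j : ℕ} (h : j + 1 < M) : Rmat N r M j =
    two (fun w => va (q r) (w ⟨j, by omega⟩) (w ⟨j + 1, h⟩))
      (fun w => vb (w ⟨j, by omega⟩) (w ⟨j + 1, h⟩)) (sw j) := by
  ext w w'
  rw [Rmat, dif_pos h, two, ← sw_eq h]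
  by_cases h1 : w' = w
  · subst h1
    rw [if_pos rfl, if_pos rfl]
    by_cases h2 : w' ⟨j, by omega⟩ = w' ⟨j + 1, h⟩
    · simp [va, vb, h2]
    · have h3 : w' ≠ sw j w' := by
        intro h4
        apply h2
        have := congrFun h4 ⟨j, by omega⟩
        rw [sw_fst h] at this
        exact this
      simp [va, h2, h3]
  · rw [if_neg h1, if_neg h1, zero_add]
    by_cases h2 : w' = sw j w
    · rw [if_pos h2, if_pos h2]
      have h3 : ¬ w ⟨j, by omega⟩ = w ⟨j + 1, h⟩ := by
        intro h4
        exact h1 (by rw [h2, sw_self h h4])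
      simp [vb, h3]
    · rw [if_neg h2, if_neg h2]

theorem heckeRep_Rmat (N r M : ℕ) : HeckeRep (q r) (M - 1) (Rmat N r M) := by
  have hq := q_ne_zero r
  constructor
  · intro j hj
    have h : j + 1 < M := by omega
    rw [Rmat_eq h]
    apply two_sq (sw_sw j)
    · intro w
      simp only [sw_fst h, sw_snd h]
      generalize w ⟨j, _⟩ = x
      generalize w ⟨j + 1, h⟩ = y
      rcases lt_trichotomy x y with e | e | e
      · simp [va, vb, e.ne, e.ne', e, e.asymm]
      · subst e; simp [va, vb]; field_simp; ring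
      · simp [va, vb, e.ne, e.ne', e, e.asymm]
    · intro w
      simp only [sw_fst h, sw_snd h]
      generalize w ⟨j, _⟩ = x
      generalize w ⟨j + 1, h⟩ = y
      rcases lt_trichotomy x y with e | e | e
      · simp [va, vb, e.ne, e.ne', e, e.asymm]
      · subst e; simp [vb]
      · simp [va, vb, e.ne, e.ne', e, e.asymm]
  · intro j k hjk hk
    have h : j + 1 < M := by omega
    have h' : k + 1 < M := by omega
    rw [Rmat_eq h, Rmat_eq h']
    apply two_comm (fun w => sw_comm hjk h' w)
    · intro w
      rw [sw_ne h w (by simp; omega) (by simp; omega), sw_ne h w (by simp; omega) (by simp; omega)]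
    · intro w
      rw [sw_ne h' w (by simp; omega) (by simp; omega),
        sw_ne h' w (by simp; omega) (by simp; omega)]
    · intro w
      rw [sw_ne h w (by simp; omega) (by simp; omega), sw_ne h w (by simp; omega) (by simp; omega),
        sw_ne h' w (by simp; omega) (by simp; omega),
        sw_ne h' w (by simp; omega) (by simp; omega)]
      ring
  · intro j hj
    have h : j + 1 < M := by omega
    have h' : (j + 1) + 1 < M := by omega
    rw [Rmat_eq h, Rmat_eq h']
    have e1 : ∀ w : Fin M → Fin N, sw j w ⟨j + 1 + 1, h'⟩ = w ⟨j + 1 + 1, h'⟩ := fun w =>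
      sw_ne h w (by simp; omega) (by simp)
    have e2 : ∀ w : Fin M → Fin N, sw (j + 1) w ⟨j, by omega⟩ = w ⟨j, by omega⟩ := fun w =>
      sw_ne h' w (by simp) (by simp; omega)
    apply two_braid (sw_sw j) (sw_sw (j + 1)) (fun w => sw_braid h' w)
    all_goals
      intro w
      simp only [sw_fst h, sw_snd h, sw_fst h', sw_snd h', e1, e2]
      generalize w ⟨j, _⟩ = x
      generalize w ⟨j + 1, _⟩ = y
      generalize w ⟨j + 1 + 1, _⟩ = z
      rcases lt_trichotomy x y with a | a | a <;> rcases lt_trichotomy y z with b | b | b <;>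
        rcases lt_trichotomy x z with c | c | c <;>
        first
        | (exfalso; order)
        | (subst_vars; simp [va, vb, *, ne_of_lt, ne_of_gt, lt_asymm]; try first | ring1 | (field_simp; ring1))

end Pool.Agent.Helper15.RT
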