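import Mathlib
import Pool.Agent.Helper15.RT.Vertex

open Finset
open scoped Real

namespace Pool.Agent.Helper15.RT

variable {N M : ℕ}

section Formal

variable {ι : Type*} [DecidableEq ι]

/-- diagonal coefficient of the path model -/
noncomputable def pa (t : ℂ) (F : ι → ℂ) (x y : ι) : ℂ :=
  if x = y then t else -(t - t⁻¹) * F y / (F x - F y)

/-- off-diagonal coefficient of the path model -/
noncomputable def pb (t : ℂ) (F : ι → ℂ) (x y : ι) : ℂ :=
  if x = y then 0 else (t * F x - t⁻¹ * F y) / (F x - F y)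

/-- the spectral values after one step of `x` -/
noncomputable def sh (t : ℂ) (F : ι → ℂ) (x : ι) : ι → ℂ := fun i => if i = x then t ^ 2 * F i else F i

variable {t : ℂ} (ht : t ≠ 0) {F : ι → ℂ} {x y z : ι}

include ht

theorem pa_add (h : x ≠ y) (hF : F x ≠ F y) : pa t F x y + pa t F y x = t - t⁻¹ := by
  rw [pa, pa, if_neg h, if_neg h.symm]
  have h1 : F x - F y ≠ 0 := sub_ne_zero.2 hF
  have h2 : F y - F x ≠ 0 := sub_ne_zero.2 hF.symm
  field_simp
  ring

theorem pa_sq (hF : x ≠ y → F x ≠ F y) :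
    pa t F x y * pa t F x y + pb t F x y * pb t F y x = (t - t⁻¹) * pa t F x y + 1 := by
  by_cases h : x = y
  · subst h
    simp only [pa, pb, if_true]
    field_simp
    ring
  · rw [pa, pb, pb, if_neg h, if_neg h, if_neg (Ne.symm h)]
    have h1 : F x - F y ≠ 0 := sub_ne_zero.2 (hF h)
    have h2 : F y - F x ≠ 0 := sub_ne_zero.2 (hF h).symm
    field_simp
    ring

theorem pf0 (hxy : x ≠ y → F x ≠ F y) (hxz : x ≠ z → F x ≠ F z) (hyz : y ≠ z → F y ≠ F z)
    (hx : x = y → x ≠ z → t ^ 2 * F x ≠ F z) (hx' : x = z → x ≠ y → t ^ 2 * F x ≠ F y)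
    (hy' : y = z → x ≠ y → F x ≠ t ^ 2 * F y) :
    pa t F x y * pa t (sh t F x) y z * pa t F x y +
      pb t F x y * pa t (sh t F y) x z * pb t F y x =
    pa t (sh t F x) y z * pa t F x y * pa t (sh t F x) y z +
      pb t (sh t F x) y z * pa t F x z * pb t (sh t F x) z y := by
  by_cases e1 : x = y
  · by_cases e2 : x = z
    · subst e1; subst e2
      simp [pa, pb]
    · subst e1
      have h1 : t ^ 2 * F x - F z ≠ 0 := sub_ne_zero.2 (hx rfl e2)
      have h1' : F z - t ^ 2 * F x ≠ 0 := sub_ne_zero.2 (hx rfl e2).symm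
      have h2 : F x - F z ≠ 0 := sub_ne_zero.2 (hxz e2)
      simp only [pa, pb, sh, if_true, if_neg e2, if_neg (Ne.symm e2)]
      field_simp
      ring
  · by_cases e2 : x = z
    · subst e2
      have h1 : t ^ 2 * F x - F y ≠ 0 := sub_ne_zero.2 (hx' rfl e1)
      have h1' : F y - t ^ 2 * F x ≠ 0 := sub_ne_zero.2 (hx' rfl e1).symm
      have h2 : F x - F y ≠ 0 := sub_ne_zero.2 (hxy e1)
      have h3 : F y - F x ≠ 0 := sub_ne_zero.2 (hxy e1).symm
      simp only [pa, pb, sh, if_true, if_neg e1, if_neg (Ne.symm e1)]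
      field_simp
      ring
    · by_cases e3 : y = z
      · subst e3
        have h1 : F x - t ^ 2 * F y ≠ 0 := sub_ne_zero.2 (hy' rfl e1)
        have h2 : F x - F y ≠ 0 := sub_ne_zero.2 (hxy e1)
        have h3 : F y - F x ≠ 0 := sub_ne_zero.2 (hxy e1).symm
        simp only [pa, pb, sh, if_true, if_neg e1, if_neg (Ne.symm e1)]
        field_simp
        ring
      · have h1 : F x - F y ≠ 0 := sub_ne_zero.2 (hxy e1)
        have h2 : F x - F z ≠ 0 := sub_ne_zero.2 (hxz e2)
        have h3 : F y - F z ≠ 0 := sub_ne_zero.2 (hyz e3)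
        have h1' : F y - F x ≠ 0 := sub_ne_zero.2 (hxy e1).symm
        have h3' : F z - F y ≠ 0 := sub_ne_zero.2 (hyz e3).symm
        simp only [pa, pb, sh, if_neg e1, if_neg e2, if_neg e3, if_neg (Ne.symm e1),
          if_neg (Ne.symm e2), if_neg (Ne.symm e3)]
        field_simp
        ring

theorem pf1 (hxy : x ≠ y → F x ≠ F y) (hxz : x ≠ z → F x ≠ F z) (hyz : y ≠ z → F y ≠ F z)
    (hx' : x = z → x ≠ y → t ^ 2 * F x ≠ F y)
    (hy' : y = z → x ≠ y → F x ≠ t ^ 2 * F y) :
    pa t F x y * pa t (sh t F x) y z * pb t F x y +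
      pb t F x y * pa t (sh t F y) x z * pa t F y x =
    pa t (sh t F x) y z * pb t F x y * pa t (sh t F y) x z := by
  by_cases e1 : x = y
  · simp [pb, e1]
  · by_cases e2 : x = z
    · subst e2
      have h1 : t ^ 2 * F x - F y ≠ 0 := sub_ne_zero.2 (hx' rfl e1)
      have h1' : F y - t ^ 2 * F x ≠ 0 := sub_ne_zero.2 (hx' rfl e1).symm
      have h2 : F x - F y ≠ 0 := sub_ne_zero.2 (hxy e1)
      have h3 : F y - F x ≠ 0 := sub_ne_zero.2 (hxy e1).symm
      simp only [pa, pb, sh, if_true, if_neg e1, if_neg (Ne.symm e1)]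
      field_simp
      ring
    · by_cases e3 : y = z
      · subst e3
        have h1 : F x - t ^ 2 * F y ≠ 0 := sub_ne_zero.2 (hy' rfl e1)
        have h2 : F x - F y ≠ 0 := sub_ne_zero.2 (hxy e1)
        have h3 : F y - F x ≠ 0 := sub_ne_zero.2 (hxy e1).symm
        simp only [pa, pb, sh, if_true, if_neg e1, if_neg (Ne.symm e1)]
        field_simp
        ring
      · have h1 : F x - F y ≠ 0 := sub_ne_zero.2 (hxy e1)
        have h2 : F x - F z ≠ 0 := sub_ne_zero.2 (hxz e2)
        have h3 : F y - F z ≠ 0 := sub_ne_zero.2 (hyz e3)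
        have h1' : F y - F x ≠ 0 := sub_ne_zero.2 (hxy e1).symm
        have h3' : F z - F y ≠ 0 := sub_ne_zero.2 (hyz e3).symm
        simp only [pa, pb, sh, if_neg e1, if_neg e2, if_neg e3, if_neg (Ne.symm e1),
          if_neg (Ne.symm e2), if_neg (Ne.symm e3)]
        field_simp
        ring

theorem pf2 (hxy : x ≠ y → F x ≠ F y) (hxz : x ≠ z → F x ≠ F z) (hyz : y ≠ z → F y ≠ F z)
    (hx : x = y → x ≠ z → t ^ 2 * F x ≠ F z) (hx' : x = z → x ≠ y → t ^ 2 * F x ≠ F y) :
    pa t F x y * pb t (sh t F x) y z * pa t F x z =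
    pa t (sh t F x) y z * pa t F x y * pb t (sh t F x) y z +
      pb t (sh t F x) y z * pa t F x z * pa t (sh t F x) z y := by
  by_cases e3 : y = z
  · simp [pb, e3]
  by_cases e1 : x = y
  · subst e1
    have e2 := e3
    have h1 : t ^ 2 * F x - F z ≠ 0 := sub_ne_zero.2 (hx rfl e2)
    have h1' : F z - t ^ 2 * F x ≠ 0 := sub_ne_zero.2 (hx rfl e2).symm
    have h2 : F x - F z ≠ 0 := sub_ne_zero.2 (hxz e2)
    simp only [pa, pb, sh, if_true, if_neg e2, if_neg (Ne.symm e2)]
    field_simp
    ring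
  by_cases e2 : x = z
  · subst e2
    have h1 : t ^ 2 * F x - F y ≠ 0 := sub_ne_zero.2 (hx' rfl e1)
    have h1' : F y - t ^ 2 * F x ≠ 0 := sub_ne_zero.2 (hx' rfl e1).symm
    have h2 : F x - F y ≠ 0 := sub_ne_zero.2 (hxy e1)
    have h3 : F y - F x ≠ 0 := sub_ne_zero.2 (hxy e1).symm
    simp only [pa, pb, sh, if_true, if_neg e1, if_neg (Ne.symm e1)]
    field_simp
    ring
  · have h1 : F x - F y ≠ 0 := sub_ne_zero.2 (hxy e1)
    have h2 : F x - F z ≠ 0 := sub_ne_zero.2 (hxz e2)
    have h3 : F y - F z ≠ 0 := sub_ne_zero.2 (hyz e3)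
    have h1' : F y - F x ≠ 0 := sub_ne_zero.2 (hxy e1).symm
    have h3' : F z - F y ≠ 0 := sub_ne_zero.2 (hyz e3).symm
    simp only [pa, pb, sh, if_neg e1, if_neg e2, if_neg e3, if_neg (Ne.symm e1),
      if_neg (Ne.symm e2), if_neg (Ne.symm e3)]
    field_simp
    ring

omit ht in
theorem pf3 : pa t F x y * pb t (sh t F x) y z * pb t F x z =
    pb t (sh t F x) y z * pb t F x z * pa t (sh t F z) x y := by
  by_cases e2 : x = z
  · simp [pb, e2]
  by_cases e3 : y = z
  · simp [pb, e3]
  · simp only [pa, pb, sh, if_neg e2, if_neg e3]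
    ring

omit ht in
theorem pf4 : pb t F x y * pb t (sh t F y) x z * pa t F y z =
    pa t (sh t F x) y z * pb t F x y * pb t (sh t F y) x z := by
  by_cases e1 : x = y
  · simp [pb, e1]
  by_cases e2 : x = z
  · simp [pb, e2]
  · simp only [pa, pb, sh, if_neg e1, if_neg e2, if_neg (Ne.symm e1), if_neg (Ne.symm e2)]
    ring

omit ht in
theorem pf5 : pb t F x y * pb t (sh t F y) x z * pb t F y z =
    pb t (sh t F x) y z * pb t F x z * pb t (sh t F z) x y := by
  by_cases e1 : x = y
  · simp [pb, e1]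
  by_cases e2 : x = z
  · simp [pb, e2]
  by_cases e3 : y = z
  · simp [pb, e3]
  · simp only [pb, sh, if_neg e1, if_neg e2, if_neg e3, if_neg (Ne.symm e1), if_neg (Ne.symm e2),
      if_neg (Ne.symm e3)]
    ring

end Formal

/-- the residues of the configuration are distinct -/
def goodc (r : ℕ) (l : Fin N → ℕ) : Prop := ∀ i j, i ≠ j → ¬ (l i ≡ l j [MOD r])

/-- all configurations of the word started at `l` are good -/
def good (r : ℕ) (l : Fin N → ℕ) (w : Fin M → Fin N) : Prop := ∀ t ≤ M, goodc r (cfg l w t)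

/-- spectral values -/
noncomputable def spec (r : ℕ) (l : Fin N → ℕ) : Fin N → ℂ := fun i => q r ^ (2 * l i)

theorem q_sq_pow_eq_one_iff {r : ℕ} (hr : 0 < r) (n : ℕ) : q r ^ (2 * n) = 1 ↔ r ∣ n := by
  have h1 : q r ^ 2 = Complex.exp (2 * π * Complex.I / r) := by
    rw [q, ← Complex.exp_nat_mul]
    congr 1
    push_cast
    ring
  rw [pow_mul, h1]
  exact (Complex.isPrimitiveRoot_exp r hr.ne').pow_eq_one_iff_dvd n

theorem spec_eq_iff {r : ℕ} (hr : 0 < r) (a b : ℕ) :
    q r ^ (2 * a) = q r ^ (2 * b) ↔ a ≡ b [MOD r] := by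
  wlog h : b ≤ a generalizing a b
  · rw [eq_comm, this b a (by omega)]
    exact Nat.ModEq.comm
  · have h1 : q r ^ (2 * a) = q r ^ (2 * b) * q r ^ (2 * (a - b)) := by
      rw [← pow_add]
      congr 1
      omega
    have h2 : q r ^ (2 * b) ≠ 0 := pow_ne_zero _ (q_ne_zero r)
    rw [h1, mul_eq_left₀ h2, q_sq_pow_eq_one_iff hr]
    rw [Nat.ModEq.comm, Nat.modEq_iff_dvd' h]

theorem spec_add (r : ℕ) (l : Fin N → ℕ) (x : Fin N) :
    spec r (l + Pi.single x 1) = sh (q r) (spec r l) x := by
  ext i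
  simp only [spec, sh, Pi.add_apply]
  by_cases h : i = x
  · subst h
    simp only [Pi.single_eq_same, if_true]
    ring
  · rw [if_neg h, Pi.single_eq_of_ne h, add_zero]

theorem goodc_ne {r : ℕ} (hr : 0 < r) {l : Fin N → ℕ} (h : goodc r l) {x y : Fin N} (hxy : x ≠ y) :
    spec r l x ≠ spec r l y := by
  intro e
  exact h x y hxy ((spec_eq_iff hr _ _).1 e)

theorem good_sw_iff {r : ℕ} {l : Fin N → ℕ} {w : Fin M → Fin N} (hw : good r l w) {j : ℕ}
    (h : j + 1 < M) (hxy : w ⟨j, by omega⟩ ≠ w ⟨j + 1, h⟩) :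
    good r l (sw j w) ↔
      ¬ (cfg l w j (w ⟨j + 1, h⟩) + 1 ≡ cfg l w j (w ⟨j, by omega⟩) [MOD r]) := by
  have hc1 : cfg l (sw j w) (j + 1) = cfg l w j + Pi.single (w ⟨j + 1, h⟩) 1 := by
    rw [cfg_succ l (sw j w) (by omega : j < M), cfg_sw_of_le l w h le_rfl, sw_fst h]
  constructor
  · intro hg e
    have := hg (j + 1) (by omega)
    rw [hc1] at this
    refine this _ _ hxy.symm ?_
    simpa [Pi.single_eq_of_ne hxy] using e
  · intro hne t ht
    rcases lt_trichotomy t (j + 1) with h1 | h1 | h1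
    · rw [cfg_sw_of_le l w h (by omega)]
      exact hw t ht
    · subst h1
      rw [hc1]
      have hL := hw j (by omega)
      have hL2 := hw (j + 2) (by omega)
      have hc2 : cfg l w (j + 2) = cfg l w j + Pi.single (w ⟨j, by omega⟩) 1 +
          Pi.single (w ⟨j + 1, h⟩) 1 := by
        rw [cfg_succ l w h, cfg_succ l w (by omega : j < M)]
      rw [hc2] at hL2
      generalize cfg l w j = L at *
      generalize w ⟨j, _⟩ = x at *
      generalize w ⟨j + 1, h⟩ = y at *
      intro a b hab e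
      by_cases ha : a = y
      · subst ha
        by_cases hb : b = x
        · subst hb
          apply hne
          simpa [Pi.single_eq_of_ne hab.symm] using e
        · refine hL2 a b hab ?_
          simpa [Pi.single_eq_of_ne hab.symm, Pi.single_eq_of_ne hb, Pi.single_eq_of_ne hxy.symm]
            using e
      · by_cases hb : b = y
        · subst hb
          by_cases ha' : a = x
          · subst ha'
            apply hne
            have := e.symm
            simpa [Pi.single_eq_of_ne hab] using this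
          · refine hL2 a b hab ?_
            simpa [Pi.single_eq_of_ne hab, Pi.single_eq_of_ne ha', Pi.single_eq_of_ne hxy.symm]
              using e
        · refine hL a b hab ?_
          simpa [Pi.single_eq_of_ne ha, Pi.single_eq_of_ne hb] using e
    · rw [cfg_sw_of_ge l w h (by omega)]
      exact hw t ht

theorem pb_eq_zero {r : ℕ} (hr : 0 < r) {l : Fin N → ℕ} {x y : Fin N}
    (h : l y + 1 ≡ l x [MOD r]) : pb (q r) (spec r l) y x = 0 := by
  rw [pb]
  split_ifs with e
  · rfl
  · have h1 : q r ^ (2 * (l y + 1)) = q r ^ (2 * l x) := (spec_eq_iff hr _ _).2 h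
    have h2 : q r * spec r l y - (q r)⁻¹ * spec r l x = 0 := by
      simp only [spec]
      rw [← h1]
      have := q_ne_zero r
      field_simp
      ring
    rw [h2, zero_div]

open scoped Classical in
/-- the generators in the path model -/
noncomputable def Pmat (N r : ℕ) (l : Fin N → ℕ) (M j : ℕ) :
    Matrix (Fin M → Fin N) (Fin M → Fin N) ℂ :=
  if h : j + 1 < M then
    two (fun w => if good r l w then
        pa (q r) (spec r (cfg l w j)) (w ⟨j, by omega⟩) (w ⟨j + 1, h⟩) else q r)
      (fun w => if good r l w ∧ good r l (sw j w) then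
        pb (q r) (spec r (cfg l w j)) (w ⟨j, by omega⟩) (w ⟨j + 1, h⟩) else 0) (sw j)
  else 0

theorem good_step {r : ℕ} (hr : 0 < r) {l : Fin N → ℕ} {w : Fin M → Fin N} (hw : good r l w)
    {j : ℕ} (h : j < M) {u : Fin N} (hu : w ⟨j, h⟩ ≠ u) :
    q r ^ 2 * spec r (cfg l w j) (w ⟨j, h⟩) ≠ spec r (cfg l w j) u := by
  have h1 := goodc_ne hr (hw (j + 1) (by omega)) hu
  rw [cfg_succ l w h, spec_add] at h1
  simpa [sh, hu.symm] using h1

theorem good_step' {r : ℕ} (hr : 0 < r) {l : Fin N → ℕ} {w : Fin M → Fin N} (hw : good r l w)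
    {j : ℕ} (h : j + 2 < M) (h1 : w ⟨j + 1, by omega⟩ = w ⟨j + 2, h⟩)
    (h2 : w ⟨j, by omega⟩ ≠ w ⟨j + 1, by omega⟩) :
    spec r (cfg l w j) (w ⟨j, by omega⟩) ≠
      q r ^ 2 * spec r (cfg l w j) (w ⟨j + 1, by omega⟩) := by
  have h3 := goodc_ne hr (hw (j + 3) (by omega)) h2
  rw [cfg_succ l w (by omega : j + 2 < M), cfg_succ l w (by omega : j + 1 < M),
    cfg_succ l w (by omega : j < M), spec_add, spec_add, spec_add] at h3
  intro e
  apply h3
  rw [← h1]
  simp only [sh, h2, h2.symm, if_true, if_false]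
  rw [e]

theorem sq_Pmat {N r : ℕ} (hr : 0 < r) (l : Fin N → ℕ) (M : ℕ) {j : ℕ} (hj : j + 1 < M) :
    Pmat N r l M j * Pmat N r l M j = (q r - (q r)⁻¹) • Pmat N r l M j + 1 := by
  have hq := q_ne_zero r
  rw [Pmat, dif_pos hj]
  apply two_sq (sw_sw j)
  · intro w
    by_cases hw : good r l w
    · have hne : w ⟨j, by omega⟩ ≠ w ⟨j + 1, hj⟩ →
          spec r (cfg l w j) (w ⟨j, by omega⟩) ≠ spec r (cfg l w j) (w ⟨j + 1, hj⟩) :=
        fun h => goodc_ne hr (hw j (by omega)) h
      have key := pa_sq hq hne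
      by_cases hs : good r l (sw j w)
      · simpa only [if_pos hw, hs, hw, and_self, if_true, sw_sw, cfg_sw_of_le l w hj le_rfl,
          sw_fst hj, sw_snd hj] using key
      · have hd : w ⟨j, by omega⟩ ≠ w ⟨j + 1, hj⟩ := by
          intro e
          rw [sw_self hj e] at hs
          exact hs hw
        have h1 := (not_iff_not.2 (good_sw_iff hw hj hd)).1 hs
        rw [not_not] at h1
        rw [pb_eq_zero hr h1, mul_zero] at key
        simpa only [if_pos hw, hs, hw, and_self, if_true, and_false, if_false, zero_mul] using key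
    · simp only [if_neg hw, hw, false_and, if_false, zero_mul, add_zero]
      field_simp
      ring
  · intro w
    by_cases hw : good r l w ∧ good r l (sw j w)
    · rw [if_pos hw, if_pos hw.1, if_pos hw.2]
      by_cases he : w ⟨j, by omega⟩ = w ⟨j + 1, hj⟩
      · simp [pb, he]
      · have hne := goodc_ne hr (hw.1 j (by omega)) he
        rw [cfg_sw_of_le l w hj le_rfl, sw_fst hj, sw_snd hj, pa_add hq he hne]
        ring
    · rw [if_neg hw]; ring

theorem comm_Pmat {N r : ℕ} (l : Fin N → ℕ) (M : ℕ) {j k : ℕ} (hjk : j + 2 ≤ k)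
    (hk : k + 1 < M) :
    Pmat N r l M j * Pmat N r l M k = Pmat N r l M k * Pmat N r l M j := by
  have hj : j + 1 < M := by omega
  have c1 : ∀ v : Fin M → Fin N, cfg l (sw k v) j = cfg l v j := fun v =>
    cfg_sw_of_le l v hk (by omega)
  have c2 : ∀ v : Fin M → Fin N, cfg l (sw j v) k = cfg l v k := fun v =>
    cfg_sw_of_ge l v hj (by omega)
  have e1 : ∀ v : Fin M → Fin N, sw k v ⟨j, by omega⟩ = v ⟨j, by omega⟩ := fun v =>
    sw_ne hk v (by simp; omega) (by simp; omega)
  have e2 : ∀ v : Fin M → Fin N, sw k v ⟨j + 1, hj⟩ = v ⟨j + 1, hj⟩ := fun v =>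
    sw_ne hk v (by simp; omega) (by simp; omega)
  have e3 : ∀ v : Fin M → Fin N, sw j v ⟨k, by omega⟩ = v ⟨k, by omega⟩ := fun v =>
    sw_ne hj v (by simp; omega) (by simp; omega)
  have e4 : ∀ v : Fin M → Fin N, sw j v ⟨k + 1, hk⟩ = v ⟨k + 1, hk⟩ := fun v =>
    sw_ne hj v (by simp; omega) (by simp; omega)
  rw [Pmat, dif_pos hj, Pmat, dif_pos hk]
  apply two_comm (fun w => sw_comm hjk hk w)
  · intro w
    by_cases hw : good r l w ∧ good r l (sw j w)
    · simp only [hw, and_self, if_true, c2, e3, e4]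
    · simp only [if_neg hw, zero_mul]
  · intro w
    by_cases hw : good r l w ∧ good r l (sw k w)
    · simp only [hw, and_self, if_true, c1, e1, e2]
    · simp only [if_neg hw, zero_mul]
  · intro w
    simp only [c1, c2, e1, e2, e3, e4]
    by_cases hw : good r l w
    · by_cases hf : good r l (sw k (sw j w))
      · -- final word good
        by_cases hx : w ⟨j, by omega⟩ = w ⟨j + 1, hj⟩
        · simp [pb, hx]
        by_cases hy : w ⟨k, by omega⟩ = w ⟨k + 1, hk⟩
        · simp [pb, hy]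
        have g1 : good r l (sw j w) := by
          by_contra hc
          have h1 := (not_iff_not.2 (good_sw_iff hw hj hx)).1 hc
          rw [not_not] at h1
          have h2 := hf (j + 1) (by omega)
          rw [cfg_succ l _ (by omega : j < M), c1, cfg_sw_of_le l w hj le_rfl, e1,
            sw_fst hj] at h2
          refine h2 _ _ (Ne.symm hx) ?_
          simpa [Pi.single_eq_of_ne hx] using h1
        have g2 : good r l (sw k w) := by
          by_contra hc
          have h1 := (not_iff_not.2 (good_sw_iff hw hk hy)).1 hc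
          rw [not_not] at h1
          have h2 := hf (k + 1) (by omega)
          rw [cfg_succ l _ (by omega : k < M), cfg_sw_of_le l _ hk le_rfl, c2,
            sw_fst hk, e4] at h2
          refine h2 _ _ (Ne.symm hy) ?_
          simpa [Pi.single_eq_of_ne hy] using h1
        have hf' : good r l (sw j (sw k w)) := by rw [sw_comm hjk hk]; exact hf
        simp only [hw, g1, g2, hf, hf', and_self, if_true]
        ring
      · have hf' : ¬ good r l (sw j (sw k w)) := by rw [sw_comm hjk hk]; exact hf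
        simp only [hf, hf', and_false, if_false, mul_zero]
    · simp only [hw, false_and, if_false, zero_mul]

end Pool.Agent.Helper15.RT
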