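import Mathlib
import Pool.Agent.Helper15.RT.Path

open Finset
open scoped Real

namespace Pool.Agent.Helper15.RT

variable {N M : ℕ}

theorem braid_Pmat {N r : ℕ} (hr : 0 < r) (l : Fin N → ℕ) (M : ℕ) {j : ℕ} (h : j + 2 < M) :
    Pmat N r l M j * Pmat N r l M (j + 1) * Pmat N r l M j =
      Pmat N r l M (j + 1) * Pmat N r l M j * Pmat N r l M (j + 1) := by
  classical
  have hq := q_ne_zero r
  have hj : j + 1 < M := by omega
  have hj' : (j + 1) + 1 < M := by omega
  have e1 : ∀ w : Fin M → Fin N, sw j w ⟨j + 1 + 1, hj'⟩ = w ⟨j + 1 + 1, hj'⟩ := fun w =>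
    sw_ne hj w (by simp; omega) (by simp)
  have e2 : ∀ w : Fin M → Fin N, sw (j + 1) w ⟨j, by omega⟩ = w ⟨j, by omega⟩ := fun w =>
    sw_ne hj' w (by simp) (by simp; omega)
  have c1 : ∀ w : Fin M → Fin N, cfg l (sw j w) j = cfg l w j := fun w =>
    cfg_sw_of_le l w hj le_rfl
  have c2 : ∀ w : Fin M → Fin N, cfg l (sw (j + 1) w) j = cfg l w j := fun w =>
    cfg_sw_of_le l w hj' (by omega)
  have c3 : ∀ w : Fin M → Fin N, spec r (cfg l w (j + 1)) =
      sh (q r) (spec r (cfg l w j)) (w ⟨j, by omega⟩) := fun w => by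
    rw [cfg_succ l w (by omega : j < M), spec_add]
  -- facts for good words
  have key : ∀ w : Fin M → Fin N, good r l w →
      ((w ⟨j, by omega⟩ ≠ w ⟨j + 1, hj⟩ → spec r (cfg l w j) (w ⟨j, by omega⟩) ≠
        spec r (cfg l w j) (w ⟨j + 1, hj⟩)) ∧
      (w ⟨j, by omega⟩ ≠ w ⟨j + 1 + 1, hj'⟩ → spec r (cfg l w j) (w ⟨j, by omega⟩) ≠
        spec r (cfg l w j) (w ⟨j + 1 + 1, hj'⟩)) ∧
      (w ⟨j + 1, hj⟩ ≠ w ⟨j + 1 + 1, hj'⟩ → spec r (cfg l w j) (w ⟨j + 1, hj⟩) ≠
        spec r (cfg l w j) (w ⟨j + 1 + 1, hj'⟩)) ∧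
      (w ⟨j, by omega⟩ = w ⟨j + 1, hj⟩ → w ⟨j, by omega⟩ ≠ w ⟨j + 1 + 1, hj'⟩ →
        q r ^ 2 * spec r (cfg l w j) (w ⟨j, by omega⟩) ≠
          spec r (cfg l w j) (w ⟨j + 1 + 1, hj'⟩)) ∧
      (w ⟨j, by omega⟩ = w ⟨j + 1 + 1, hj'⟩ → w ⟨j, by omega⟩ ≠ w ⟨j + 1, hj⟩ →
        q r ^ 2 * spec r (cfg l w j) (w ⟨j, by omega⟩) ≠
          spec r (cfg l w j) (w ⟨j + 1, hj⟩)) ∧
      (w ⟨j + 1, hj⟩ = w ⟨j + 1 + 1, hj'⟩ → w ⟨j, by omega⟩ ≠ w ⟨j + 1, hj⟩ →
        spec r (cfg l w j) (w ⟨j, by omega⟩) ≠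
          q r ^ 2 * spec r (cfg l w j) (w ⟨j + 1, hj⟩))) := by
    intro w hw
    refine ⟨fun he => goodc_ne hr (hw j (by omega)) he, fun he => goodc_ne hr (hw j (by omega)) he,
      fun he => goodc_ne hr (hw j (by omega)) he, fun _ he => good_step hr hw _ he,
      fun _ he => good_step hr hw _ he, fun he he' => good_step' hr hw h he he'⟩
  rw [Pmat, dif_pos hj, Pmat, dif_pos hj']
  apply two_braid (sw_sw j) (sw_sw (j + 1)) (fun w => sw_braid hj' w)
  · -- h0
    intro w
    by_cases hw : good r l w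
    · obtain ⟨k1, k2, k3, k4, k5, k6⟩ := key w hw
      have kf := pf0 hq k1 k2 k3 k4 k5 k6
      simp only [hw, if_true, true_and, sw_sw, and_true, sw_fst hj, sw_snd hj, sw_fst hj',
        sw_snd hj', e1, e2, c1, c2, c3]
      have t1 : (if good r l (sw j w) then
            pb (q r) (spec r (cfg l w j)) (w ⟨j, by omega⟩) (w ⟨j + 1, hj⟩) else 0) *
          (if good r l (sw j w) then pa (q r) (sh (q r) (spec r (cfg l w j)) (w ⟨j + 1, hj⟩))
            (w ⟨j, by omega⟩) (w ⟨j + 1 + 1, hj'⟩) else q r) *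
          (if good r l (sw j w) then
            pb (q r) (spec r (cfg l w j)) (w ⟨j + 1, hj⟩) (w ⟨j, by omega⟩) else 0) =
          pb (q r) (spec r (cfg l w j)) (w ⟨j, by omega⟩) (w ⟨j + 1, hj⟩) *
          pa (q r) (sh (q r) (spec r (cfg l w j)) (w ⟨j + 1, hj⟩))
            (w ⟨j, by omega⟩) (w ⟨j + 1 + 1, hj'⟩) *
          pb (q r) (spec r (cfg l w j)) (w ⟨j + 1, hj⟩) (w ⟨j, by omega⟩) := by
        by_cases hs : good r l (sw j w)
        · simp only [hs, if_true]
        · have hd : w ⟨j, by omega⟩ ≠ w ⟨j + 1, hj⟩ := by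
            intro e
            rw [sw_self hj e] at hs
            exact hs hw
          have h1 := (not_iff_not.2 (good_sw_iff hw hj hd)).1 hs
          rw [not_not] at h1
          rw [pb_eq_zero hr h1]
          simp only [hs, if_false, mul_zero]
      have t2 : (if good r l (sw (j + 1) w) then
            pb (q r) (sh (q r) (spec r (cfg l w j)) (w ⟨j, by omega⟩)) (w ⟨j + 1, hj⟩)
              (w ⟨j + 1 + 1, hj'⟩) else 0) *
          (if good r l (sw (j + 1) w) then pa (q r) (spec r (cfg l w j))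
            (w ⟨j, by omega⟩) (w ⟨j + 1 + 1, hj'⟩) else q r) *
          (if good r l (sw (j + 1) w) then
            pb (q r) (sh (q r) (spec r (cfg l w j)) (w ⟨j, by omega⟩)) (w ⟨j + 1 + 1, hj'⟩)
              (w ⟨j + 1, hj⟩) else 0) =
          pb (q r) (sh (q r) (spec r (cfg l w j)) (w ⟨j, by omega⟩)) (w ⟨j + 1, hj⟩)
              (w ⟨j + 1 + 1, hj'⟩) *
          pa (q r) (spec r (cfg l w j)) (w ⟨j, by omega⟩) (w ⟨j + 1 + 1, hj'⟩) *
          pb (q r) (sh (q r) (spec r (cfg l w j)) (w ⟨j, by omega⟩)) (w ⟨j + 1 + 1, hj'⟩)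
              (w ⟨j + 1, hj⟩) := by
        by_cases hs : good r l (sw (j + 1) w)
        · simp only [hs, if_true]
        · have hd : w ⟨j + 1, hj⟩ ≠ w ⟨j + 1 + 1, hj'⟩ := by
            intro e
            rw [sw_self hj' e] at hs
            exact hs hw
          have h1 := (not_iff_not.2 (good_sw_iff hw hj' hd)).1 hs
          rw [not_not] at h1
          have h2 := pb_eq_zero hr h1
          rw [c3] at h2
          rw [h2]
          simp only [hs, if_false, mul_zero]
      rw [t1, t2]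
      exact kf
    · simp only [hw, false_and, if_false, zero_mul]
  · -- h1
    intro w
    by_cases hw : good r l w
    · obtain ⟨k1, k2, k3, k4, k5, k6⟩ := key w hw
      have kf := pf1 hq k1 k2 k3 k5 k6
      by_cases hs : good r l (sw j w)
      · simp only [hw, hs, if_true, true_and, sw_sw, and_true, sw_fst hj, sw_snd hj, sw_fst hj',
          sw_snd hj', e1, e2, c1, c2, c3]
        exact kf
      · simp only [hs, and_false, if_false, zero_mul, mul_zero, add_zero]
    · simp only [hw, false_and, if_false, zero_mul, mul_zero, add_zero]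
  · -- h2
    intro w
    by_cases hw : good r l w
    · obtain ⟨k1, k2, k3, k4, k5, k6⟩ := key w hw
      have kf := pf2 hq k1 k2 k3 k4 k5
      by_cases hs : good r l (sw (j + 1) w)
      · simp only [hw, hs, if_true, true_and, sw_sw, and_true, sw_fst hj, sw_snd hj, sw_fst hj',
          sw_snd hj', e1, e2, c1, c2, c3]
        exact kf
      · simp only [hs, and_false, if_false, zero_mul, mul_zero, add_zero]
    · simp only [hw, false_and, if_false, zero_mul, mul_zero, add_zero]
  · -- h3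
    intro w
    by_cases hw : good r l w
    · by_cases hs : good r l (sw (j + 1) w)
      · by_cases hs' : good r l (sw j (sw (j + 1) w))
        · simp only [hw, hs, hs', if_true, true_and, sw_sw, and_true, sw_fst hj, sw_snd hj,
            sw_fst hj', sw_snd hj', e1, e2, c1, c2, c3]
          exact pf3
        · simp only [hs', and_false, if_false, zero_mul, mul_zero]
      · simp only [hs, and_false, if_false, zero_mul, mul_zero]
    · simp only [hw, false_and, if_false, zero_mul, mul_zero]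
  · -- h4
    intro w
    by_cases hw : good r l w
    · by_cases hs : good r l (sw j w)
      · by_cases hs' : good r l (sw (j + 1) (sw j w))
        · simp only [hw, hs, hs', if_true, true_and, sw_sw, and_true, sw_fst hj, sw_snd hj,
            sw_fst hj', sw_snd hj', e1, e2, c1, c2, c3]
          exact pf4
        · simp only [hs', and_false, if_false, zero_mul, mul_zero]
      · simp only [hs, and_false, if_false, zero_mul, mul_zero]
    · simp only [hw, false_and, if_false, zero_mul, mul_zero]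
  · -- h5
    intro w
    have hb := sw_braid hj' w
    by_cases hw : good r l w
    · by_cases hf : good r l (sw j (sw (j + 1) (sw j w)))
      · have hf' : good r l (sw (j + 1) (sw j (sw (j + 1) w))) := by rw [← hb]; exact hf
        have hL := hw j (by omega)
        have h1 := hf (j + 1) (by omega)
        have h2 := hf (j + 2) (by omega)
        have d2 : cfg l (sw j (sw (j + 1) (sw j w))) (j + 2) = cfg l w j +
            Pi.single (w ⟨j + 1 + 1, hj'⟩) 1 + Pi.single (w ⟨j + 1, hj⟩) 1 := by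
          rw [cfg_succ l _ hj, cfg_succ l _ (by omega : j < M), c1, c2, c1, sw_fst hj,
            sw_snd hj, sw_fst hj', e1, e2, sw_fst hj]
        have d1 : cfg l (sw j (sw (j + 1) (sw j w))) (j + 1) = cfg l w j +
            Pi.single (w ⟨j + 1 + 1, hj'⟩) 1 := by
          rw [cfg_succ l _ (by omega : j < M), c1, c2, c1, sw_fst hj, sw_fst hj', e1]
        rw [d1] at h1
        rw [d2] at h2
        by_cases hxy : w ⟨j, by omega⟩ = w ⟨j + 1, hj⟩
        · simp [pb, hxy, e1, e2, sw_fst hj, sw_snd hj, sw_fst hj', sw_snd hj']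
        by_cases hxz : w ⟨j, by omega⟩ = w ⟨j + 1 + 1, hj'⟩
        · simp [pb, hxz, e1, e2, sw_fst hj, sw_snd hj, sw_fst hj', sw_snd hj']
        by_cases hyz : w ⟨j + 1, hj⟩ = w ⟨j + 1 + 1, hj'⟩
        · simp [pb, hyz, e1, e2, sw_fst hj, sw_snd hj, sw_fst hj', sw_snd hj']
        have m1 : ¬ (cfg l w j (w ⟨j + 1, hj⟩) + 1 ≡ cfg l w j (w ⟨j, by omega⟩) [MOD r]) := by
          have := h2 (w ⟨j + 1, hj⟩) (w ⟨j, by omega⟩) (Ne.symm hxy)
          simpa [Pi.single_apply, hxy, hxz, hyz, Ne.symm hxy] using this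
        have m2 : ¬ (cfg l w j (w ⟨j + 1 + 1, hj'⟩) + 1 ≡ cfg l w j (w ⟨j, by omega⟩)
            [MOD r]) := by
          have := h1 (w ⟨j + 1 + 1, hj'⟩) (w ⟨j, by omega⟩) (Ne.symm hxz)
          simpa [Pi.single_apply, hxz] using this
        have m3 : ¬ (cfg l w j (w ⟨j + 1 + 1, hj'⟩) + 1 ≡ cfg l w j (w ⟨j + 1, hj⟩)
            [MOD r]) := by
          have := h1 (w ⟨j + 1 + 1, hj'⟩) (w ⟨j + 1, hj⟩) (Ne.symm hyz)
          simpa [Pi.single_apply, hyz] using this
        have g1 : good r l (sw j w) := (good_sw_iff hw hj hxy).2 m1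
        have g2 : good r l (sw (j + 1) (sw j w)) := by
          refine (good_sw_iff g1 hj' ?_).2 ?_
          · rw [sw_snd hj, e1]; exact hxz
          · rw [sw_snd hj, e1, cfg_succ l _ (by omega : j < M), c1, sw_fst hj]
            simpa [Pi.single_apply, Ne.symm hyz, hxy] using m2
        have g3 : good r l (sw (j + 1) w) := by
          refine (good_sw_iff hw hj' hyz).2 ?_
          rw [cfg_succ l _ (by omega : j < M)]
          simpa [Pi.single_apply, Ne.symm hxz, Ne.symm hxy] using m3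
        have g4 : good r l (sw j (sw (j + 1) w)) := by
          refine (good_sw_iff g3 hj ?_).2 ?_
          · rw [e2, sw_fst hj']; exact hxz
          · rw [e2, sw_fst hj', c2]
            exact m2
        simp only [hw, hf, hf', g1, g2, g3, g4, if_true, true_and, sw_sw, and_true, sw_fst hj,
          sw_snd hj, sw_fst hj', sw_snd hj', e1, e2, c1, c2, c3]
        exact pf5
      · have hf' : ¬ good r l (sw (j + 1) (sw j (sw (j + 1) w))) := by rw [← hb]; exact hf
        simp only [hf, hf', and_false, if_false, mul_zero]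
    · simp only [hw, false_and, if_false, zero_mul]

theorem heckeRep_Pmat {r : ℕ} (hr : 0 < r) (l : Fin N → ℕ) (M : ℕ) :
    HeckeRep (q r) (M - 1) (Pmat N r l M) := by
  refine ⟨fun j hj => sq_Pmat hr l M (by omega), fun j k hjk hk => comm_Pmat l M hjk (by omega),
    fun j hj => braid_Pmat hr l M (by omega)⟩

end Pool.Agent.Helper15.RT
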