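import Mathlib
import Pool.Agent.Helper15.RT.Words
import Pool.Agent.Helper15.RT.Vertex

open Finset
open scoped Real

namespace Pool.Agent.Helper15.RT

/-- the free algebra on the generators `σ_0, σ_1, ...` -/
abbrev FA := FreeAlgebra ℂ ℕ

/-- the generator -/
noncomputable def X (j : ℕ) : FA := FreeAlgebra.ι ℂ j

/-- the elements involving only the first `m` generators -/
noncomputable def Bd (m : ℕ) : Subalgebra ℂ FA := Algebra.adjoin ℂ {x | ∃ j < m, x = X j}

/-- shift of the generators by `a` -/
noncomputable def shf (a : ℕ) : FA →ₐ[ℂ] FA := FreeAlgebra.lift ℂ fun j => X (a + j)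

theorem shf_X (a j : ℕ) : shf a (X j) = X (a + j) := by
  rw [shf, X, FreeAlgebra.lift_ι_apply]

theorem X_mem_Bd {m j : ℕ} (h : j < m) : X j ∈ Bd m :=
  Algebra.subset_adjoin ⟨j, h, rfl⟩

theorem Bd_mono {m m' : ℕ} (h : m ≤ m') : Bd m ≤ Bd m' :=
  Algebra.adjoin_mono fun _ ⟨j, hj, hx⟩ => ⟨j, by omega, hx⟩

theorem shf_mem_Bd {m a : ℕ} {z : FA} (hz : z ∈ Bd m) : shf a z ∈ Bd (a + m) := by
  refine Algebra.adjoin_induction (p := fun z _ => shf a z ∈ Bd (a + m)) ?_ ?_ ?_ ?_ hz
  · rintro x ⟨j, hj, rfl⟩
    rw [shf_X]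
    exact X_mem_Bd (by omega)
  · intro c
    rw [AlgHom.commutes]
    exact Subalgebra.algebraMap_mem _ _
  · intro x y _ _ hx hy
    rw [map_add]
    exact add_mem hx hy
  · intro x y _ _ hx hy
    rw [map_mul]
    exact mul_mem hx hy

variable {N M a b : ℕ}

theorem append_eq_iff {u u' : Fin a → Fin N} {v v' : Fin b → Fin N} :
    Fin.append u v = Fin.append u' v' ↔ u = u' ∧ v = v' := by
  have := (Fin.appendEquiv (α := Fin N) a b).injective.eq_iff (a := (u, v)) (b := (u', v'))
  simpa [Fin.appendEquiv, Prod.ext_iff] using this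

theorem append_fst (u : Fin a → Fin N) (v : Fin b → Fin N) {j : ℕ} (h : j < a)
    (h' : j < a + b) : Fin.append u v ⟨j, h'⟩ = u ⟨j, h⟩ :=
  Fin.append_left u v ⟨j, h⟩

theorem append_snd (u : Fin a → Fin N) (v : Fin b → Fin N) {j : ℕ} (h : j < b)
    (h' : a + j < a + b) : Fin.append u v ⟨a + j, h'⟩ = v ⟨j, h⟩ :=
  Fin.append_right u v ⟨j, h⟩

theorem cfg_append_left (l : Fin N → ℕ) (u : Fin a → Fin N) (v : Fin b → Fin N) {t : ℕ}
    (ht : t ≤ a) : cfg l (Fin.append u v) t = cfg l u t := by
  induction t with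
  | zero => rw [cfg_zero, cfg_zero]
  | succ t ih =>
    rw [cfg_succ l _ (by omega : t < a + b), cfg_succ l _ (by omega : t < a), ih (by omega),
      append_fst u v (by omega : t < a)]

theorem cfg_append_right (l : Fin N → ℕ) (u : Fin a → Fin N) (v : Fin b → Fin N) {t : ℕ}
    (ht : t ≤ b) : cfg l (Fin.append u v) (a + t) = cfg (cfg l u a) v t := by
  induction t with
  | zero => rw [add_zero, cfg_zero, cfg_append_left l u v le_rfl]
  | succ t ih =>
    rw [← add_assoc, cfg_succ l _ (by omega : a + t < a + b), cfg_succ _ _ (by omega : t < b),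
      ih (by omega), append_snd u v (by omega : t < b)]

theorem sw_append_left (u : Fin a → Fin N) (v : Fin b → Fin N) {j : ℕ} (h : j + 1 < a) :
    sw j (Fin.append u v) = Fin.append (sw j u) v := by
  have h' : j + 1 < a + b := by omega
  ext s
  refine Fin.addCases (fun s => ?_) (fun s => ?_) s
  · rw [Fin.append_left]
    by_cases h1 : (s : ℕ) = j
    · have e : sw j u s = sw j u ⟨j, by omega⟩ := congrArg _ (Fin.ext h1)
      have e' : Fin.castAdd b s = ⟨j, by omega⟩ := Fin.ext h1
      rw [e', e, sw_fst h', sw_fst h, append_fst u v h]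
    · by_cases h2 : (s : ℕ) = j + 1
      · have e : sw j u s = sw j u ⟨j + 1, h⟩ := congrArg _ (Fin.ext h2)
        have e' : Fin.castAdd b s = ⟨j + 1, h'⟩ := Fin.ext h2
        rw [e', e, sw_snd h', sw_snd h, append_fst u v (by omega)]
      · rw [sw_ne h' _ (by simpa using h1) (by simpa using h2), sw_ne h _ h1 h2, Fin.append_left]
  · rw [Fin.append_right, sw_ne h' _ (by simp; omega) (by simp; omega), Fin.append_right]

theorem sw_append_right (u : Fin a → Fin N) (v : Fin b → Fin N) {j : ℕ} (h : j + 1 < b) :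
    sw (a + j) (Fin.append u v) = Fin.append u (sw j v) := by
  have h' : a + j + 1 < a + b := by omega
  ext s
  refine Fin.addCases (fun s => ?_) (fun s => ?_) s
  · rw [Fin.append_left, sw_ne h' _ (by simp; omega) (by simp; omega), Fin.append_left]
  · rw [Fin.append_right]
    by_cases h1 : (s : ℕ) = j
    · have e : sw j v s = sw j v ⟨j, by omega⟩ := congrArg _ (Fin.ext h1)
      have e' : Fin.natAdd a s = ⟨a + j, by omega⟩ := Fin.ext (by simp [h1])
      rw [e', e, sw_fst h', sw_fst h]
      exact congrArg Fin.val (append_snd u v h (by omega : a + (j + 1) < a + b))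
    · by_cases h2 : (s : ℕ) = j + 1
      · have e : sw j v s = sw j v ⟨j + 1, h⟩ := congrArg _ (Fin.ext h2)
        have e' : Fin.natAdd a s = ⟨a + j + 1, h'⟩ := Fin.ext (by simp [h2]; ring)
        rw [e', e, sw_snd h', sw_snd h, append_snd u v (by omega)]
      · rw [sw_ne h' _ (by simpa using h1) (by simp; omega), sw_ne h _ h1 h2, Fin.append_right]

theorem sum_append {A : Type*} [AddCommMonoid A] (f : (Fin (a + b) → Fin N) → A) :
    ∑ w, f w = ∑ u, ∑ v, f (Fin.append u v) := by
  rw [← (Fin.appendEquiv (α := Fin N) a b).sum_comp, Fintype.sum_prod_type]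
  rfl

/-- local data of a representation on words -/
structure Model (N : ℕ) where
  ok : (Fin N → ℕ) → Prop
  t : ℂ
  α : (Fin N → ℕ) → Fin N → Fin N → ℂ
  β : (Fin N → ℕ) → Fin N → Fin N → ℂ
  β_self : ∀ c x, β c x x = 0

namespace Model

variable (m : Model N)

/-- all configurations of the word are admissible -/
def good (l : Fin N → ℕ) (w : Fin M → Fin N) : Prop := ∀ t ≤ M, m.ok (cfg l w t)

open scoped Classical in
/-- the generators -/
noncomputable def mat (l : Fin N → ℕ) (M j : ℕ) : Matrix (Fin M → Fin N) (Fin M → Fin N) ℂ :=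
  if h : j + 1 < M then
    two (fun w => if m.good l w then m.α (cfg l w j) (w ⟨j, by omega⟩) (w ⟨j + 1, h⟩) else m.t)
      (fun w => if m.good l w ∧ m.good l (sw j w) then
        m.β (cfg l w j) (w ⟨j, by omega⟩) (w ⟨j + 1, h⟩) else 0) (sw j)
  else 0

/-- the representation of the free algebra -/
noncomputable def rep (l : Fin N → ℕ) (M : ℕ) :
    FA →ₐ[ℂ] Matrix (Fin M → Fin N) (Fin M → Fin N) ℂ := FreeAlgebra.lift ℂ (m.mat l M)

theorem rep_X (l : Fin N → ℕ) (M j : ℕ) : m.rep l M (X j) = m.mat l M j := by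
  rw [rep, X, FreeAlgebra.lift_ι_apply]

theorem good_append {l : Fin N → ℕ} {u : Fin a → Fin N} {v : Fin b → Fin N} :
    m.good l (Fin.append u v) ↔ m.good l u ∧ m.good (cfg l u a) v := by
  constructor
  · intro h
    refine ⟨fun t ht => ?_, fun t ht => ?_⟩
    · rw [← cfg_append_left l u v ht]
      exact h t (by omega)
    · rw [← cfg_append_right l u v ht]
      exact h (a + t) (by omega)
  · rintro ⟨h1, h2⟩ t ht
    by_cases hta : t ≤ a
    · rw [cfg_append_left l u v hta]
      exact h1 t hta
    · obtain ⟨s, rfl⟩ := Nat.exists_eq_add_of_le (not_le.1 hta).le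
      rw [cfg_append_right l u v (by omega)]
      exact h2 s (by omega)

theorem mat_preserves {l : Fin N → ℕ} {j : ℕ} {w w' : Fin M → Fin N}
    (h : m.mat l M j w w' ≠ 0) : (m.good l w ↔ m.good l w') ∧ cfg l w M = cfg l w' M := by
  classical
  rw [mat] at h
  split_ifs at h with hj
  · simp only [two] at h
    by_cases e : w' = w
    · subst e; exact ⟨Iff.rfl, rfl⟩
    · rw [if_neg e, zero_add] at h
      by_cases e' : w' = sw j w
      · rw [if_pos e'] at h
        by_cases hg : m.good l w ∧ m.good l (sw j w)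
        · subst e'
          exact ⟨iff_of_true hg.1 hg.2, (cfg_sw_of_ge l w hj (by omega)).symm⟩
        · rw [if_neg hg] at h
          exact absurd rfl h
      · rw [if_neg e'] at h
        exact absurd rfl h
  · exact absurd rfl h

theorem rep_preserves (l : Fin N → ℕ) (z : FA) : ∀ w w' : Fin M → Fin N,
    m.rep l M z w w' ≠ 0 → (m.good l w ↔ m.good l w') ∧ cfg l w M = cfg l w' M := by
  induction z using FreeAlgebra.induction with
  | grade0 c =>
    intro w w' h
    rw [AlgHom.commutes, Matrix.algebraMap_matrix_apply] at h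
    by_cases e : w = w'
    · subst e; exact ⟨Iff.rfl, rfl⟩
    · rw [if_neg e] at h; exact absurd rfl h
  | grade1 j =>
    intro w w' h
    exact m.mat_preserves (by rw [← rep_X]; exact h)
  | mul x y hx hy =>
    intro w w' h
    rw [map_mul, Matrix.mul_apply] at h
    obtain ⟨w'', -, h2⟩ := Finset.exists_ne_zero_of_sum_ne_zero h
    have h3 := hx w w'' (left_ne_zero_of_mul h2)
    have h4 := hy w'' w' (right_ne_zero_of_mul h2)
    exact ⟨h3.1.trans h4.1, h3.2.trans h4.2⟩
  | add x y hx hy =>
    intro w w' h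
    rw [map_add, Matrix.add_apply] at h
    by_cases h1 : m.rep l M x w w' = 0
    · rw [h1, zero_add] at h
      exact hy w w' h
    · exact hx w w' h1

theorem mat_append_left {l : Fin N → ℕ} {u : Fin a → Fin N} {v : Fin b → Fin N}
    (hg : m.good l (Fin.append u v)) {j : ℕ} (hj : j + 1 < a) (u' : Fin a → Fin N)
    (v' : Fin b → Fin N) :
    m.mat l (a + b) j (Fin.append u v) (Fin.append u' v') =
      m.mat l a j u u' * (if v = v' then 1 else 0) := by
  classical
  have hj' : j + 1 < a + b := by omega
  obtain ⟨h1, h2⟩ := m.good_append.1 hg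
  rw [mat, dif_pos hj', mat, dif_pos hj]
  simp only [two]
  simp only [sw_append_left u v hj, append_eq_iff, if_pos hg, if_pos h1,
    cfg_append_left l u v (by omega : j ≤ a)]
  rw [append_fst u v (by omega : j < a), append_fst u v (by omega : j + 1 < a)]
  have h3 : m.good l (Fin.append (sw j u) v) ↔ m.good l (sw j u) := by
    rw [m.good_append, cfg_sw_of_ge l u hj (by omega)]
    exact and_iff_left h2
  simp only [hg, h1, h3, true_and]
  by_cases e : v = v'
  · subst e
    simp
  · simp [e, Ne.symm e]

theorem mat_append_right {l : Fin N → ℕ} {u : Fin a → Fin N} {v : Fin b → Fin N}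
    (hg : m.good l (Fin.append u v)) (j : ℕ) (u' : Fin a → Fin N)
    (v' : Fin b → Fin N) :
    m.mat l (a + b) (a + j) (Fin.append u v) (Fin.append u' v') =
      (if u = u' then 1 else 0) * m.mat (cfg l u a) b j v v' := by
  classical
  obtain ⟨h1, h2⟩ := m.good_append.1 hg
  by_cases hj : j + 1 < b
  · have hj' : a + j + 1 < a + b := by omega
    rw [mat, dif_pos hj', mat, dif_pos hj]
    simp only [two]
    simp only [sw_append_right u v hj, append_eq_iff, if_pos hg, if_pos h2,
      cfg_append_right l u v (by omega : j ≤ b)]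
    rw [append_snd u v (by omega : j < b)]
    have e1 : Fin.append u v ⟨a + j + 1, hj'⟩ = v ⟨j + 1, hj⟩ := append_snd u v hj _
    have h3 : m.good l (Fin.append u (sw j v)) ↔ m.good (cfg l u a) (sw j v) := by
      rw [m.good_append]
      exact and_iff_right h1
    simp only [hg, h2, h3, true_and, e1]
    by_cases e : u = u'
    · subst e
      simp
    · simp [e, Ne.symm e]
  · rw [mat, dif_neg (by omega), mat, dif_neg hj]
    simp

theorem rep_append_left {l : Fin N → ℕ} {z : FA} (hz : z ∈ Bd (a - 1)) :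
    ∀ (u u' : Fin a → Fin N) (v v' : Fin b → Fin N), m.good l (Fin.append u v) →
    m.rep l (a + b) z (Fin.append u v) (Fin.append u' v') =
      m.rep l a z u u' * (if v = v' then 1 else 0) := by
  refine Algebra.adjoin_induction (p := fun z _ =>
    ∀ (u u' : Fin a → Fin N) (v v' : Fin b → Fin N), m.good l (Fin.append u v) →
    m.rep l (a + b) z (Fin.append u v) (Fin.append u' v') =
      m.rep l a z u u' * (if v = v' then 1 else 0)) ?_ ?_ ?_ ?_ hz
  · rintro x ⟨j, hj, rfl⟩ u u' v v' hg
    rw [rep_X, rep_X, m.mat_append_left hg (by omega)]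
  · intro c u u' v v' hg
    rw [AlgHom.commutes, AlgHom.commutes, Matrix.algebraMap_matrix_apply,
      Matrix.algebraMap_matrix_apply]
    by_cases e1 : u = u' <;> by_cases e2 : v = v' <;> simp [append_eq_iff, e1, e2]
  · intro x y _ _ hx hy u u' v v' hg
    rw [map_add, map_add, Matrix.add_apply, Matrix.add_apply, hx u u' v v' hg, hy u u' v v' hg,
      add_mul]
  · intro x y _ _ hx hy u u' v v' hg
    rw [map_mul, map_mul, Matrix.mul_apply, Matrix.mul_apply,
      ← (Fin.appendEquiv (α := Fin N) a b).sum_comp, Fintype.sum_prod_type, Finset.sum_mul]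
    refine Finset.sum_congr rfl fun u'' _ => ?_
    simp only [Fin.appendEquiv, Equiv.coe_fn_mk]
    have h1 : ∀ v'' : Fin b → Fin N, m.rep l (a + b) x (Fin.append u v) (Fin.append u'' v'') =
      m.rep l a x u u'' * (if v = v'' then 1 else 0) := fun v'' => hx u u'' v v'' hg
    simp only [h1, mul_ite, mul_one, mul_zero, ite_mul, zero_mul, Finset.sum_ite_eq,
      Finset.mem_univ, if_true]
    by_cases h0 : m.rep l a x u u'' = 0
    · rw [h0, zero_mul, zero_mul]; simp
    · have hp := m.rep_preserves l x u u'' h0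
      obtain ⟨g1, g2⟩ := m.good_append.1 hg
      have hg' : m.good l (Fin.append u'' v) :=
        m.good_append.2 ⟨hp.1.1 g1, by rw [← hp.2]; exact g2⟩
      rw [hy u'' u' v v' hg']
      by_cases e : v = v'
      · simp [e]
      · simp [e]

theorem rep_append_right {l : Fin N → ℕ} (z : FA) :
    ∀ (u u' : Fin a → Fin N) (v v' : Fin b → Fin N), m.good l (Fin.append u v) →
    m.rep l (a + b) (shf a z) (Fin.append u v) (Fin.append u' v') =
      (if u = u' then 1 else 0) * m.rep (cfg l u a) b z v v' := by
  induction z using FreeAlgebra.induction with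
  | grade0 c =>
    intro u u' v v' hg
    rw [AlgHom.commutes, AlgHom.commutes, AlgHom.commutes, Matrix.algebraMap_matrix_apply,
      Matrix.algebraMap_matrix_apply]
    by_cases e1 : u = u' <;> by_cases e2 : v = v' <;> simp [append_eq_iff, e1, e2]
  | grade1 j =>
    intro u u' v v' hg
    rw [← X, shf_X, rep_X, rep_X, m.mat_append_right hg]
  | mul x y hx hy =>
    intro u u' v v' hg
    rw [map_mul, map_mul, map_mul, Matrix.mul_apply, Matrix.mul_apply,
      ← (Fin.appendEquiv (α := Fin N) a b).sum_comp, Fintype.sum_prod_type_right, Finset.mul_sum]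
    refine Finset.sum_congr rfl fun v'' _ => ?_
    simp only [Fin.appendEquiv, Equiv.coe_fn_mk]
    have h1 : ∀ u'' : Fin a → Fin N,
      m.rep l (a + b) (shf a x) (Fin.append u v) (Fin.append u'' v'') =
      (if u = u'' then 1 else 0) * m.rep (cfg l u a) b x v v'' := fun u'' => hx u u'' v v'' hg
    simp only [h1, ite_mul, one_mul, zero_mul, Finset.sum_ite_eq,
      Finset.mem_univ, if_true]
    by_cases h0 : m.rep (cfg l u a) b x v v'' = 0
    · rw [h0, zero_mul, zero_mul]; simp
    · have hp := m.rep_preserves _ x v v'' h0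
      obtain ⟨g1, g2⟩ := m.good_append.1 hg
      have hg' : m.good l (Fin.append u v'') := m.good_append.2 ⟨g1, hp.1.1 g2⟩
      rw [hy u u' v'' v' hg']
      by_cases e : u = u'
      · simp [e]
      · simp [e]
  | add x y hx hy =>
    intro u u' v v' hg
    rw [map_add, map_add, map_add, Matrix.add_apply, Matrix.add_apply, hx u u' v v' hg,
      hy u u' v v' hg, mul_add]

open scoped Classical in
/-- the weighted trace over the good words -/
noncomputable def tau (g : (Fin N → ℕ) → ℂ) (l : Fin N → ℕ) (M : ℕ) (z : FA) : ℂ :=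
  ∑ w : Fin M → Fin N, if m.good l w then g (cfg l w M) * m.rep l M z w w else 0

theorem tau_add (g : (Fin N → ℕ) → ℂ) (l : Fin N → ℕ) (M : ℕ) (x y : FA) :
    m.tau g l M (x + y) = m.tau g l M x + m.tau g l M y := by
  rw [tau, tau, tau, ← Finset.sum_add_distrib]
  refine Finset.sum_congr rfl fun w _ => ?_
  split_ifs
  · rw [map_add, Matrix.add_apply, mul_add]
  · rw [add_zero]

theorem tau_smul (g : (Fin N → ℕ) → ℂ) (l : Fin N → ℕ) (M : ℕ) (c : ℂ) (x : FA) :
    m.tau g l M (c • x) = c * m.tau g l M x := by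
  rw [tau, tau, Finset.mul_sum]
  refine Finset.sum_congr rfl fun w _ => ?_
  split_ifs
  · rw [map_smul, Matrix.smul_apply, smul_eq_mul]; ring
  · rw [mul_zero]

theorem tau_mul_comm (g : (Fin N → ℕ) → ℂ) (l : Fin N → ℕ) (M : ℕ) (x y : FA) :
    m.tau g l M (x * y) = m.tau g l M (y * x) := by
  classical
  have h1 : ∀ x y : FA, m.tau g l M (x * y) = ∑ w : Fin M → Fin N, ∑ w' : Fin M → Fin N,
      if m.good l w ∧ m.good l w' then
        g (cfg l w M) * (m.rep l M x w w' * m.rep l M y w' w) else 0 := by
    intro x y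
    rw [tau]
    refine Finset.sum_congr rfl fun w _ => ?_
    by_cases hw : m.good l w
    · rw [if_pos hw, map_mul, Matrix.mul_apply, Finset.mul_sum]
      refine Finset.sum_congr rfl fun w' _ => ?_
      by_cases hw' : m.good l w'
      · rw [if_pos ⟨hw, hw'⟩]
      · rw [if_neg (fun h => hw' h.2)]
        by_cases h0 : m.rep l M x w w' = 0
        · rw [h0, zero_mul, mul_zero]
        · exact absurd ((m.rep_preserves l x w w' h0).1.1 hw) hw'
    · rw [if_neg hw]
      symm
      refine Finset.sum_eq_zero fun w' _ => ?_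
      rw [if_neg (fun h => hw h.1)]
  rw [h1, h1, Finset.sum_comm]
  refine Finset.sum_congr rfl fun w _ => Finset.sum_congr rfl fun w' _ => ?_
  by_cases h0 : m.rep l M x w' w = 0
  · rw [h0]; simp
  · have h2 := (m.rep_preserves l x w' w h0).2
    rw [h2]
    simp only [and_comm, mul_comm]

/-- segment lemma -/
theorem tau_segment (g : (Fin N → ℕ) → ℂ) (l : Fin N → ℕ) (a b : ℕ) {p : FA}
    (hp : p ∈ Bd (a - 1)) (z : FA) :
    m.tau g l (a + b) (p * shf a z) = m.tau (fun l' => m.tau g l' b z) l a p := by
  classical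
  rw [tau, sum_append, tau]
  refine Finset.sum_congr rfl fun u _ => ?_
  by_cases hu : m.good l u
  · rw [if_pos hu, tau, Finset.sum_mul]
    refine Finset.sum_congr rfl fun v _ => ?_
    by_cases hv : m.good (cfg l u a) v
    · have hg : m.good l (Fin.append u v) := m.good_append.2 ⟨hu, hv⟩
      rw [if_pos hg, if_pos hv, cfg_append_right l u v le_rfl, map_mul, Matrix.mul_apply,
        sum_append]
      have h1 : ∀ u' v', m.rep l (a + b) p (Fin.append u v) (Fin.append u' v') =
        m.rep l a p u u' * (if v = v' then 1 else 0) := fun u' v' =>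
          m.rep_append_left hp u u' v v' hg
      simp only [h1, mul_ite, mul_one, mul_zero, ite_mul, zero_mul, Finset.sum_ite_eq,
        Finset.mem_univ, if_true]
      rw [Finset.sum_eq_single u]
      · rw [m.rep_append_right z u u v v hg, if_pos rfl, one_mul]
        ring
      · intro u' _ hne
        by_cases h0 : m.rep l a p u u' = 0
        · rw [h0, zero_mul]
        · have hpr := m.rep_preserves l p u u' h0
          have hg' : m.good l (Fin.append u' v) :=
            m.good_append.2 ⟨hpr.1.1 hu, by rw [← hpr.2]; exact hv⟩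
          rw [m.rep_append_right z u' u v v hg', if_neg hne, zero_mul, mul_zero]
      · intro h; exact absurd (Finset.mem_univ _) h
    · rw [if_neg hv, if_neg (fun h => hv (m.good_append.1 h).2), zero_mul]
  · rw [if_neg hu]
    refine Finset.sum_eq_zero fun v _ => ?_
    rw [if_neg (fun h => hu (m.good_append.1 h).1)]

end Model

end Pool.Agent.Helper15.RT
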