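import Mathlib
import Pool.Agent.Helper15.RT.Model

open Finset
open scoped Real

namespace Pool.Agent.Helper15.RT

section NormalForm

variable {A : Type*} [Ring A] [Algebra ℂ A]

/-- the algebra generated by the first `m` generators -/
def Am (s : ℕ → A) (m : ℕ) : Subalgebra ℂ A := Algebra.adjoin ℂ {x | ∃ j < m, x = s j}

/-- `A_m + A_m s_m A_m` -/
def Wm (s : ℕ → A) (m : ℕ) : Submodule ℂ A :=
  Subalgebra.toSubmodule (Am s m) ⊔
    Submodule.span ℂ {x | ∃ b ∈ Am s m, ∃ c ∈ Am s m, x = b * s m * c}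

theorem Am_mono (s : ℕ → A) {m m' : ℕ} (h : m ≤ m') : Am s m ≤ Am s m' :=
  Algebra.adjoin_mono fun _ ⟨j, hj, hx⟩ => ⟨j, by omega, hx⟩

theorem s_mem_Am (s : ℕ → A) {j m : ℕ} (h : j < m) : s j ∈ Am s m :=
  Algebra.subset_adjoin ⟨j, h, rfl⟩

theorem Am_comm {t : ℂ} {M m : ℕ} {s : ℕ → A} (hs : HeckeRep t M s) (hm : m + 1 < M) {b : A}
    (hb : b ∈ Am s m) : s (m + 1) * b = b * s (m + 1) := by
  refine Algebra.adjoin_induction (p := fun b _ => s (m + 1) * b = b * s (m + 1)) ?_ ?_ ?_ ?_ hb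
  · rintro x ⟨j, hj, rfl⟩
    exact (hs.comm j (m + 1) (by omega) hm).symm
  · intro c
    exact (Algebra.commutes c _).symm
  · intro x y _ _ hx hy
    rw [mul_add, add_mul, hx, hy]
  · intro x y _ _ hx hy
    rw [← mul_assoc, hx, mul_assoc, hy, mul_assoc]

theorem Wm_of_Am {s : ℕ → A} {m : ℕ} {a : A} (ha : a ∈ Am s m) : a ∈ Wm s m :=
  Submodule.mem_sup_left ha

theorem Wm_of_mul {s : ℕ → A} {m : ℕ} {b c : A} (hb : b ∈ Am s m) (hc : c ∈ Am s m) :
    b * s m * c ∈ Wm s m :=
  Submodule.mem_sup_right (Submodule.subset_span ⟨b, hb, c, hc, rfl⟩)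

theorem Wm_induction {s : ℕ → A} {m : ℕ} {p : A → Prop} (h1 : ∀ a ∈ Am s m, p a)
    (h2 : ∀ b ∈ Am s m, ∀ c ∈ Am s m, p (b * s m * c)) (h3 : ∀ x y, p x → p y → p (x + y))
    (h4 : ∀ (c : ℂ) x, p x → p (c • x)) {x : A} (hx : x ∈ Wm s m) : p x := by
  obtain ⟨y, hy, z, hz, rfl⟩ := Submodule.mem_sup.1 hx
  apply h3
  · exact h1 y hy
  · refine Submodule.span_induction (p := fun z _ => p z) ?_ ?_ ?_ ?_ hz
    · rintro x ⟨b, hb, c, hc, rfl⟩
      exact h2 b hb c hc
    · exact h1 0 (zero_mem _)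
    · intro x y _ _ hx hy
      exact h3 x y hx hy
    · intro c x _ hx
      exact h4 c x hx

theorem Wm_right {s : ℕ → A} {m : ℕ} {x c : A} (hx : x ∈ Wm s m) (hc : c ∈ Am s m) :
    x * c ∈ Wm s m := by
  refine Wm_induction (p := fun x => x * c ∈ Wm s m) ?_ ?_ ?_ ?_ hx
  · intro a ha
    exact Wm_of_Am (mul_mem ha hc)
  · intro b hb c' hc'
    rw [mul_assoc]
    exact Wm_of_mul hb (mul_mem hc' hc)
  · intro x y hx hy
    rw [add_mul]
    exact add_mem hx hy
  · intro d x hx
    rw [smul_mul_assoc]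
    exact Submodule.smul_mem _ _ hx

theorem Wm_left {s : ℕ → A} {m : ℕ} {x b : A} (hx : x ∈ Wm s m) (hb : b ∈ Am s m) :
    b * x ∈ Wm s m := by
  refine Wm_induction (p := fun x => b * x ∈ Wm s m) ?_ ?_ ?_ ?_ hx
  · intro a ha
    exact Wm_of_Am (mul_mem hb ha)
  · intro b' hb' c' hc'
    rw [← mul_assoc, ← mul_assoc]
    exact Wm_of_mul (mul_mem hb hb') hc'
  · intro x y hx hy
    rw [mul_add]
    exact add_mem hx hy
  · intro d x hx
    rw [mul_smul_comm]
    exact Submodule.smul_mem _ _ hx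

theorem Wm_of_left_closed {s : ℕ → A} {m : ℕ}
    (h : ∀ b ∈ Am s m, s m * b * s m ∈ Wm s m) {x : A} (hx : x ∈ Am s (m + 1)) :
    x ∈ Wm s m := by
  have key : ∀ x ∈ Am s (m + 1), ∀ y ∈ Wm s m, x * y ∈ Wm s m := by
    intro x hx
    refine Algebra.adjoin_induction (p := fun x _ => ∀ y ∈ Wm s m, x * y ∈ Wm s m) ?_ ?_ ?_ ?_ hx
    · rintro x ⟨j, hj, rfl⟩ y hy
      by_cases hjm : j = m
      · subst hjm
        refine Wm_induction (p := fun y => s j * y ∈ Wm s j) ?_ ?_ ?_ ?_ hy
        · intro a ha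
          have := Wm_of_mul (one_mem (Am s j)) ha
          rwa [one_mul] at this
        · intro b hb c hc
          rw [← mul_assoc, ← mul_assoc]
          exact Wm_right (h b hb) hc
        · intro x y hx hy
          rw [mul_add]
          exact add_mem hx hy
        · intro d x hx
          rw [mul_smul_comm]
          exact Submodule.smul_mem _ _ hx
      · exact Wm_left hy (s_mem_Am s (by omega))
    · intro c y hy
      rw [← Algebra.smul_def]
      exact Submodule.smul_mem _ _ hy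
    · intro x x' _ _ hx hx' y hy
      rw [add_mul]
      exact add_mem (hx y hy) (hx' y hy)
    · intro x x' _ _ hx hx' y hy
      rw [mul_assoc]
      exact hx _ (hx' y hy)
  have := key x hx 1 (Wm_of_Am (one_mem _))
  rwa [mul_one] at this

theorem Wm_all {t : ℂ} {M : ℕ} {s : ℕ → A} (hs : HeckeRep t M s) : ∀ m < M,
    ∀ b ∈ Am s m, s m * b * s m ∈ Wm s m := by
  intro m
  induction m with
  | zero =>
    intro hm b hb
    have hb' : b ∈ (⊥ : Subalgebra ℂ A) := by
      have h0 : {x : A | ∃ j < 0, x = s j} = ∅ := by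
        ext x; simp
      rwa [Am, h0, Algebra.adjoin_empty] at hb
    obtain ⟨c, rfl⟩ := Algebra.mem_bot.1 hb'
    rw [← Algebra.commutes, mul_assoc, hs.sq 0 hm, ← Algebra.smul_def, smul_add]
    refine add_mem (Submodule.smul_mem _ _ (Submodule.smul_mem _ _ ?_))
      (Submodule.smul_mem _ _ (Wm_of_Am (one_mem _)))
    have := Wm_of_mul (s := s) (one_mem (Am s 0)) (one_mem (Am s 0))
    rwa [one_mul, mul_one] at this
  | succ m ih =>
    intro hm b hb
    have hb' := Wm_of_left_closed (ih (by omega)) hb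
    refine Wm_induction (p := fun b => s (m + 1) * b * s (m + 1) ∈ Wm s (m + 1)) ?_ ?_ ?_ ?_ hb'
    · intro a ha
      rw [Am_comm hs hm ha, mul_assoc, hs.sq _ hm, mul_add, mul_smul_comm, mul_one]
      refine add_mem (Submodule.smul_mem _ _ ?_) (Wm_of_Am (Am_mono s (Nat.le_succ m) ha))
      have := Wm_of_mul (s := s) (m := m + 1) (Am_mono s (Nat.le_succ m) ha)
        (one_mem (Am s (m + 1)))
      rwa [mul_one] at this
    · intro b hb c hc
      have e : s (m + 1) * (b * s m * c) * s (m + 1) =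
          (b * s m) * s (m + 1) * (s m * c) := by
        calc s (m + 1) * (b * s m * c) * s (m + 1)
            = (s (m + 1) * b) * s m * (c * s (m + 1)) := by simp only [mul_assoc]
          _ = (b * s (m + 1)) * s m * (s (m + 1) * c) := by
              rw [Am_comm hs hm hb, ← Am_comm hs hm hc]
          _ = b * (s (m + 1) * s m * s (m + 1)) * c := by simp only [mul_assoc]
          _ = b * (s m * s (m + 1) * s m) * c := by rw [hs.braid m hm]
          _ = (b * s m) * s (m + 1) * (s m * c) := by simp only [mul_assoc]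
      rw [e]
      exact Wm_of_mul (mul_mem (Am_mono s (Nat.le_succ m) hb) (s_mem_Am s (Nat.lt_succ_self m)))
        (mul_mem (s_mem_Am s (Nat.lt_succ_self m)) (Am_mono s (Nat.le_succ m) hc))
    · intro x y hx hy
      rw [mul_add, add_mul]
      exact add_mem hx hy
    · intro d x hx
      rw [mul_smul_comm, smul_mul_assoc]
      exact Submodule.smul_mem _ _ hx

theorem normal_form {t : ℂ} {M : ℕ} {s : ℕ → A} (hs : HeckeRep t M s) {m : ℕ} (hm : m < M)
    {x : A} (hx : x ∈ Am s (m + 1)) : x ∈ Wm s m :=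
  Wm_of_left_closed (Wm_all hs m hm) hx

end NormalForm

namespace Model

variable {N : ℕ} (m : Model N)

open scoped Classical in
/-- the Markov properties -/
structure Markov (m : Model N) (g : (Fin N → ℕ) → ℂ) (R : (Fin N → ℕ) → Prop) (δ κ : ℂ) :
    Prop where
  ok : ∀ c, R c → m.ok c
  step : ∀ c x, R c → m.ok (c + Pi.single x 1) → R (c + Pi.single x 1)
  one : ∀ c, R c → ∑ x, (if m.ok (c + Pi.single x 1) then g (c + Pi.single x 1) else 0) = δ * g c
  two : ∀ c x, R c → R (c + Pi.single x 1) →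
    ∑ y, (if m.ok (c + Pi.single x 1 + Pi.single y 1) then
      g (c + Pi.single x 1 + Pi.single y 1) * m.α c x y else 0) = κ * g (c + Pi.single x 1)

variable {m} {g : (Fin N → ℕ) → ℂ} {R : (Fin N → ℕ) → Prop} {δ κ : ℂ}

theorem reach (hstep : ∀ c x, R c → m.ok (c + Pi.single x 1) → R (c + Pi.single x 1))
    {l : Fin N → ℕ} (hl : R l) {M : ℕ} {w : Fin M → Fin N} (hw : m.good l w) {t : ℕ}
    (ht : t ≤ M) : R (cfg l w t) := by
  induction t with
  | zero => rwa [cfg_zero]
  | succ t ih =>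
    have h1 := hw (t + 1) ht
    rw [cfg_succ l w (by omega : t < M)] at h1 ⊢
    exact hstep _ _ (ih (by omega)) h1

/-- words of length one -/
theorem sum_fin_one {B : Type*} [AddCommMonoid B] (f : (Fin 1 → Fin N) → B) :
    ∑ v, f v = ∑ x : Fin N, f (fun _ => x) := by
  rw [← (Equiv.funUnique (Fin 1) (Fin N)).symm.sum_comp]
  rfl

theorem cfg_one (c : Fin N → ℕ) (x : Fin N) : cfg c (fun _ : Fin 1 => x) 1 = c + Pi.single x 1 := by
  have := cfg_succ c (fun _ : Fin 1 => x) (t := 0) (by omega)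
  rw [cfg_zero] at this
  exact this

theorem good_one {c : Fin N → ℕ} {x : Fin N} :
    m.good c (fun _ : Fin 1 => x) ↔ m.ok c ∧ m.ok (c + Pi.single x 1) := by
  constructor
  · intro h
    refine ⟨?_, ?_⟩
    · have := h 0 (by omega); rwa [cfg_zero] at this
    · have := h 1 le_rfl; rwa [cfg_one] at this
  · rintro ⟨h0, h1⟩ t ht
    interval_cases t
    · rwa [cfg_zero]
    · rwa [cfg_one]

theorem tau_congr {g g' : (Fin N → ℕ) → ℂ} {l : Fin N → ℕ} {M : ℕ} {z : FA}
    (h : ∀ w : Fin M → Fin N, m.good l w → g (cfg l w M) = g' (cfg l w M)) :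
    m.tau g l M z = m.tau g' l M z := by
  classical
  rw [tau, tau]
  refine Finset.sum_congr rfl fun w _ => ?_
  by_cases hw : m.good l w
  · rw [if_pos hw, if_pos hw, h w hw]
  · rw [if_neg hw, if_neg hw]

theorem tau_mul_left (d : ℂ) (g : (Fin N → ℕ) → ℂ) (l : Fin N → ℕ) (M : ℕ) (z : FA) :
    m.tau (fun c => d * g c) l M z = d * m.tau g l M z := by
  classical
  rw [tau, tau, Finset.mul_sum]
  refine Finset.sum_congr rfl fun w _ => ?_
  by_cases hw : m.good l w
  · rw [if_pos hw, if_pos hw]; ring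
  · rw [if_neg hw, if_neg hw, mul_zero]

theorem Markov.tau_one (hm : m.Markov g R δ κ) {l : Fin N → ℕ} (hl : R l) {M : ℕ} {z : FA}
    (hz : z ∈ Bd (M - 1)) : m.tau g l (M + 1) z = δ * m.tau g l M z := by
  classical
  have h := m.tau_segment g l M 1 hz 1
  rw [map_one, mul_one] at h
  rw [h, ← tau_mul_left]
  apply tau_congr
  intro w hw
  have hR : R (cfg l w M) := reach hm.step hl hw le_rfl
  generalize cfg l w M = c at hR ⊢
  rw [← hm.one c hR, tau, sum_fin_one]
  refine Finset.sum_congr rfl fun x _ => ?_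
  simp only [good_one, hm.ok c hR, true_and, cfg_one, map_one, Matrix.one_apply_eq, mul_one]

theorem Markov.tau_two (hm : m.Markov g R δ κ) {l : Fin N → ℕ} (hl : R l) {M : ℕ} {z : FA}
    (hz : z ∈ Bd M) : m.tau g l (M + 1 + 1) (z * X M) = κ * m.tau g l (M + 1) z := by
  classical
  rw [tau, sum_append, tau, Finset.mul_sum]
  refine Finset.sum_congr rfl fun u _ => ?_
  by_cases hu : m.good l u
  · rw [if_pos hu, sum_fin_one]
    have hM : M < M + 1 := by omega
    have hR : R (cfg l u M) := reach hm.step hl hu (by omega)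
    have hR' : R (cfg l u (M + 1)) := reach hm.step hl hu le_rfl
    have hc : cfg l u (M + 1) = cfg l u M + Pi.single (u ⟨M, hM⟩) 1 := cfg_succ l u hM
    have h2 := hm.two (cfg l u M) (u ⟨M, hM⟩) hR (by rw [← hc]; exact hR')
    rw [← hc] at h2
    rw [← mul_assoc, ← h2, Finset.sum_mul]
    refine Finset.sum_congr rfl fun x _ => ?_
    set v : Fin 1 → Fin N := fun _ => x with hv
    by_cases hx : m.ok (cfg l u (M + 1) + Pi.single x 1)
    · have hgv : m.good (cfg l u (M + 1)) v := good_one.2 ⟨hm.ok _ hR', hx⟩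
      have hg : m.good l (Fin.append u v) := m.good_append.2 ⟨hu, hgv⟩
      rw [if_pos hg, if_pos hx]
      have hcv : cfg l (Fin.append u v) (M + 1 + 1) = cfg l u (M + 1) + Pi.single x 1 := by
        rw [cfg_append_right l u v le_rfl, cfg_one]
      rw [hcv, mul_assoc]
      congr 1
      rw [map_mul, Matrix.mul_apply, sum_append]
      have h1 : ∀ u' v', m.rep l (M + 1 + 1) z (Fin.append u v) (Fin.append u' v') =
        m.rep l (M + 1) z u u' * (if v = v' then 1 else 0) := fun u' v' =>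
          m.rep_append_left (by simpa using hz) u u' v v' hg
      simp only [h1, mul_ite, mul_one, mul_zero, ite_mul, zero_mul, Finset.sum_ite_eq,
        Finset.mem_univ, if_true, rep_X]
      have hb : M + 1 < M + 1 + 1 := by omega
      have f1 : ∀ u' : Fin (M + 1) → Fin N, Fin.append u' v ⟨M, by omega⟩ = u' ⟨M, hM⟩ :=
        fun u' => append_fst u' v hM _
      have f2 : ∀ u' : Fin (M + 1) → Fin N, Fin.append u' v ⟨M + 1, hb⟩ = x :=
        fun u' => append_snd u' v (j := 0) (by omega) _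
      rw [Finset.sum_eq_single u]
      · rw [mat, dif_pos hb]
        simp only [RT.two, if_true, if_pos hg, f1, f2, cfg_append_left l u v (Nat.le_succ M)]
        by_cases e : u ⟨M, hM⟩ = x
        · simp [e, m.β_self, mul_comm]
        · have hne : ¬ Fin.append u v = sw M (Fin.append u v) := by
            intro h3
            apply e
            have := congrFun h3 ⟨M, by omega⟩
            rwa [sw_fst hb, f1, f2] at this
          rw [if_neg hne, add_zero, mul_comm]
      · intro u' _ hne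
        have h4 : m.mat l (M + 1 + 1) M (Fin.append u' v) (Fin.append u v) = 0 := by
          rw [mat, dif_pos hb]
          simp only [RT.two]
          have e1 : ¬ Fin.append u v = Fin.append u' v := fun h => hne (append_eq_iff.1 h).1.symm
          have e2 : ¬ Fin.append u v = sw M (Fin.append u' v) := by
            intro h
            have h5 := congrFun h ⟨M + 1, hb⟩
            rw [sw_snd hb, f1, f2] at h5
            have h6 : Fin.append u' v ⟨M, by omega⟩ = Fin.append u' v ⟨M + 1, hb⟩ := by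
              rw [f1, f2, h5]
            rw [sw_self hb h6] at h
            exact e1 h
          rw [if_neg e1, if_neg e2, add_zero]
        rw [h4, mul_zero]
      · intro h; exact absurd (Finset.mem_univ _) h
    · rw [if_neg hx, if_neg, zero_mul]
      intro h
      exact hx (good_one.1 (m.good_append.1 h).2).2
  · rw [if_neg hu, mul_zero]
    refine Finset.sum_eq_zero fun v _ => ?_
    rw [if_neg (fun h => hu (m.good_append.1 h).1)]

open scoped Classical in
/-- the weighted trace as a function of the matrix -/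
noncomputable def lin (m : Model N) (g : (Fin N → ℕ) → ℂ) (l : Fin N → ℕ) (M : ℕ)
    (Y : Matrix (Fin M → Fin N) (Fin M → Fin N) ℂ) : ℂ :=
  ∑ w : Fin M → Fin N, if m.good l w then g (cfg l w M) * Y w w else 0

theorem lin_rep (g : (Fin N → ℕ) → ℂ) (l : Fin N → ℕ) (M : ℕ) (z : FA) :
    m.lin g l M (m.rep l M z) = m.tau g l M z := rfl

theorem lin_add (g : (Fin N → ℕ) → ℂ) (l : Fin N → ℕ) (M : ℕ)
    (Y Y' : Matrix (Fin M → Fin N) (Fin M → Fin N) ℂ) :
    m.lin g l M (Y + Y') = m.lin g l M Y + m.lin g l M Y' := by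
  rw [lin, lin, lin, ← Finset.sum_add_distrib]
  refine Finset.sum_congr rfl fun w _ => ?_
  split_ifs
  · rw [Matrix.add_apply, mul_add]
  · rw [add_zero]

theorem lin_smul (g : (Fin N → ℕ) → ℂ) (l : Fin N → ℕ) (M : ℕ) (c : ℂ)
    (Y : Matrix (Fin M → Fin N) (Fin M → Fin N) ℂ) :
    m.lin g l M (c • Y) = c * m.lin g l M Y := by
  rw [lin, lin, Finset.mul_sum]
  refine Finset.sum_congr rfl fun w _ => ?_
  split_ifs
  · rw [Matrix.smul_apply, smul_eq_mul]; ring
  · rw [mul_zero]

theorem mat_eq_zero (l : Fin N → ℕ) {M j : ℕ} (h : M ≤ j + 1) : m.mat l M j = 0 := by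
  rw [mat, dif_neg (by omega)]

end Model

variable {N : ℕ}

theorem mem_Am_of_zero {A : Type*} [Ring A] [Algebra ℂ A] (φ : FA →ₐ[ℂ] A) {K : ℕ}
    (h : ∀ j, K ≤ j → φ (X j) = 0) (z : FA) : φ z ∈ Am (fun j => φ (X j)) K := by
  induction z using FreeAlgebra.induction with
  | grade0 c =>
    rw [AlgHom.commutes]
    exact Subalgebra.algebraMap_mem _ _
  | grade1 j =>
    by_cases hj : j < K
    · exact s_mem_Am (fun j => φ (X j)) hj
    · have := h j (by omega)
      rw [X] at this
      rw [this]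
      exact zero_mem _
  | mul x y hx hy => rw [map_mul]; exact mul_mem hx hy
  | add x y hx hy => rw [map_add]; exact add_mem hx hy

theorem exists_Bd_of_mem_Am {A : Type*} [Ring A] [Algebra ℂ A] (φ : FA →ₐ[ℂ] A) {K : ℕ} {x : A}
    (hx : x ∈ Am (fun j => φ (X j)) K) : ∃ z ∈ Bd K, φ z = x := by
  refine Algebra.adjoin_induction (p := fun x _ => ∃ z ∈ Bd K, φ z = x) ?_ ?_ ?_ ?_ hx
  · rintro x ⟨j, hj, rfl⟩
    exact ⟨X j, X_mem_Bd hj, rfl⟩
  · intro c
    exact ⟨algebraMap ℂ FA c, Subalgebra.algebraMap_mem _ _, AlgHom.commutes _ _⟩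
  · rintro x y _ _ ⟨a, ha, rfl⟩ ⟨b, hb, rfl⟩
    exact ⟨a + b, add_mem ha hb, map_add _ _ _⟩
  · rintro x y _ _ ⟨a, ha, rfl⟩ ⟨b, hb, rfl⟩
    exact ⟨a * b, mul_mem ha hb, map_mul _ _ _⟩

theorem HeckeRep.prod {A B : Type*} [Ring A] [Algebra ℂ A] [Ring B] [Algebra ℂ B] {t : ℂ} {m : ℕ}
    {s : ℕ → A} {s' : ℕ → B} (h : HeckeRep t m s) (h' : HeckeRep t m s') :
    HeckeRep t m (fun j => (s j, s' j)) := by
  refine ⟨fun j hj => ?_, fun j k hjk hk => ?_, fun j hj => ?_⟩
  · exact Prod.ext (h.sq j hj) (h'.sq j hj)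
  · exact Prod.ext (h.comm j k hjk hk) (h'.comm j k hjk hk)
  · exact Prod.ext (h.braid j hj) (h'.braid j hj)

/-- uniqueness of Markov traces -/
theorem tau_unique {m m' : Model N} {t : ℂ} {l l' : Fin N → ℕ}
    (h : ∀ M, HeckeRep t (M - 1) (m.mat l M)) (h' : ∀ M, HeckeRep t (M - 1) (m'.mat l' M))
    {g g' : (Fin N → ℕ) → ℂ} {R R' : (Fin N → ℕ) → Prop} {δ κ : ℂ}
    (hm : m.Markov g R δ κ) (hm' : m'.Markov g' R' δ κ) (hl : R l) (hl' : R' l')
    (hg : g l = g' l') (M : ℕ) (z : FA) : m.tau g l M z = m'.tau g' l' M z := by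
  induction M generalizing z with
  | zero =>
    have key : ∀ (n : Model N) (c : Fin N → ℕ) (w : Fin 0 → Fin N) (z : FA),
        n.rep c 0 z w w = FreeAlgebra.lift ℂ (fun _ : ℕ => (0 : ℂ)) z := by
      intro n c w z
      induction z using FreeAlgebra.induction with
      | grade0 d => rw [AlgHom.commutes, AlgHom.commutes, Matrix.algebraMap_matrix_apply, if_pos rfl]
      | grade1 j => rw [← X, Model.rep_X, Model.mat_eq_zero _ (by omega), X,
          FreeAlgebra.lift_ι_apply, Matrix.zero_apply]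
      | mul x y hx hy =>
        rw [map_mul, map_mul, Matrix.mul_apply, ← hx, ← hy]
        rw [Finset.sum_eq_single w]
        · intro b _ hb
          exact absurd (Subsingleton.elim _ _) hb
        · intro h; exact absurd (Finset.mem_univ _) h
      | add x y hx hy => rw [map_add, map_add, Matrix.add_apply, hx, hy]
    have key2 : ∀ (n : Model N) (f : (Fin N → ℕ) → ℂ) (c : Fin N → ℕ) (hc : n.ok c) (z : FA),
        n.tau f c 0 z = f c * FreeAlgebra.lift ℂ (fun _ : ℕ => (0 : ℂ)) z := by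
      intro n f c hc z
      classical
      rw [Model.tau, Fintype.sum_unique, key, if_pos, cfg_zero]
      intro s hs
      obtain rfl : s = 0 := by omega
      rwa [cfg_zero]
    rw [key2 m g l (hm.ok l hl), key2 m' g' l' (hm'.ok l' hl'), hg]
  | succ M ih =>
    set φ : FA →ₐ[ℂ] _ × _ := (m.rep l (M + 1)).prod (m'.rep l' (M + 1)) with hφ
    have hφX : ∀ j, φ (X j) = (m.mat l (M + 1) j, m'.mat l' (M + 1) j) := fun j => by
      rw [hφ, AlgHom.prod_apply, Model.rep_X, Model.rep_X]
    have hz : φ z ∈ Am (fun j => φ (X j)) M := by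
      apply mem_Am_of_zero
      intro j hj
      rw [hφX, Model.mat_eq_zero _ (by omega), Model.mat_eq_zero _ (by omega)]
      rfl
    have hlin : m.lin g l (M + 1) (φ z).1 = m'.lin g' l' (M + 1) (φ z).2 := by
      generalize φ z = x at hz
      have hBd : ∀ x ∈ Am (fun j => φ (X j)) (M - 1),
          m.lin g l (M + 1) x.1 = m'.lin g' l' (M + 1) x.2 := by
        intro x hx
        obtain ⟨a, ha, rfl⟩ := exists_Bd_of_mem_Am φ hx
        show m.tau g l (M + 1) a = m'.tau g' l' (M + 1) a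
        rw [hm.tau_one hl ha, hm'.tau_one hl' ha, ih]
      rcases M with _ | M
      · exact hBd x hz
      · have hs : HeckeRep t (M + 1) (fun j => φ (X j)) := by
          have := (h (M + 1 + 1)).prod (h' (M + 1 + 1))
          simpa only [hφX, Nat.add_sub_cancel] using this
        have hW := normal_form hs (Nat.lt_succ_self M) hz
        refine Wm_induction (p := fun x =>
          m.lin g l (M + 1 + 1) x.1 = m'.lin g' l' (M + 1 + 1) x.2) ?_ ?_ ?_ ?_ hW
        · exact hBd
        · intro b₀ hb₀ c₀ hc₀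
          obtain ⟨b, hb, rfl⟩ := exists_Bd_of_mem_Am φ hb₀
          obtain ⟨c, hc, rfl⟩ := exists_Bd_of_mem_Am φ hc₀
          rw [← map_mul, ← map_mul]
          show m.tau g l (M + 1 + 1) (b * X M * c) = m'.tau g' l' (M + 1 + 1) (b * X M * c)
          rw [Model.tau_mul_comm, Model.tau_mul_comm m', ← mul_assoc,
            hm.tau_two hl (mul_mem hc hb), hm'.tau_two hl' (mul_mem hc hb), ih]
        · intro x y hx hy
          rw [Prod.fst_add, Prod.snd_add, Model.lin_add, Model.lin_add, hx, hy]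
        · intro d x hx
          rw [Prod.smul_fst, Prod.smul_snd, Model.lin_smul, Model.lin_smul, hx]
    exact hlin

end Pool.Agent.Helper15.RT
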