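import Mathlib
import Pool.Agent.Helper15.RT.Unique
import Pool.Agent.Helper15.RT.PathBraid
import Pool.Agent.Helper15.RT.PDefs
import Pool.Agent.Helper15.AllN.Eval

open Finset
open scoped Real

namespace Pool.Agent.Helper15.RT

variable {N : ℕ}

/-- the vertex model -/
noncomputable def vertexModel (N r : ℕ) : Model N where
  ok := fun _ => True
  t := q r
  α := fun _ x y => va (q r) x y
  β := fun _ x y => vb x y
  β_self := fun _ x => by simp [vb]

/-- the path model -/
noncomputable def pathModel (N r : ℕ) : Model N where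
  ok := goodc r
  t := q r
  α := fun c x y => pa (q r) (spec r c) x y
  β := fun c x y => pb (q r) (spec r c) x y
  β_self := fun _ x => by simp [pb]

theorem pathModel_mat (r : ℕ) (l : Fin N → ℕ) (M : ℕ) :
    (pathModel N r).mat l M = Pmat N r l M := rfl

theorem vertexModel_mat (r : ℕ) (l : Fin N → ℕ) (M : ℕ) :
    (vertexModel N r).mat l M = Rmat N r M := by
  funext j
  by_cases h : j + 1 < M
  · have hg : ∀ w : Fin M → Fin N, (vertexModel N r).good l w := fun w t _ => trivial
    rw [Model.mat, dif_pos h, Rmat_eq h]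
    simp only [hg, and_self, if_true]
    rfl
  · rw [Model.mat, dif_neg h]
    ext w w'
    rw [Rmat, dif_neg h]
    rfl

theorem heckeRep_vertex (r : ℕ) (l : Fin N → ℕ) (M : ℕ) :
    HeckeRep (q r) (M - 1) ((vertexModel N r).mat l M) := by
  rw [vertexModel_mat]
  exact heckeRep_Rmat N r M

theorem heckeRep_path {r : ℕ} (hr : 0 < r) (l : Fin N → ℕ) (M : ℕ) :
    HeckeRep (q r) (M - 1) ((pathModel N r).mat l M) := by
  rw [pathModel_mat]
  exact heckeRep_Pmat hr l M

/-- weight of the vertex model -/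
noncomputable def gv (N r : ℕ) (c : Fin N → ℕ) : ℂ :=
  ∏ i : Fin N, (q r ^ ((N : ℤ) - 1 - 2 * (i : ℕ))) ^ c i

theorem gv_add (r : ℕ) (c : Fin N → ℕ) (x : Fin N) :
    gv N r (c + Pi.single x 1) = gv N r c * q r ^ ((N : ℤ) - 1 - 2 * (x : ℕ)) := by
  rw [gv, gv]
  have : ∀ i : Fin N, (q r ^ ((N : ℤ) - 1 - 2 * (i : ℕ))) ^ (c + Pi.single x 1 : Fin N → ℕ) i =
      (q r ^ ((N : ℤ) - 1 - 2 * (i : ℕ))) ^ c i *
        (if i = x then q r ^ ((N : ℤ) - 1 - 2 * (x : ℕ)) else 1) := by
    intro i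
    rw [Pi.add_apply, pow_add, Pi.single_apply]
    by_cases h : i = x
    · subst h; simp
    · simp [h]
  simp only [this, Finset.prod_mul_distrib, Finset.prod_ite_eq', Finset.mem_univ, if_true]

theorem sum_step {x n : ℕ} (h : x < n) (a : ℂ) (F : ℕ → ℂ) :
    ∑ k ∈ range n, (if k = x then a else if k < x then F k - F (k + 1) else 0) =
      F 0 - F x + a := by
  obtain ⟨K, rfl⟩ := Nat.exists_eq_add_of_le (Nat.succ_le_of_lt h)
  rw [Finset.sum_range_add, Nat.succ_eq_add_one, Finset.sum_range_succ]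
  have h3 : ∀ k ∈ range x, (if k = x then a else if k < x then F k - F (k + 1) else 0) =
      F k - F (k + 1) := by
    intro k hk
    have := Finset.mem_range.1 hk
    rw [if_neg (by omega), if_pos this]
  have h4 : ∀ k ∈ range K, (if x + 1 + k = x then a else if x + 1 + k < x then
      F (x + 1 + k) - F (x + 1 + k + 1) else 0) = 0 := by
    intro k _
    rw [if_neg (by omega), if_neg (by omega)]
  rw [Finset.sum_congr rfl h3, Finset.sum_congr rfl h4, Finset.sum_const_zero,
    Finset.sum_range_sub' F]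
  simp

theorem sum_va (r : ℕ) (x : Fin N) :
    ∑ y : Fin N, q r ^ ((N : ℤ) - 1 - 2 * (y : ℕ)) * va (q r) x y = q r ^ (N : ℤ) := by
  have hq := q_ne_zero r
  have h1 : ∀ y : Fin N, q r ^ ((N : ℤ) - 1 - 2 * (y : ℕ)) * va (q r) x y =
      (fun k : ℕ => if k = (x : ℕ) then q r ^ ((N : ℤ) - 2 * (x : ℕ)) else
        if k < x then q r ^ ((N : ℤ) - 2 * (k : ℕ)) - q r ^ ((N : ℤ) - 2 * ((k + 1 : ℕ) : ℤ))
        else 0) (y : ℕ) := by
    intro y
    simp only [va]
    by_cases h : x = y
    · subst h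
      simp only [if_true]
      rw [← zpow_add_one₀ hq]
      congr 1
      ring
    · have h' : ¬ (y : ℕ) = x := fun e => h (Fin.ext e.symm)
      rw [if_neg h, if_neg h']
      by_cases h2 : y < x
      · have h2' : (y : ℕ) < x := h2
        rw [if_pos h2, if_pos h2', mul_sub, ← zpow_add_one₀ hq, ← zpow_sub_one₀ hq]
        congr 2
        · ring
        · push_cast; ring
      · have h2' : ¬ (y : ℕ) < x := h2
        rw [if_neg h2, if_neg h2', mul_zero]
  simp only [h1]
  rw [Fin.sum_univ_eq_sum_range (fun k : ℕ => if k = (x : ℕ) then q r ^ ((N : ℤ) - 2 * (x : ℕ)) else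
        if k < x then q r ^ ((N : ℤ) - 2 * (k : ℕ)) - q r ^ ((N : ℤ) - 2 * ((k + 1 : ℕ) : ℤ))
        else 0) N,
    sum_step x.2 (q r ^ ((N : ℤ) - 2 * (x : ℕ))) (fun k : ℕ => q r ^ ((N : ℤ) - 2 * (k : ℕ)))]
  simp

theorem markov_vertex (r : ℕ) : (vertexModel N r).Markov (gv N r) (fun _ => True)
    (∑ x : Fin N, q r ^ ((N : ℤ) - 1 - 2 * (x : ℕ))) (q r ^ (N : ℤ)) := by
  refine ⟨fun _ _ => trivial, fun _ _ _ _ => trivial, fun c _ => ?_, fun c x _ _ => ?_⟩
  · have : ∀ x, (vertexModel N r).ok (c + Pi.single x 1) := fun _ => trivial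
    simp only [this, if_true, gv_add]
    rw [← Finset.mul_sum, mul_comm]
  · have : ∀ y, (vertexModel N r).ok (c + Pi.single x 1 + Pi.single y 1) := fun _ => trivial
    simp only [this, if_true, gv_add r (c + Pi.single x 1)]
    rw [← sum_va r x, Finset.sum_mul]
    refine Finset.sum_congr rfl fun y _ => ?_
    show _ * _ * va (q r) x y = _
    ring

theorem gv_zero (r : ℕ) : gv N r 0 = 1 := by simp [gv]

/-- the weight of a word as a function of its configuration -/
theorem gv_cfg (r : ℕ) {M : ℕ} (w : Fin M → Fin N) :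
    ∏ s, q r ^ ((N : ℤ) - 1 - 2 * (w s : ℕ)) = gv N r (cfg 0 w M) := by
  rw [gv, ← Finset.prod_fiberwise_of_maps_to (s := univ) (t := univ) (g := w)
    (fun _ _ => Finset.mem_univ _)]
  refine Finset.prod_congr rfl fun i _ => ?_
  rw [Finset.prod_congr rfl (g := fun _ => q r ^ ((N : ℤ) - 1 - 2 * (i : ℕ)))
    (fun s hs => by rw [(Finset.mem_filter.1 hs).2]), Finset.prod_const]
  congr 1
  simp [cfg]

theorem qtrace_eq_tau (r M : ℕ) (z : FA) :
    qtrace r ((vertexModel N r).rep 0 M z) = (vertexModel N r).tau (gv N r) 0 M z := by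
  rw [qtrace, Model.tau]
  refine Finset.sum_congr rfl fun w _ => ?_
  have hg : (vertexModel N r).good 0 w := fun t _ => trivial
  rw [if_pos hg, gv_cfg]

end Pool.Agent.Helper15.RT
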