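import Mathlib
import Pool.Agent.Helper15.AllN.Defs

/-!
Auxiliary definitions (not part of any statement handed in): the twist, the vacuum row of `S`, and
the reduced state sum.
-/

open Finset
open scoped Real

namespace Pool.Agent.Helper15.RT

open Pool.Agent.Helper15.AllN

/-- the twist `exp (2 π i h_x)` of the colour `x` -/
noncomputable def theta (N r : ℕ) (x : Fin N → ℕ) : ℂ :=
  Complex.exp (π * Complex.I / r * ((ip N x x - ip N (vac N) (vac N) : ℝ) : ℂ))

/-- the vacuum row of the `S` matrix -/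
noncomputable def S0 (N r : ℕ) (x : Fin N → ℕ) : ℝ :=
  (∏ i, ∏ j ∈ Ioi i, 2 * Real.sin (π * ((x j : ℝ) - x i) / r)) / Real.sqrt (N * (r : ℝ) ^ (N - 1))

/-- the vacuum row of `S T^(2N) S` -/
noncomputable def eN (N r : ℕ) (x : Fin N → ℕ) : ℂ :=
  ∑ y ∈ colors N r, (S0 N r y : ℂ) * theta N r y ^ (2 * N) * Smat N r y x

/-- the support of `eN` when `2 N` divides `r`: the residues of `x` modulo `2 N` are consecutive -/
def supp (N r : ℕ) : Finset (Fin N → ℕ) :=
  (colors N r).filter fun x => ∃ (c : Fin (2 * N)) (σ : Equiv.Perm (Fin N)),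
    ∀ i, (x (σ i) + i) % (2 * N) = c

/-- the reduced state sum -/
noncomputable def Zred (N r : ℕ) : ℂ :=
  ∑ x ∈ colors N r, ∑ y ∈ colors N r,
    ((‖eN N r x‖ ^ 2 / S0 N r x * (‖eN N r y‖ ^ 2 / S0 N r y) : ℝ) : ℂ) * Smat N r x y

end Pool.Agent.Helper15.RT
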