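import Mathlib
import Pool.Agent.Helper15.RT.PDefs
import Pool.Agent.Helper15.RT.SDefs
import Pool.Agent.Helper15.RT.Markov

/-!
Auxiliary definitions (not part of any statement handed in).
-/

open Finset
open scoped Real

namespace Pool.Agent.Helper15.RT

open Pool.Agent.Helper15.AllN

/-- eigenvalue of the full twist on the words ending at `c` -/
noncomputable def Theta (N r : ℕ) (c : Fin N → ℕ) : ℂ :=
  q r ^ ((∑ i, (c i : ℤ) ^ 2) - (∑ i : Fin N, ((i : ℕ) : ℤ) ^ 2) -
    (2 * (N : ℤ) - 1) * ((∑ i, (c i : ℤ)) - ∑ i : Fin N, ((i : ℕ) : ℤ)))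

/-- the braid word -/
def word5 : List (ℕ × Bool) :=
  [(3, false), (2, false), (1, false), (0, false), (0, false), (1, false), (2, false), (3, false),
    (2, false), (1, false), (0, false), (0, false), (1, false), (2, false)]

/-- the framings -/
def fr (N : ℕ) : Fin 5 → ℤ := ![2 * N, -2 * N, -1, 2 * N - 1, -2 * N - 1]

end Pool.Agent.Helper15.RT
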