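import Mathlib
import Pool.Agent.Helper15.RT.Model

open Finset
open scoped Real

namespace Pool.Agent.Helper15.RT

section Algebra

variable {A : Type*} [Ring A] [Algebra ℂ A] {t : ℂ} {m : ℕ} {s : ℕ → A}

/-- `s (a) s (a+1) ... s (a+i-1)` -/
def run (s : ℕ → A) (a i : ℕ) : A := ((List.range i).map fun j => s (a + j)).prod

omit [Algebra ℂ A] in
theorem run_zero (s : ℕ → A) (a : ℕ) : run s a 0 = 1 := by simp [run]

omit [Algebra ℂ A] in
theorem run_succ (s : ℕ → A) (a i : ℕ) : run s a (i + 1) = run s a i * s (a + i) := by
  rw [run, run, List.range_succ, List.map_append, List.prod_append]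
  simp

omit [Algebra ℂ A] in
theorem run_succ' (s : ℕ → A) (a i : ℕ) : run s a (i + 1) = s a * run s (a + 1) i := by
  rw [run, run, List.range_succ_eq_map, List.map_cons, List.prod_cons, List.map_map]
  simp only [add_zero]
  congr 3
  funext j
  simp only [Function.comp_apply, Nat.succ_eq_add_one]
  congr 1
  ring

theorem symm_succ (t : ℂ) (s : ℕ → A) (o n : ℕ) : symm t s o (n + 1) =
    (∑ i ∈ range (n + 1), t ^ (2 * i))⁻¹ •
      ((∑ i ∈ range (n + 1), t ^ i • run s (o + n - i) i) * symm t s o n) := rfl

/-- `s_b` with `a ≥ b + 2` commutes with the run starting from `a` -/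
theorem comm_run_left (hs : HeckeRep t m s) {a i b : ℕ} (h : b + 2 ≤ a) (hi : a + i ≤ m) :
    s b * run s a i = run s a i * s b := by
  induction i with
  | zero => rw [run_zero, mul_one, one_mul]
  | succ i ih =>
    rw [run_succ, ← mul_assoc, ih (by omega), mul_assoc, mul_assoc,
      hs.comm b (a + i) (by omega) (by omega)]

/-- `s_{a+j+1}` passes through the run -/
theorem shift_run (hs : HeckeRep t m s) {a i j : ℕ} (hj : j + 1 < i) (hi : a + i ≤ m) :
    s (a + j + 1) * run s a i = run s a i * s (a + j) := by
  induction i with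
  | zero => omega
  | succ i ih =>
    by_cases h : j + 1 < i
    · rw [run_succ, ← mul_assoc, ih h (by omega), mul_assoc, mul_assoc,
        hs.comm (a + j) (a + i) (by omega) (by omega)]
    · obtain rfl : i = j + 1 := by omega
      rw [run_succ, run_succ]
      have e : s (a + j + 1) * run s a j = run s a j * s (a + j + 1) := by
        clear ih h hj
        have : ∀ k ≤ j, s (a + j + 1) * run s a k = run s a k * s (a + j + 1) := by
          intro k
          induction k with
          | zero => intro _; rw [run_zero, mul_one, one_mul]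
          | succ k ihk =>
            intro hk
            rw [run_succ, ← mul_assoc, ihk (by omega), mul_assoc, mul_assoc,
              hs.comm (a + k) (a + j + 1) (by omega) (by omega)]
        exact this j le_rfl
      rw [← mul_assoc, ← mul_assoc, e]
      rw [mul_assoc (run s a j), mul_assoc (run s a j), ← add_assoc,
        ← hs.braid (a + j) (by omega)]
      simp only [mul_assoc]

/-- the symmetriser absorbs generators -/
theorem s_mul_symm (hs : HeckeRep t m s) (ht : t ≠ 0) {o n : ℕ} (hn : o + n ≤ m + 1) {j : ℕ}
    (hj : j + 1 < n) : s (o + j) * symm t s o n = t • symm t s o n := by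
  induction n generalizing j with
  | zero => omega
  | succ n ih =>
    rw [symm_succ, mul_smul_comm, smul_comm t]
    congr 1
    rw [← mul_assoc, Finset.mul_sum, ← smul_mul_assoc, Finset.smul_sum]
    set Q := symm t s o n with hQ
    have ihQ : ∀ k, k + 1 < n → s (o + k) * Q = t • Q := fun k hk => ih (by omega) hk
    -- the terms
    have hfar : ∀ i ∈ range (n + 1), i ≠ n - j → i ≠ n - j - 1 →
        (s (o + j) * t ^ i • run s (o + n - i) i) * Q = (t • t ^ i • run s (o + n - i) i) * Q := by
      intro i hi h1 h2
      have hi' := Finset.mem_range.1 hi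
      rw [mul_smul_comm, smul_mul_assoc, smul_mul_assoc, smul_mul_assoc, smul_comm t]
      congr 1
      rcases Nat.lt_or_ge i (n - j) with h3 | h3
      · -- j < n - i - 1
        rw [comm_run_left hs (by omega) (by omega), mul_assoc, ihQ j (by omega), mul_smul_comm]
      · -- n - i < j
        obtain ⟨k, hk⟩ : ∃ k, o + j = (o + n - i) + k + 1 := ⟨j - (n - i) - 1, by omega⟩
        rw [hk, shift_run hs (by omega) (by omega), mul_assoc]
        have : o + n - i + k = o + (j - 1) := by omega
        rw [this, ihQ (j - 1) (by omega), mul_smul_comm]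
    have hn1 : n - j ∈ range (n + 1) := Finset.mem_range.2 (by omega)
    have hn2 : n - j - 1 ∈ (range (n + 1)).erase (n - j) :=
      Finset.mem_erase.2 ⟨by omega, Finset.mem_range.2 (by omega)⟩
    rw [Finset.sum_mul, Finset.sum_mul, ← Finset.add_sum_erase _ _ hn1,
      ← Finset.add_sum_erase _ _ hn2, ← Finset.add_sum_erase (range (n + 1)) _ hn1,
      ← Finset.add_sum_erase ((range (n + 1)).erase (n - j)) _ hn2, ← add_assoc, ← add_assoc]
    congr 1
    · -- the pair
      obtain ⟨i, hi⟩ : ∃ i, n - j = i + 1 := ⟨n - j - 1, by omega⟩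
      have e0 : n - j - 1 = i := by omega
      rw [e0, hi]
      have e1 : o + n - (i + 1) = o + j := by omega
      have e2 : o + n - i = o + j + 1 := by omega
      have e6 : s (o + j) * run s (o + j + 1) i = run s (o + j) (i + 1) := (run_succ' s _ _).symm
      have e5 : s (o + j) * run s (o + j) (i + 1) =
          (t - t⁻¹) • run s (o + j) (i + 1) + run s (o + j + 1) i := by
        rw [← e6, ← mul_assoc, hs.sq (o + j) (by omega), add_mul, one_mul, smul_mul_assoc]
      rw [e1, e2, mul_smul_comm, mul_smul_comm, e5, e6]
      generalize run s (o + j) (i + 1) = U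
      generalize run s (o + j + 1) i = V
      simp only [smul_mul_assoc, add_mul, smul_add, smul_smul, pow_succ]
      have e3 : t * (t ^ i * t) = t ^ i * t * (t - t⁻¹) + t ^ i := by field_simp; ring
      rw [e3, add_smul]
      have e4 : t * t ^ i = t ^ i * t := mul_comm _ _
      rw [e4]
      abel
    · refine Finset.sum_congr rfl fun i hi => ?_
      have h1 := Finset.mem_erase.1 hi
      have h2 := Finset.mem_erase.1 h1.2
      exact hfar i h2.2 h2.1 h1.1

/-- the symmetriser is the identity on the `t`-eigenspace -/
theorem symm_mul_of_eig {o n : ℕ} {x : A}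
    (hq : ∀ k, k ≤ n → 1 ≤ k → ∑ i ∈ range k, t ^ (2 * i) ≠ 0)
    (hx : ∀ j, j + 1 < n → s (o + j) * x = t • x) : symm t s o n * x = x := by
  induction n with
  | zero => exact one_mul x
  | succ n ih =>
    have hrun : ∀ i, i ≤ n → run s (o + n - i) i * x = t ^ i • x := by
      intro i
      induction i with
      | zero => intro _; rw [run_zero, one_mul, pow_zero, one_smul]
      | succ i ihi =>
        intro hi
        have e1 : o + n - (i + 1) + 1 = o + n - i := by omega
        have e2 : o + n - (i + 1) = o + (n - (i + 1)) := by omega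
        rw [run_succ', e1, mul_assoc, ihi (by omega), mul_smul_comm, e2, hx _ (by omega), smul_smul,
          ← pow_succ]
    rw [symm_succ, smul_mul_assoc, mul_assoc, ih (fun k hk => hq k (by omega))
      (fun j hj => hx j (by omega)), Finset.sum_mul]
    have h1 : ∀ i ∈ range (n + 1), (t ^ i • run s (o + n - i) i) * x = t ^ (2 * i) • x := by
      intro i hi
      rw [smul_mul_assoc, hrun i (by have := Finset.mem_range.1 hi; omega), smul_smul, ← pow_add]
      congr 2
      ring
    rw [Finset.sum_congr rfl h1, ← Finset.sum_smul, smul_smul,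
      inv_mul_cancel₀ (hq (n + 1) le_rfl (by omega)), one_smul]

theorem map_run {B : Type*} [Ring B] [Algebra ℂ B] (φ : A →ₐ[ℂ] B) (s : ℕ → A) (a i : ℕ) :
    φ (run s a i) = run (fun j => φ (s j)) a i := by
  rw [run, run, map_list_prod, List.map_map]
  rfl

theorem map_symm {B : Type*} [Ring B] [Algebra ℂ B] (φ : A →ₐ[ℂ] B) (t : ℂ) (s : ℕ → A)
    (o n : ℕ) : φ (symm t s o n) = symm t (fun j => φ (s j)) o n := by
  induction n with
  | zero => exact map_one φ
  | succ n ih =>
    rw [symm_succ, symm_succ, map_smul, map_mul, ih, map_sum]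
    simp only [map_smul, map_run]

theorem symm_shift (t : ℂ) (s : ℕ → A) (a o n : ℕ) :
    symm t (fun j => s (a + j)) o n = symm t s (a + o) n := by
  induction n with
  | zero => rfl
  | succ n ih =>
    rw [symm_succ, symm_succ, ih]
    congr 2
    refine Finset.sum_congr rfl fun i hi => ?_
    have hi' := Finset.mem_range.1 hi
    congr 1
    have e : a + o + n - i = a + (o + n - i) := by omega
    rw [run, run, e]
    simp only [add_assoc]

end Algebra

theorem shf_symm (t : ℂ) (a o n : ℕ) : shf a (symm t X o n) = symm t X (a + o) n := by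
  rw [map_symm]
  simp only [shf_X]
  exact symm_shift t X a o n

theorem run_mem_Bd {a i m : ℕ} (h : a + i ≤ m) : run X a i ∈ Bd m := by
  rw [run]
  apply Subalgebra.list_prod_mem
  intro x hx
  obtain ⟨j, hj, rfl⟩ := List.mem_map.1 hx
  exact X_mem_Bd (by have := List.mem_range.1 hj; omega)

theorem symm_mem_Bd (t : ℂ) (o n : ℕ) : symm t X o n ∈ Bd (o + n - 1) := by
  induction n with
  | zero => exact one_mem _
  | succ n ih =>
    rw [symm_succ]
    have h : (∑ i ∈ range (n + 1), t ^ i • run X (o + n - i) i) ∈ Bd (o + (n + 1) - 1) := by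
      apply Subalgebra.sum_mem
      intro i hi
      have := Finset.mem_range.1 hi
      exact Subalgebra.smul_mem _ (run_mem_Bd (by omega)) _
    exact Subalgebra.smul_mem _ (mul_mem h (Bd_mono (by omega) ih)) _

end Pool.Agent.Helper15.RT
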