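import Mathlib
import Pool.Agent.Helper15.RT.Markov

open Finset
open scoped Real

namespace Pool.Agent.Helper15.RT

variable {N : ℕ}

theorem alc_goodc {r : ℕ} {l : Fin N → ℕ} (h : alc r l) : goodc r l := by
  have key : ∀ i j : Fin N, i < j → ¬ (l i ≡ l j [MOD r]) := by
    intro i j hij e
    have h1 := h.1 hij
    have h2 := h.2 j i
    rw [Nat.modEq_iff_dvd' h1.le] at e
    have := Nat.le_of_dvd (by omega) e
    omega
  intro i j hij e
  rcases lt_or_gt_of_ne hij with h1 | h1
  · exact key i j h1 e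
  · exact key j i h1 e.symm

theorem alc_step {r : ℕ} {l : Fin N → ℕ} {x : Fin N} (h : alc r l)
    (hg : goodc r (l + Pi.single x 1)) : alc r (l + Pi.single x 1) := by
  have h1 : ∀ i, i ≠ x → ¬ (l x + 1 ≡ l i [MOD r]) := by
    intro i hi
    have := hg x i (Ne.symm hi)
    simpa [Pi.single_eq_of_ne hi] using this
  constructor
  · intro i j hij
    have h2 := h.1 hij
    by_cases hi : i = x
    · subst hi
      have h3 : l i + 1 ≠ l j := fun e => h1 j (ne_of_gt hij) (by rw [e])
      simp [Pi.single_eq_of_ne (ne_of_gt hij)]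
      omega
    · by_cases hj : j = x
      · subst hj; simp [Pi.single_eq_of_ne hi]; omega
      · simpa [Pi.single_eq_of_ne hi, Pi.single_eq_of_ne hj] using h2
  · intro i j
    have h2 := h.2 i j
    by_cases hi : i = x
    · subst hi
      by_cases hj : j = i
      · subst hj; simp; omega
      · have h3 : l i + 1 ≠ l j + r := by
          intro e
          apply h1 j hj
          rw [e]
          exact Nat.add_modEq_right
        simp [Pi.single_eq_of_ne hj]
        omega
    · by_cases hj : j = x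
      · subst hj; simp [Pi.single_eq_of_ne hi]; omega
      · simpa [Pi.single_eq_of_ne hi, Pi.single_eq_of_ne hj] using h2

theorem sum_det_row_scale (A : Matrix (Fin N) (Fin N) ℂ) (d : Fin N → ℂ) :
    ∑ x, (A.updateRow x (fun j => A x j * d j)).det = (∑ j, d j) * A.det := by
  simp only [Matrix.det_apply']
  rw [Finset.sum_comm, Finset.mul_sum]
  refine Finset.sum_congr rfl fun σ _ => ?_
  have h1 : ∀ x, ∏ i, (A.updateRow x (fun j => A x j * d j)) (σ i) i =
      (∏ i, A (σ i) i) * d (σ⁻¹ x) := by
    intro x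
    have : ∀ i, (A.updateRow x (fun j => A x j * d j)) (σ i) i =
        A (σ i) i * (if i = σ⁻¹ x then d (σ⁻¹ x) else 1) := by
      intro i
      rw [Matrix.updateRow_apply]
      by_cases h : σ i = x
      · have h' : i = σ⁻¹ x := by rw [← h]; simp
        rw [if_pos h, if_pos h', ← h']
        rw [← h]
      · have h' : ¬ i = σ⁻¹ x := fun e => h (by rw [e]; simp)
        rw [if_neg h, if_neg h', mul_one]
    simp only [this, Finset.prod_mul_distrib, Finset.prod_ite_eq', Finset.mem_univ, if_true]
  simp only [h1]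
  rw [← Finset.mul_sum, ← Finset.mul_sum, (Equiv.sum_comp σ⁻¹ d)]
  ring

theorem vandermonde_update (F : Fin N → ℂ) (y : Fin N) (z : ℂ) :
    Matrix.vandermonde (Function.update F y z) =
      (Matrix.vandermonde F).updateRow y (fun j => z ^ (j : ℕ)) := by
  ext i j
  rw [Matrix.updateRow_apply, Matrix.vandermonde_apply]
  by_cases h : i = y
  · subst h; simp
  · simp [h, Function.update_of_ne h]

theorem sh_eq_update (t : ℂ) (F : Fin N → ℂ) (x : Fin N) :
    sh t F x = Function.update F x (t ^ 2 * F x) := by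
  ext i
  by_cases h : i = x
  · subst h; simp [sh]
  · simp [sh, h]

theorem det_vandermonde_update {F : Fin N → ℂ} (hF : Function.Injective F) (y : Fin N) (z : ℂ) :
    (Matrix.vandermonde (Function.update F y z)).det =
      (∏ i ∈ univ.erase y, ((z - F i) / (F y - F i))) * (Matrix.vandermonde F).det := by
  rw [vandermonde_update]
  have h1 : (fun j : Fin N => z ^ (j : ℕ)) =
      ∑ k, (∏ i ∈ univ.erase k, ((z - F i) / (F k - F i))) • Matrix.vandermonde F k := by
    ext j
    have hd : (Polynomial.X ^ (j : ℕ) : Polynomial ℂ).degree < #(univ : Finset (Fin N)) := by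
      rw [Polynomial.degree_X_pow, Finset.card_univ, Fintype.card_fin]
      exact_mod_cast j.2
    have h2 := Lagrange.eq_interpolate (s := univ) (v := F) hF.injOn hd
    have h3 := congrArg (Polynomial.eval z) h2
    rw [Polynomial.eval_pow, Polynomial.eval_X] at h3
    rw [h3, Lagrange.interpolate_apply, Polynomial.eval_finsetSum, Finset.sum_apply]
    refine Finset.sum_congr rfl fun k _ => ?_
    rw [Polynomial.eval_mul, Polynomial.eval_C, Polynomial.eval_pow, Polynomial.eval_X,
      Lagrange.basis, Polynomial.eval_prod, Pi.smul_apply, Matrix.vandermonde_apply, smul_eq_mul,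
      mul_comm]
    congr 1
    refine Finset.prod_congr rfl fun i _ => ?_
    rw [Lagrange.basisDivisor, Polynomial.eval_mul, Polynomial.eval_C, Polynomial.eval_sub,
      Polynomial.eval_X, Polynomial.eval_C]
    rw [div_eq_mul_inv, mul_comm]
  rw [h1, Matrix.det_updateRow_sum, smul_eq_mul]

/-- partial fractions -/
theorem sum_pa {t : ℂ} (ht : t ≠ 0) {F : Fin N → ℂ} (x : Fin N)
    (hF : Function.Injective (sh t F x)) (hx : ∀ y, y ≠ x → F x ≠ F y) :
    ∑ y, (∏ i ∈ univ.erase y, ((t ^ 2 * sh t F x y - sh t F x i) /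
      (sh t F x y - sh t F x i))) * pa t F x y = t * (t ^ 2) ^ (N - 1) := by
  set G := sh t F x with hG
  have hGx : G x = t ^ 2 * F x := by simp [hG, sh]
  have hGy : ∀ y, y ≠ x → G y = F y := fun y hy => by simp [hG, sh, hy]
  set P : Polynomial ℂ := ∏ i ∈ univ.erase x, (Polynomial.C (t ^ 2) * Polynomial.X -
    Polynomial.C (G i)) with hP
  have hPe : ∀ z, P.eval z = ∏ i ∈ univ.erase x, (t ^ 2 * z - G i) := by
    intro z
    rw [hP, Polynomial.eval_prod]
    simp
  have hN : 0 < N := by have := x.2; omega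
  have hcard : #(univ.erase x : Finset (Fin N)) = N - 1 := by
    rw [Finset.card_erase_of_mem (Finset.mem_univ x), Finset.card_univ, Fintype.card_fin]
  have hnd : ∀ i ∈ univ.erase x, (Polynomial.C (t ^ 2) * Polynomial.X -
    Polynomial.C (G i)).natDegree ≤ 1 := by
    intro i _
    rw [sub_eq_add_neg, ← Polynomial.C_neg]
    exact Polynomial.natDegree_linear_le
  have hco : P.coeff (N - 1) = (t ^ 2) ^ (N - 1) := by
    have := Polynomial.coeff_prod_of_natDegree_le (univ.erase x) (fun i =>
      Polynomial.C (t ^ 2) * Polynomial.X - Polynomial.C (G i)) 1 hnd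
    rw [hcard, mul_one] at this
    rw [hP, this]
    have h2 : ∀ i ∈ univ.erase x, (Polynomial.C (t ^ 2) * Polynomial.X -
      Polynomial.C (G i)).coeff 1 = t ^ 2 := by
      intro i _
      rw [Polynomial.coeff_sub, Polynomial.coeff_C_mul, Polynomial.coeff_X_one,
        Polynomial.coeff_C_succ]
      ring
    rw [Finset.prod_congr rfl h2, Finset.prod_const, hcard]
  have hdeg : P.degree < #(univ : Finset (Fin N)) := by
    rw [Finset.card_univ, Fintype.card_fin]
    refine lt_of_le_of_lt Polynomial.degree_le_natDegree ?_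
    have h3 : P.natDegree ≤ N - 1 := by
      refine (Polynomial.natDegree_prod_le _ _).trans ?_
      refine (Finset.sum_le_sum hnd).trans ?_
      simp [hcard]
    exact_mod_cast (by omega : P.natDegree < N)
  have hL := Lagrange.coeff_eq_sum (s := univ) (v := G) hF.injOn hdeg
  rw [Finset.card_univ, Fintype.card_fin, hco] at hL
  rw [hL, Finset.mul_sum]
  refine Finset.sum_congr rfl fun y _ => ?_
  rw [Finset.prod_div_distrib, hPe]
  by_cases hy : y = x
  · subst hy
    simp only [pa, if_true]
    ring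
  · have e1 : ∏ i ∈ univ.erase y, (t ^ 2 * G y - G i) = (t ^ 2 * G y - G x) *
        ∏ i ∈ (univ.erase y).erase x, (t ^ 2 * G y - G i) := by
      rw [Finset.mul_prod_erase _ (fun i => t ^ 2 * G y - G i)
        (Finset.mem_erase.2 ⟨Ne.symm hy, Finset.mem_univ x⟩)]
    have e2 : ∏ i ∈ univ.erase x, (t ^ 2 * G y - G i) = (t ^ 2 * G y - G y) *
        ∏ i ∈ (univ.erase x).erase y, (t ^ 2 * G y - G i) := by
      rw [Finset.mul_prod_erase _ (fun i => t ^ 2 * G y - G i)
        (Finset.mem_erase.2 ⟨hy, Finset.mem_univ y⟩)]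
    rw [e1, e2, Finset.erase_right_comm, hGx, hGy y hy, pa, if_neg (Ne.symm hy)]
    have h5 : F x - F y ≠ 0 := sub_ne_zero.2 (hx y hy)
    have h6 : (t ^ 2 * F y - t ^ 2 * F x) * (-(t - t⁻¹) * F y / (F x - F y)) =
        t * (t ^ 2 * F y - F y) := by
      field_simp
      ring
    linear_combination (∏ i ∈ (univ.erase x).erase y, (t ^ 2 * F y - G i)) /
      (∏ i ∈ univ.erase y, (F y - G i)) * h6

/-- weight of the path model -/
noncomputable def gp (N r : ℕ) (c : Fin N → ℕ) : ℂ :=
  q r ^ (-((N : ℤ) - 1) * ∑ i, (c i : ℤ)) * (Matrix.vandermonde (spec r c)).det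

theorem gp_eq_zero {r : ℕ} (hr : 0 < r) {c : Fin N → ℕ} (h : ¬ goodc r c) : gp N r c = 0 := by
  rw [goodc] at h
  push Not at h
  obtain ⟨i, j, hij, e⟩ := h
  rw [gp, Matrix.det_vandermonde_eq_zero_iff.2 ⟨i, j, (spec_eq_iff hr _ _).2 e, hij⟩, mul_zero]

theorem gp_add (r : ℕ) (c : Fin N → ℕ) (x : Fin N) :
    gp N r (c + Pi.single x 1) = q r ^ (-((N : ℤ) - 1)) *
      (q r ^ (-((N : ℤ) - 1) * ∑ i, (c i : ℤ)) *
        (Matrix.vandermonde (sh (q r) (spec r c) x)).det) := by
  have h1 : ∑ i, (((c + Pi.single x 1 : Fin N → ℕ) i : ℕ) : ℤ) = ∑ i, (c i : ℤ) + 1 := by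
    simp only [Pi.add_apply, Nat.cast_add, Finset.sum_add_distrib]
    congr 1
    rw [Finset.sum_eq_single x]
    · simp
    · intro b _ hb; simp [Pi.single_eq_of_ne hb]
    · intro h; exact absurd (Finset.mem_univ _) h
  rw [gp, h1, spec_add, mul_add, mul_one, zpow_add₀ (q_ne_zero r)]
  ring

theorem gp_ite {r : ℕ} (hr : 0 < r) (c : Fin N → ℕ) (d : ℂ) [Decidable ((pathModel N r).ok c)] :
    (if (pathModel N r).ok c then gp N r c * d else 0) = gp N r c * d := by
  split_ifs with h
  · rfl
  · rw [gp_eq_zero hr h, zero_mul]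

theorem spec_injective {r : ℕ} (hr : 0 < r) {c : Fin N → ℕ} (h : goodc r c) :
    Function.Injective (spec r c) := by
  intro i j e
  by_contra hij
  exact goodc_ne hr h hij e

theorem sum_q (N r : ℕ) : q r ^ (-((N : ℤ) - 1)) * ∑ j : Fin N, q r ^ (2 * (j : ℕ)) =
    ∑ x : Fin N, q r ^ ((N : ℤ) - 1 - 2 * (x : ℕ)) := by
  rw [Finset.mul_sum, ← Equiv.sum_comp Fin.revPerm]
  refine Finset.sum_congr rfl fun x _ => ?_
  rw [← zpow_natCast, ← zpow_add₀ (q_ne_zero r)]
  congr 1
  rw [Fin.revPerm_apply, Fin.val_rev]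
  have := x.2
  push_cast [Nat.cast_sub (by omega : (x : ℕ) + 1 ≤ N)]
  ring

theorem markov_path {r : ℕ} (hr : 0 < r) : (pathModel N r).Markov (gp N r) (alc r)
    (∑ x : Fin N, q r ^ ((N : ℤ) - 1 - 2 * (x : ℕ))) (q r ^ (N : ℤ)) := by
  classical
  have hq := q_ne_zero r
  refine ⟨fun c hc => alc_goodc hc, fun c x hc h => alc_step hc h, fun c hc => ?_,
    fun c x hc hc' => ?_⟩
  · have h1 : ∀ x, (if (pathModel N r).ok (c + Pi.single x 1) then gp N r (c + Pi.single x 1)
        else 0) = gp N r (c + Pi.single x 1) := by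
      intro x
      have := gp_ite hr (c + Pi.single x 1) 1
      simpa using this
    rw [Finset.sum_congr rfl fun x _ => h1 x]
    simp only [gp_add]
    rw [← Finset.mul_sum, ← Finset.mul_sum]
    have h2 : ∀ x, (Matrix.vandermonde (sh (q r) (spec r c) x)).det =
        ((Matrix.vandermonde (spec r c)).updateRow x
          (fun j => Matrix.vandermonde (spec r c) x j * q r ^ (2 * (j : ℕ)))).det := by
      intro x
      rw [sh_eq_update, vandermonde_update]
      congr 2
      ext j
      rw [Matrix.vandermonde_apply, mul_pow, ← pow_mul, mul_comm]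
    simp only [h2]
    rw [sum_det_row_scale, ← sum_q, gp]
    ring
  · have hg' := alc_goodc hc'
    have hinj := spec_injective hr hg'
    rw [spec_add] at hinj
    have hx : ∀ y, y ≠ x → spec r c x ≠ spec r c y := fun y hy =>
      goodc_ne hr (alc_goodc hc) (Ne.symm hy)
    have key := sum_pa hq x hinj hx
    have h1 : ∀ y, (if (pathModel N r).ok (c + Pi.single x 1 + Pi.single y 1) then
        gp N r (c + Pi.single x 1 + Pi.single y 1) * (pathModel N r).α c x y else 0) =
        q r ^ (-((N : ℤ) - 1)) * gp N r (c + Pi.single x 1) *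
          ((∏ i ∈ univ.erase y, ((q r ^ 2 * sh (q r) (spec r c) x y - sh (q r) (spec r c) x i) /
      (sh (q r) (spec r c) x y - sh (q r) (spec r c) x i))) * pa (q r) (spec r c) x y) := by
      intro y
      rw [gp_ite hr, gp_add, spec_add, sh_eq_update (q r) (sh (q r) (spec r c) x) y,
        det_vandermonde_update hinj, gp, spec_add]
      show _ * pa (q r) (spec r c) x y = _
      ring
    simp only [h1]
    rw [← Finset.mul_sum, key, mul_comm (q r ^ (-((N : ℤ) - 1))), mul_assoc, mul_comm]
    congr 1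
    have hN : 0 < N := by have := x.2; omega
    rw [← pow_mul, ← pow_succ', ← zpow_natCast, ← zpow_add₀ hq]
    congr 1
    push_cast [Nat.cast_sub (by omega : 1 ≤ N)]
    ring

end Pool.Agent.Helper15.RT
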