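import Mathlib
import Pool.Agent.Helper15.RT.MarkovPath

open Finset
open scoped Real

namespace Pool.Agent.Helper15.RT

open Pool.Agent.Helper15.AllN

variable {N : ℕ}

theorem om_eq (r : ℕ) : om r = (q r ^ 2)⁻¹ := by
  rw [om, q, ← Complex.exp_nat_mul, ← Complex.exp_neg]
  congr 1
  push_cast
  ring

theorem gp_eq_Smat {r : ℕ} (hN : 0 < N) (hr : 0 < r) : ∃ K : ℂ, K ≠ 0 ∧ ∀ c : Fin N → ℕ,
    Smat N r c (vac N) = K * gp N r c := by
  have hq := q_ne_zero r
  have hnrm : (nrm N r : ℂ) ≠ 0 := by exact_mod_cast (nrm_pos hN hr).ne'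
  refine ⟨Complex.I ^ (N * (N - 1) / 2) / (nrm N r : ℂ) *
    ((Equiv.Perm.sign (Fin.revPerm : Equiv.Perm (Fin N)) : ℤ) : ℂ), ?_, ?_⟩
  · apply mul_ne_zero
    · exact div_ne_zero (pow_ne_zero _ Complex.I_ne_zero) hnrm
    · simp
  · intro c
    rw [Smat_eq]
    have hD : (∏ i, spec r c i ^ (N - 1)) * D N r c (vac N) =
        ((Equiv.Perm.sign (Fin.revPerm : Equiv.Perm (Fin N)) : ℤ) : ℂ) *
          (Matrix.vandermonde (spec r c)).det := by
      rw [← Matrix.det_permute', D, ← Matrix.det_mul_column]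
      congr 1
      ext i j
      rw [Matrix.of_apply, Matrix.of_apply, Matrix.submatrix_apply, Matrix.vandermonde_apply]
      simp only [spec, vac, id_eq, Fin.revPerm_apply, Fin.val_rev]
      rw [om_eq, inv_pow]
      have h1 : (q r ^ 2) ^ (c i * (j : ℕ)) = (q r ^ (2 * c i)) ^ (j : ℕ) := by
        rw [← pow_mul, ← pow_mul]; ring_nf
      have h2 : (q r ^ (2 * c i)) ^ (N - 1) = (q r ^ (2 * c i)) ^ (N - (j + 1)) *
          (q r ^ (2 * c i)) ^ (j : ℕ) := by
        rw [← pow_add]; congr 1; have := j.2; omega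
      rw [h1, h2, mul_assoc, mul_inv_cancel₀ (pow_ne_zero _ (pow_ne_zero _ hq)), mul_one]
    have hprod : (∏ i, spec r c i ^ (N - 1)) = q r ^ (2 * ((N : ℤ) - 1) * ∑ i, (c i : ℤ)) := by
      simp only [spec, ← pow_mul]
      rw [Finset.prod_pow_eq_pow_sum, ← zpow_natCast]
      congr 1
      push_cast [Nat.cast_sub (by omega : 1 ≤ N)]
      rw [Finset.mul_sum]
      refine Finset.sum_congr rfl fun i _ => ?_
      ring
    have hD' : D N r c (vac N) = q r ^ (-(2 * ((N : ℤ) - 1) * ∑ i, (c i : ℤ))) *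
        (((Equiv.Perm.sign (Fin.revPerm : Equiv.Perm (Fin N)) : ℤ) : ℂ) *
          (Matrix.vandermonde (spec r c)).det) := by
      rw [← hD, hprod, ← mul_assoc, ← zpow_add₀ hq, neg_add_cancel, zpow_zero, one_mul]
    have hexp : Complex.exp ((((2 * π / r) * ((∑ i, (c i : ℝ)) * (∑ i, (vac N i : ℝ)) / N) : ℝ) : ℂ) *
        Complex.I) = q r ^ (((N : ℤ) - 1) * ∑ i, (c i : ℤ)) := by
      have hv : (∑ i, (vac N i : ℝ)) = N * ((N : ℝ) - 1) / 2 := by
        have h1 := Finset.sum_range_id_mul_two N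
        have h2 : (∑ i, (vac N i : ℝ)) = ((∑ i ∈ range N, i : ℕ) : ℝ) := by
          simp only [vac]
          rw [Fin.sum_univ_eq_sum_range (fun i : ℕ => (i : ℝ))]
          push_cast; rfl
        rw [h2]
        have h3 : ((∑ i ∈ range N, i : ℕ) : ℝ) * 2 = (N : ℝ) * ((N : ℝ) - 1) := by
          have := congrArg (fun n : ℕ => (n : ℝ)) h1
          push_cast [Nat.cast_sub (by omega : 1 ≤ N)] at this ⊢
          exact this
        linarith
      rw [hv, q, ← Complex.exp_int_mul]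
      congr 1
      push_cast
      have : (N : ℂ) ≠ 0 := by exact_mod_cast hN.ne'
      have hr' : (r : ℂ) ≠ 0 := by exact_mod_cast hr.ne'
      field_simp
    rw [hD', hexp, gp]
    have h7 : q r ^ (((N : ℤ) - 1) * ∑ i, (c i : ℤ)) *
        q r ^ (-(2 * ((N : ℤ) - 1) * ∑ i, (c i : ℤ))) =
        q r ^ (-((N : ℤ) - 1) * ∑ i, (c i : ℤ)) := by
      rw [← zpow_add₀ hq]; congr 1; ring
    rw [← h7]
    ring

theorem Model.Markov.smul {m : Model N} {g : (Fin N → ℕ) → ℂ} {R : (Fin N → ℕ) → Prop}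
    {δ κ : ℂ} (h : m.Markov g R δ κ) (d : ℂ) : m.Markov (fun c => d * g c) R δ κ := by
  classical
  refine ⟨h.ok, h.step, fun c hc => ?_, fun c x hc hc' => ?_⟩
  · have := h.one c hc
    rw [← mul_assoc, mul_comm δ d, mul_assoc, ← this, Finset.mul_sum]
    refine Finset.sum_congr rfl fun x _ => ?_
    rw [mul_ite, mul_zero]
  · have := h.two c x hc hc'
    rw [← mul_assoc, mul_comm κ d, mul_assoc, ← this, Finset.mul_sum]
    refine Finset.sum_congr rfl fun y _ => ?_
    rw [mul_ite, mul_zero, mul_assoc]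

theorem alc_vac {r : ℕ} (h : N ≤ r) : alc r (vac N) := by
  refine ⟨fun i j hij => hij, fun i j => ?_⟩
  show (i : ℕ) < j + r
  have := i.2
  omega

theorem Smat_vac_ne_zero {r : ℕ} (hN : 0 < N) (hNr : N ≤ r) {c : Fin N → ℕ} (hc : alc r c) :
    Smat N r c (vac N) ≠ 0 := by
  have hr : 0 < r := by omega
  obtain ⟨K, hK, h⟩ := gp_eq_Smat hN hr
  rw [h]
  refine mul_ne_zero hK (mul_ne_zero (zpow_ne_zero _ (q_ne_zero r)) ?_)
  rw [Ne, Matrix.det_vandermonde_eq_zero_iff]
  rintro ⟨i, j, e, hij⟩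
  exact hij (spec_injective hr (alc_goodc hc) e)

/-- the quantum trace in the vertex model as a trace in the path model -/
theorem qtrace_eq {r : ℕ} (hN : 0 < N) (hNr : N ≤ r) (M : ℕ) (z : FA) :
    qtrace r ((vertexModel N r).rep 0 M z) =
      (Smat N r (vac N) (vac N))⁻¹ *
        (pathModel N r).tau (fun c => Smat N r c (vac N)) (vac N) M z := by
  have hr : 0 < r := by omega
  obtain ⟨K, hK, h⟩ := gp_eq_Smat hN hr
  have hne := Smat_vac_ne_zero hN hNr (alc_vac hNr)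
  rw [qtrace_eq_tau, ← Model.tau_mul_left]
  have hm := ((markov_path hr (N := N)).smul K).smul ((Smat N r (vac N) (vac N))⁻¹)
  simp only [← h] at hm
  refine tau_unique (heckeRep_vertex r 0) (heckeRep_path hr (vac N)) (markov_vertex r) hm
    trivial (alc_vac hNr) ?_ M z
  rw [gv_zero, inv_mul_cancel₀ hne]

end Pool.Agent.Helper15.RT
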