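import Mathlib
import Pool.Agent.Helper15.RT.Symm
import Pool.Agent.Helper15.RT.VP

open Finset
open scoped Real

namespace Pool.Agent.Helper15.RT

open Pool.Agent.Helper15.AllN

variable {N n : ℕ}

theorem pa_add_pb {t : ℂ} (ht : t ≠ 0) {F : Fin N → ℂ} {x y : Fin N}
    (hF : x ≠ y → F x ≠ F y) : pa t F x y + pb t F x y = t := by
  by_cases h : x = y
  · subst h; simp [pa, pb]
  · rw [pa, pb, if_neg h, if_neg h]
    have h1 : F x - F y ≠ 0 := sub_ne_zero.2 (hF h)
    field_simp
    ring

/-- a function on words which is an eigenfunction of all generators is, extended by zero to the bad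
words, invariant under all exchanges -/
theorem eig_sw {r : ℕ} (hr : 0 < r) {l : Fin N → ℕ} {f : (Fin n → Fin N) → ℂ}
    (hf : ∀ j, j + 1 < n → ((pathModel N r).mat l n j).mulVec f = q r • f) {j : ℕ}
    (hj : j + 1 < n) (w : Fin n → Fin N) (hw : (pathModel N r).good l w) :
    ((pathModel N r).good l (sw j w) → f (sw j w) = f w) ∧
      (¬ (pathModel N r).good l (sw j w) → f w = 0) := by
  have h := congrFun (hf j hj) w
  rw [Model.mat, dif_pos hj, two_mulVec, if_pos hw, Pi.smul_apply, smul_eq_mul] at h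
  have hw' : good r l w := hw
  by_cases he : w ⟨j, by omega⟩ = w ⟨j + 1, hj⟩
  · rw [sw_self hj he]
    exact ⟨fun _ => rfl, fun h => absurd hw h⟩
  have hne : spec r (cfg l w j) (w ⟨j, by omega⟩) ≠ spec r (cfg l w j) (w ⟨j + 1, hj⟩) :=
    goodc_ne hr (hw' j (by omega)) he
  have hsum := pa_add_pb (q_ne_zero r) (F := spec r (cfg l w j)) (fun _ => hne)
  have hpb : pb (q r) (spec r (cfg l w j)) (w ⟨j, by omega⟩) (w ⟨j + 1, hj⟩) ≠ 0 := by
    rw [pb, if_neg he]
    refine div_ne_zero ?_ (sub_ne_zero.2 hne)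
    have h1 := good_step hr hw' (by omega : j < n) he
    have hq := q_ne_zero r
    intro h2
    apply h1
    have h3 : q r * (q r * spec r (cfg l w j) (w ⟨j, by omega⟩)) =
        q r * ((q r)⁻¹ * spec r (cfg l w j) (w ⟨j + 1, hj⟩)) := by
      rw [sub_eq_zero.1 h2]
    rw [← mul_assoc, ← mul_assoc, mul_inv_cancel₀ hq, one_mul] at h3
    rw [← h3]; ring
  change pa (q r) (spec r (cfg l w j)) (w ⟨j, by omega⟩) (w ⟨j + 1, hj⟩) * f w + _ = _ at h
  constructor
  · intro hs
    rw [if_pos ⟨hw, hs⟩] at h
    change _ + pb (q r) (spec r (cfg l w j)) (w ⟨j, by omega⟩) (w ⟨j + 1, hj⟩) * _ = _ at h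
    have h4 : pb (q r) (spec r (cfg l w j)) (w ⟨j, by omega⟩) (w ⟨j + 1, hj⟩) *
        (f (sw j w) - f w) = 0 := by linear_combination h - f w * hsum
    rcases mul_eq_zero.1 h4 with h5 | h5
    · exact absurd h5 hpb
    · exact sub_eq_zero.1 h5
  · intro hs
    rw [if_neg (fun h => hs h.2), zero_mul, add_zero] at h
    have h4 : pb (q r) (spec r (cfg l w j)) (w ⟨j, by omega⟩) (w ⟨j + 1, hj⟩) * f w = 0 := by
      linear_combination f w * hsum - h
    rcases mul_eq_zero.1 h4 with h5 | h5
    · exact absurd h5 hpb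
    · exact h5

open scoped Classical in
/-- extension by zero -/
noncomputable def ext0 (r : ℕ) (l : Fin N → ℕ) (f : (Fin n → Fin N) → ℂ) (w : Fin n → Fin N) : ℂ :=
  if (pathModel N r).good l w then f w else 0

theorem ext0_sw {r : ℕ} (hr : 0 < r) {l : Fin N → ℕ} {f : (Fin n → Fin N) → ℂ}
    (hf : ∀ j, j + 1 < n → ((pathModel N r).mat l n j).mulVec f = q r • f) {j : ℕ}
    (hj : j + 1 < n) (w : Fin n → Fin N) : ext0 r l f (sw j w) = ext0 r l f w := by
  classical
  rw [ext0, ext0]
  by_cases hw : (pathModel N r).good l w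
  · by_cases hs : (pathModel N r).good l (sw j w)
    · rw [if_pos hw, if_pos hs]
      exact (eig_sw hr hf hj w hw).1 hs
    · rw [if_pos hw, if_neg hs]
      exact ((eig_sw hr hf hj w hw).2 hs).symm
  · by_cases hs : (pathModel N r).good l (sw j w)
    · rw [if_neg hw, if_pos hs]
      have := (eig_sw hr hf hj (sw j w) hs).2
      rw [sw_sw] at this
      exact this hw
    · rw [if_neg hw, if_neg hs]

theorem ext0_perm {r : ℕ} (hr : 0 < r) {l : Fin N → ℕ} {f : (Fin n → Fin N) → ℂ}
    (hf : ∀ j, j + 1 < n → ((pathModel N r).mat l n j).mulVec f = q r • f)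
    (σ : Equiv.Perm (Fin n)) (w : Fin n → Fin N) : ext0 r l f (w ∘ σ) = ext0 r l f w := by
  rcases n with _ | n
  · congr 1
    exact Subsingleton.elim _ _
  · have hσ : σ ∈ Submonoid.closure
        (Set.range fun i : Fin n => Equiv.swap i.castSucc i.succ) := by
      rw [Equiv.Perm.mclosure_swap_castSucc_succ]; trivial
    induction hσ using Submonoid.closure_induction_left generalizing w with
    | one => rfl
    | mul_left x hx y hy ih =>
      obtain ⟨i, rfl⟩ := hx
      have h1 : w ∘ (Equiv.swap i.castSucc i.succ * y : Equiv.Perm (Fin (n + 1))) =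
          (sw (i : ℕ) w) ∘ y := by
        have hi : (i : ℕ) + 1 < n + 1 := by have := i.2; omega
        rw [sw_eq hi]
        rfl
      rw [h1, ih]
      exact ext0_sw hr hf (by have := i.2; omega) w

theorem exists_perm {l : Fin N → ℕ} {w w' : Fin n → Fin N} (h : cfg l w n = cfg l w' n) :
    ∃ σ : Equiv.Perm (Fin n), w' = w ∘ σ := by
  have hc : ∀ i : Fin N, Fintype.card {a : Fin n // w' a = i} =
      Fintype.card {a : Fin n // w a = i} := by
    intro i
    rw [Fintype.card_subtype, Fintype.card_subtype]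
    have := congrFun h i
    simp only [cfg] at this
    have e1 : ∀ v : Fin n → Fin N, (univ.filter fun s : Fin n => (s : ℕ) < n ∧ v s = i) =
        univ.filter fun s : Fin n => v s = i := by
      intro v
      ext s
      simp
    rw [e1, e1] at this
    omega
  refine ⟨Equiv.ofFiberEquiv (f := w') (g := w) fun i => Fintype.equivOfCardEq (hc i), ?_⟩
  ext a
  rw [Function.comp_apply]
  exact congrArg Fin.val (Equiv.ofFiberEquiv_map (f := w') (g := w)
    (fun i => Fintype.equivOfCardEq (hc i)) a).symm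

theorem cfg_comp_perm (l : Fin N → ℕ) (w : Fin n → Fin N) (σ : Equiv.Perm (Fin n)) :
    cfg l (w ∘ σ) n = cfg l w n := by
  ext i
  simp only [cfg]
  congr 1
  refine Finset.card_bij' (fun s _ => σ s) (fun s _ => σ⁻¹ s) ?_ ?_ ?_ ?_
  · intro s hs
    simp only [mem_filter, mem_univ, true_and, Function.comp_apply] at hs ⊢
    exact ⟨(σ s).2, hs.2⟩
  · intro s hs
    simp only [mem_filter, mem_univ, true_and, Function.comp_apply] at hs ⊢
    exact ⟨(σ⁻¹ s).2, by simpa using hs.2⟩
  · intro s _; simp
  · intro s _; simp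

theorem le_cfg (l : Fin N → ℕ) (w : Fin n → Fin N) (t : ℕ) (i : Fin N) : l i ≤ cfg l w t i :=
  Nat.le_add_right _ _

theorem cfg_mono (l : Fin N → ℕ) (w : Fin n → Fin N) {t t' : ℕ} (h : t ≤ t') (i : Fin N) :
    cfg l w t i ≤ cfg l w t' i := by
  simp only [cfg]
  refine Nat.add_le_add_left (Finset.card_le_card fun s hs => ?_) _
  simp only [mem_filter, mem_univ, true_and] at hs ⊢
  exact ⟨by omega, hs.2⟩

theorem sum_cfg (l : Fin N → ℕ) (w : Fin n → Fin N) : ∑ i, cfg l w n i = ∑ i, l i + n := by
  simp only [cfg, Finset.sum_add_distrib]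
  congr 1
  have := Finset.card_eq_sum_card_fiberwise (s := (univ : Finset (Fin n))) (t := univ) (f := w)
    (fun _ _ => Finset.mem_coe.2 (Finset.mem_univ _))
  rw [Finset.card_univ, Fintype.card_fin] at this
  refine Eq.trans (Finset.sum_congr rfl fun i _ => ?_) this.symm
  congr 1
  ext s
  simp

theorem good_of_strip {r : ℕ} {l : Fin N → ℕ} {w : Fin n → Fin N}
    (h : cfg l w n ∈ strips N r n l) : (pathModel N r).good l w := by
  obtain ⟨-, h1, h2, -⟩ := Finset.mem_filter.1 h
  intro t ht
  show goodc r (cfg l w t)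
  have key : ∀ i j : Fin N, i < j → ¬ (cfg l w t i ≡ cfg l w t j [MOD r]) := by
    intro i j hij e
    have a1 := h1 i j hij
    have a2 := h2 j i
    have a3 := cfg_mono l w ht i
    have a4 := cfg_mono l w ht j
    have a5 := le_cfg l w t i
    have a6 := le_cfg l w t j
    rw [Nat.modEq_iff_dvd' (by omega)] at e
    have := Nat.le_of_dvd (by omega) e
    omega
  intro i j hij e
  rcases lt_or_gt_of_ne hij with h3 | h3
  · exact key i j h3 e
  · exact key j i h3 e.symm

/-- a rearrangement with all letters `i` in front -/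
theorem exists_front (l : Fin N → ℕ) (w : Fin n → Fin N) (i : Fin N) :
    ∃ w' : Fin n → Fin N, cfg l w' n = cfg l w n ∧
      ∀ t, l i + t ≤ cfg l w n i → cfg l w' t i = l i + t ∧ ∀ j, j ≠ i → cfg l w' t j = l j := by
  set f : Fin n → ℕ := fun s => if w s = i then 0 else 1 with hf
  set σ := Tuple.sort f with hσ
  have hmono := Tuple.monotone_sort f
  refine ⟨w ∘ σ, cfg_comp_perm l w σ, fun t ht => ?_⟩
  set d := #{s : Fin n | (s : ℕ) < n ∧ w s = i} with hd
  have htd : t ≤ d := by
    simp only [cfg, ← hd] at ht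
    omega
  have hdc : #{s : Fin n | (w ∘ σ) s = i} = d := by
    have := congrFun (cfg_comp_perm l w σ) i
    simp only [cfg, ← hd] at this
    have e1 : (univ.filter fun s : Fin n => (w ∘ σ) s = i) =
        univ.filter fun s : Fin n => (s : ℕ) < n ∧ (w ∘ σ) s = i := by
      ext s; simp
    rw [e1]; omega
  have hfront : ∀ s : Fin n, (s : ℕ) < d → (w ∘ σ) s = i := by
    intro s hs
    by_contra hne
    have h1 : f (σ s) = 1 := if_neg hne
    have h2 : (univ.filter fun s' : Fin n => (w ∘ σ) s' = i) ⊆ Finset.Iio s := by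
      intro s' hs'
      rw [Finset.mem_Iio]
      by_contra hge
      have h3 : f (σ s) ≤ f (σ s') := hmono (not_lt.1 hge)
      have h4 : f (σ s') = 0 := if_pos (Finset.mem_filter.1 hs').2
      omega
    have h3 := Finset.card_le_card h2
    rw [hdc, Fin.card_Iio] at h3
    omega
  have hn : d ≤ n := by
    rw [hd]
    exact (Finset.card_le_univ _).trans (by simp)
  constructor
  · simp only [cfg]
    congr 1
    have : (univ.filter fun s : Fin n => (s : ℕ) < t ∧ (w ∘ σ) s = i) =
        (univ.filter fun s : Fin n => (s : ℕ) < t) := by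
      ext s
      simp only [mem_filter, mem_univ, true_and]
      exact ⟨fun h => h.1, fun h => ⟨h, hfront s (by omega)⟩⟩
    rw [this, Fin.card_filter_val_lt]
    omega
  · intro j hj
    simp only [cfg]
    have : (univ.filter fun s : Fin n => (s : ℕ) < t ∧ (w ∘ σ) s = j) = ∅ := by
      ext s
      simp only [mem_filter, mem_univ, true_and, notMem_empty, iff_false, not_and]
      intro h1 h2
      exact hj (h2.symm.trans (hfront s (by omega)))
    rw [this]; simp

theorem exists_bad {r : ℕ} {l : Fin N → ℕ} (hl : alc r l) (hn : n < r) {w : Fin n → Fin N}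
    (h : cfg l w n ∉ strips N r n l) :
    ∃ w' : Fin n → Fin N, cfg l w' n = cfg l w n ∧ ¬ (pathModel N r).good l w' := by
  have hle : ∀ i, cfg l w n i ≤ l i + n := by
    intro i
    simp only [cfg]
    refine Nat.add_le_add_left ((Finset.card_le_univ _).trans (by simp)) _
  have hcase : (∃ i j, i < j ∧ l j ≤ cfg l w n i) ∨ (∃ i j, l j + r ≤ cfg l w n i) := by
    by_contra hc
    push Not at hc
    apply h
    rw [strips, Finset.mem_filter, Fintype.mem_piFinset]
    refine ⟨fun i => Finset.mem_Ico.2 ⟨le_cfg l w n i, ?_⟩, fun i j hij => hc.1 i j hij,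
      fun i j => hc.2 i j, sum_cfg l w⟩
    have := hle i
    omega
  rcases hcase with ⟨i, j, hij, hc⟩ | ⟨i, j, hc⟩
  · obtain ⟨w', h1, h2⟩ := exists_front l w i
    refine ⟨w', h1, fun hg => ?_⟩
    have hlt := hl.1 hij
    obtain ⟨h3, h4⟩ := h2 (l j - l i) (by omega)
    have h5 := hle i
    have h6 : goodc r (cfg l w' (l j - l i)) := hg (l j - l i) (by omega)
    apply h6 i j (ne_of_lt hij)
    rw [h3, h4 j (ne_of_gt hij)]
    have : l i + (l j - l i) = l j := by omega
    rw [this]
  · have hij : j ≠ i := by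
      rintro rfl
      have := hle j
      omega
    obtain ⟨w', h1, h2⟩ := exists_front l w i
    refine ⟨w', h1, fun hg => ?_⟩
    have hlt := hl.2 i j
    obtain ⟨h3, h4⟩ := h2 (l j + r - l i) (by omega)
    have h5 := hle i
    have h6 : goodc r (cfg l w' (l j + r - l i)) := hg (l j + r - l i) (by omega)
    apply h6 i j (Ne.symm hij)
    rw [h3, h4 j hij]
    have : l i + (l j + r - l i) = l j + r := by omega
    rw [this]
    exact Nat.add_modEq_right

theorem exists_word (l : Fin N → ℕ) : ∀ (n : ℕ) (l' : Fin N → ℕ), (∀ i, l i ≤ l' i) →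
    ∑ i, l' i = ∑ i, l i + n → ∃ w : Fin n → Fin N, cfg l w n = l' := by
  intro n
  induction n with
  | zero =>
    intro l' h1 h2
    refine ⟨Fin.elim0, ?_⟩
    rw [cfg_zero]
    rw [add_zero] at h2
    have := (Finset.sum_eq_sum_iff_of_le (fun i _ => h1 i)).1 h2.symm
    ext i
    exact this i (Finset.mem_univ i)
  | succ n ih =>
    intro l' h1 h2
    obtain ⟨i, hi⟩ : ∃ i, l i < l' i := by
      by_contra hc
      push Not at hc
      have : ∑ i, l' i ≤ ∑ i, l i := Finset.sum_le_sum fun i _ => hc i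
      omega
    have h3 : (l' - Pi.single i 1) + Pi.single i 1 = l' := by
      ext j
      by_cases hj : j = i
      · subst hj; simp; omega
      · simp [Pi.single_eq_of_ne hj]
    have h4 : ∑ j, (l' - Pi.single i 1 : Fin N → ℕ) j = ∑ j, l j + n := by
      have h5 : ∑ j, l' j = ∑ j, (l' - Pi.single i 1 : Fin N → ℕ) j + 1 := by
        conv_lhs => rw [← h3]
        simp only [Pi.add_apply, Finset.sum_add_distrib]
        simp
      omega
    have h6 : ∀ j, l j ≤ (l' - Pi.single i 1 : Fin N → ℕ) j := by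
      intro j
      by_cases hj : j = i
      · subst hj; simp; omega
      · simpa [Pi.single_eq_of_ne hj] using h1 j
    obtain ⟨w, hw⟩ := ih _ h6 h4
    refine ⟨Fin.append w (fun _ : Fin 1 => i), ?_⟩
    rw [cfg_append_right l w _ le_rfl, hw, Model.cfg_one, h3]

theorem quantum_ne_zero {r : ℕ} (hr : 0 < r) {k : ℕ} (hk : k < r) (h1 : 1 ≤ k) :
    ∑ i ∈ range k, q r ^ (2 * i) ≠ 0 := by
  intro h
  have h2 : (∑ i ∈ range k, (q r ^ 2) ^ i) * (q r ^ 2 - 1) = (q r ^ 2) ^ k - 1 := by
    rw [geom_sum_mul]
  simp only [← pow_mul] at h2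
  rw [h, zero_mul] at h2
  have h3 := (q_sq_pow_eq_one_iff hr k).1 (sub_eq_zero.1 h2.symm)
  have := Nat.le_of_dvd (by omega) h3
  omega

/-- the trace of the symmetriser -/
theorem tau_symm {r : ℕ} {l : Fin N → ℕ} (hl : alc r l) (hn : n < r) (g : (Fin N → ℕ) → ℂ) :
    (pathModel N r).tau g l n (symm (q r) X 0 n) = ∑ l' ∈ strips N r n l, g l' := by
  classical
  have hr : 0 < r := by omega
  set S := (pathModel N r).rep l n (symm (q r) X 0 n) with hS
  have hSe : S = symm (q r) ((pathModel N r).mat l n) 0 n := by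
    rw [hS, map_symm]
    simp only [Model.rep_X]
  have hH := heckeRep_path hr l n (N := N)
  have heig : ∀ j, j + 1 < n → (pathModel N r).mat l n j * S = q r • S := by
    intro j hj
    have := s_mul_symm hH (q_ne_zero r) (o := 0) (n := n) (by omega) hj
    rw [zero_add] at this
    rw [hSe]
    exact this
  have hcol : ∀ w' j, j + 1 < n → ((pathModel N r).mat l n j).mulVec (fun w => S w w') =
      q r • (fun w => S w w') := by
    intro w' j hj
    ext w
    have := congrFun (congrFun (heig j hj) w) w'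
    rw [Matrix.mul_apply] at this
    exact this
  rw [Model.tau]
  have hterm : ∀ w : Fin n → Fin N, (if (pathModel N r).good l w then g (cfg l w n) * S w w
      else 0) = if cfg l w n ∈ strips N r n l then g (cfg l w n) * S w w else 0 := by
    intro w
    by_cases hs : cfg l w n ∈ strips N r n l
    · rw [if_pos hs, if_pos (good_of_strip hs)]
    · rw [if_neg hs]
      split_ifs with hg
      · obtain ⟨w', h1, h2⟩ := exists_bad hl hn hs
        obtain ⟨σ, rfl⟩ := exists_perm h1.symm
        have h3 := ext0_perm hr (hcol w) σ w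
        rw [ext0, ext0, if_neg h2, if_pos hg] at h3
        rw [← h3, mul_zero]
      · rfl
  rw [Finset.sum_congr rfl fun w _ => hterm w, ← Finset.sum_filter,
    ← Finset.sum_fiberwise_of_maps_to (t := strips N r n l) (g := fun w => cfg l w n)
      (fun w hw => (Finset.mem_filter.1 hw).2)]
  refine Finset.sum_congr rfl fun l' hl' => ?_
  obtain ⟨hmem, -, -, hsum⟩ := Finset.mem_filter.1 hl'
  obtain ⟨w₀, hw₀⟩ := exists_word l n l' (fun i => (Finset.mem_Ico.1
    (Fintype.mem_piFinset.1 hmem i)).1) hsum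
  have hg₀ : (pathModel N r).good l w₀ := good_of_strip (by rw [hw₀]; exact hl')
  have hfil : ((univ.filter fun w : Fin n → Fin N => cfg l w n ∈ strips N r n l).filter
      fun w => cfg l w n = l') = univ.filter fun w : Fin n → Fin N => cfg l w n = l' := by
    ext w
    simp only [mem_filter, mem_univ, true_and]
    exact ⟨fun h => h.2, fun h => ⟨by rw [h]; exact hl', h⟩⟩
  rw [hfil]
  have h1 : ∀ w ∈ univ.filter fun w : Fin n → Fin N => cfg l w n = l',
      g (cfg l w n) * S w w = g l' * S w₀ w := by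
    intro w hw
    have hw' := (Finset.mem_filter.1 hw).2
    have hgw : (pathModel N r).good l w := good_of_strip (by rw [hw']; exact hl')
    obtain ⟨σ, rfl⟩ := exists_perm (hw₀.trans hw'.symm)
    have h3 := ext0_perm hr (hcol (w₀ ∘ σ)) σ w₀
    rw [ext0, ext0, if_pos hgw, if_pos hg₀] at h3
    rw [hw', h3]
  rw [Finset.sum_congr rfl h1, ← Finset.mul_sum]
  set E : Matrix (Fin n → Fin N) (Fin n → Fin N) ℂ := fun w _ => if cfg l w n = l' then 1 else 0
    with hE
  have hEe : ∀ j, j + 1 < n → (pathModel N r).mat l n j * E = q r • E := by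
    intro j hj
    ext w w'
    rw [Matrix.mul_apply]
    have h4 := two_mulVec (fun w => if (pathModel N r).good l w then
      (pathModel N r).α (cfg l w j) (w ⟨j, by omega⟩) (w ⟨j + 1, hj⟩) else (pathModel N r).t)
      (fun w => if (pathModel N r).good l w ∧ (pathModel N r).good l (sw j w) then
        (pathModel N r).β (cfg l w j) (w ⟨j, by omega⟩) (w ⟨j + 1, hj⟩) else 0) (sw j)
      (fun w => E w w') w
    rw [Matrix.mulVec, dotProduct] at h4
    rw [Model.mat, dif_pos hj]
    refine h4.trans ?_
    simp only [hE, cfg_sw_of_ge l w hj (by omega : j + 2 ≤ n)]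
    change _ = q r * (if cfg l w n = l' then 1 else 0)
    by_cases hw : cfg l w n = l'
    · have hgw : (pathModel N r).good l w := good_of_strip (by rw [hw]; exact hl')
      have hgs : (pathModel N r).good l (sw j w) := good_of_strip (by
        rw [cfg_sw_of_ge l w hj (by omega), hw]; exact hl')
      simp only [if_pos hw, if_pos hgw, if_pos (And.intro hgw hgs), mul_one]
      exact pa_add_pb (q_ne_zero r) fun he => goodc_ne hr (hgw j (by omega)) he
    · simp only [if_neg hw, mul_zero, add_zero]
  have hSE : S * E = E := by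
    rw [hSe]
    refine symm_mul_of_eig (fun k hk h1 => quantum_ne_zero hr (by omega) h1) ?_
    intro j hj
    rw [zero_add]
    exact hEe j hj
  have h5 := congrFun (congrFun hSE w₀) w₀
  rw [Matrix.mul_apply] at h5
  simp only [hE, mul_ite, mul_one, mul_zero, if_pos hw₀] at h5
  rw [← Finset.sum_filter] at h5
  rw [h5, mul_one]

end Pool.Agent.Helper15.RT
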