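import Mathlib
import Pool.Agent.Helper15.RT.SymmTrace
import Pool.Agent.Helper21.AEC.SMat
import Pool.Agent.Helper21.AEC.Pieri
import Pool.Agent.Helper21.AEC.Braid

open Finset
open scoped Real

namespace Pool.Agent.Helper15.RT

open Pool.Agent.Helper15.AllN

variable {N : ℕ}

namespace Model

variable {m : Model N}

theorem tau_zero (g : (Fin N → ℕ) → ℂ) (l : Fin N → ℕ) (M : ℕ) : m.tau g l M 0 = 0 := by
  have := m.tau_smul g l M 0 0
  rwa [zero_smul, zero_mul] at this

theorem tau_sum {ι : Type*} (s : Finset ι) (g : (Fin N → ℕ) → ℂ) (l : Fin N → ℕ) (M : ℕ)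
    (z : ι → FA) : m.tau g l M (∑ i ∈ s, z i) = ∑ i ∈ s, m.tau g l M (z i) := by
  classical
  induction s using Finset.induction_on with
  | empty => rw [Finset.sum_empty, Finset.sum_empty, tau_zero]
  | insert a s ha ih => rw [Finset.sum_insert ha, Finset.sum_insert ha, m.tau_add, ih]

theorem tau_sum_left {ι : Type*} (s : Finset ι) (g : ι → (Fin N → ℕ) → ℂ) (l : Fin N → ℕ)
    (M : ℕ) (z : FA) : m.tau (fun c => ∑ i ∈ s, g i c) l M z = ∑ i ∈ s, m.tau (g i) l M z := by
  classical
  simp only [tau]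
  rw [Finset.sum_comm]
  refine Finset.sum_congr rfl fun w _ => ?_
  by_cases hw : m.good l w
  · simp only [if_pos hw, Finset.sum_mul]
  · simp only [if_neg hw, Finset.sum_const_zero]

theorem tau_eq_of_rep {g : (Fin N → ℕ) → ℂ} {l : Fin N → ℕ} {M : ℕ} {z z' : FA}
    (h : m.rep l M z = m.rep l M z') : m.tau g l M z = m.tau g l M z' := by
  rw [← lin_rep, ← lin_rep, h]

end Model

theorem alc_cfg {r n : ℕ} {l : Fin N → ℕ} (hl : alc r l) {w : Fin n → Fin N}
    (hw : (pathModel N r).good l w) : alc r (cfg l w n) :=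
  Model.reach (m := pathModel N r) (R := alc r) (fun _ _ h h' => alc_step h h') hl hw le_rfl

theorem Smat_comm (N r : ℕ) (x y : Fin N → ℕ) : Smat N r x y = Smat N r y x := by
  rw [Smat_eq, Smat_eq, D_symm, mul_comm (∑ i, (x i : ℝ))]

theorem colors_alc {r : ℕ} {x : Fin N → ℕ} (hx : x ∈ colors N r) : alc r x := by
  obtain ⟨h1, h2, -⟩ := Finset.mem_filter.1 hx
  refine ⟨h2, fun i j => ?_⟩
  have := Finset.mem_range.1 (Fintype.mem_piFinset.1 h1 i)
  omega

theorem colors_lt {r : ℕ} {x : Fin N → ℕ} (hx : x ∈ colors N r) (i : Fin N) : x i < r :=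
  Finset.mem_range.1 (Fintype.mem_piFinset.1 (Finset.mem_filter.1 hx).1 i)

theorem Smat_vac_ne {r : ℕ} (hN : 0 < N) (hNr : N ≤ r) {y : Fin N → ℕ} (hy : y ∈ colors N r) :
    Smat N r (vac N) y ≠ 0 := by
  rw [Smat_comm]
  exact Smat_vac_ne_zero hN hNr (colors_alc hy)

theorem val_le {x : Fin N → ℕ} (hx : StrictMono x) (i : Fin N) : (i : ℕ) ≤ x i := by
  obtain ⟨i, hi⟩ := i
  induction i with
  | zero => exact Nat.zero_le _
  | succ i ih =>
    have h1 := ih (by omega)
    have h2 : x ⟨i, by omega⟩ < x ⟨i + 1, hi⟩ := hx (by simp [Fin.lt_def])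
    simp only at h1 h2 ⊢
    omega

theorem sum_boxes {x : Fin N → ℕ} (hx : StrictMono x) :
    ∑ i, x i = ∑ i : Fin N, (i : ℕ) + boxes x := by
  rw [boxes, ← Finset.sum_add_distrib]
  refine Finset.sum_congr rfl fun i _ => ?_
  have := val_le hx i
  omega

theorem symms_shift (t : ℂ) (a : ℕ) (L : List ℕ) (o : ℕ) :
    shf a (symms t X o L) = symms t X (a + o) L := by
  induction L generalizing o with
  | nil => exact map_one _
  | cons n L ih =>
    rw [symms, symms, map_mul, shf_symm, ih, add_assoc]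

theorem symms_mem_Bd (t : ℂ) (L : List ℕ) (o : ℕ) : symms t X o L ∈ Bd (o + L.sum - 1) := by
  induction L generalizing o with
  | nil => exact one_mem _
  | cons n L ih =>
    rw [symms, List.sum_cons]
    exact mul_mem (Bd_mono (by omega) (symm_mem_Bd t o n)) (Bd_mono (by omega) (ih (o + n)))

theorem tau_symms {r : ℕ} {y : Fin N → ℕ} {h : ℕ → ℂ}
    (hp : ∀ n < r, ∀ l : Fin N → ℕ, alc r l →
      ∑ l' ∈ strips N r n l, Smat N r l' y = h n * Smat N r l y)
    (L : List ℕ) (hL : ∀ n ∈ L, n < r) (l : Fin N → ℕ) (hl : alc r l) :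
    (pathModel N r).tau (fun c => Smat N r c y) l L.sum (symms (q r) X 0 L) =
      (L.map h).prod * Smat N r l y := by
  classical
  induction L generalizing l with
  | nil =>
    have h0 : (pathModel N r).good l (Fin.elim0 : Fin 0 → Fin N) := by
      intro t ht
      obtain rfl : t = 0 := by omega
      rw [cfg_zero]
      exact alc_goodc hl
    rw [symms, List.sum_nil, Model.tau, List.map_nil, List.prod_nil, one_mul,
      Fintype.sum_unique, map_one]
    have e : (default : Fin 0 → Fin N) = Fin.elim0 := Subsingleton.elim _ _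
    rw [e, if_pos h0, cfg_zero, Matrix.one_apply_eq, mul_one]
  | cons n L ih =>
    rw [symms, List.sum_cons, List.map_cons, List.prod_cons, zero_add]
    have e : symms (q r) X n L = shf n (symms (q r) X 0 L) := by
      rw [symms_shift, add_zero]
    have hs := symm_mem_Bd (q r) 0 n
    rw [zero_add] at hs
    rw [e, Model.tau_segment _ _ _ _ _ hs]
    have hc : (pathModel N r).tau
        (fun l' => (pathModel N r).tau (fun c => Smat N r c y) l' L.sum (symms (q r) X 0 L)) l n
          (symm (q r) X 0 n) =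
        (pathModel N r).tau (fun l' => (L.map h).prod * Smat N r l' y) l n
          (symm (q r) X 0 n) := by
      apply Model.tau_congr
      intro w hw
      exact ih (fun k hk => hL k (List.mem_cons_of_mem _ hk)) _ (alc_cfg hl hw)
    rw [hc, Model.tau_mul_left, tau_symm hl (hL n List.mem_cons_self), hp n
      (hL n List.mem_cons_self) l hl]
    ring

/-- the trace of a colour -/
theorem tau_colour {r : ℕ} (hN : 0 < N) (hNr : N ≤ r) {x y : Fin N → ℕ} (hx : x ∈ colors N r)
    (hy : y ∈ colors N r) {l : Fin N → ℕ} (hl : alc r l) :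
    (pathModel N r).tau (fun c => Smat N r c y) l (boxes x) (colourElt (q r) X 0 x) =
      Smat N r x y / Smat N r (vac N) y * Smat N r l y := by
  have hr : 0 < r := by omega
  obtain ⟨h, hp, hj⟩ := Pool.Agent.Helper21.AEC.pieri_jt hN hr y
  have hmono := (Finset.mem_filter.1 hx).2.1
  have hne := Smat_vac_ne hN hNr hy
  rw [colourElt, Model.tau_sum]
  have hterm : ∀ p : Equiv.Perm (Fin N), (pathModel N r).tau (fun c => Smat N r c y) l (boxes x)
      (if ∀ a, (p a : ℕ) ≤ x a then ((Equiv.Perm.sign p : ℤ) : ℂ) •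
        symms (q r) X 0 (List.ofFn fun a => x a - (p a : ℕ)) else 0) =
      (if ∀ a, (p a : ℕ) ≤ x a then ((Equiv.Perm.sign p : ℤ) : ℂ) *
        ∏ a, h (x a - (p a : ℕ)) else 0) * Smat N r l y := by
    intro p
    split_ifs with hpx
    · have hsum : (List.ofFn fun a => x a - (p a : ℕ)).sum = boxes x := by
        rw [List.sum_ofFn]
        have h1 := sum_boxes hmono
        have h2 : ∑ a, x a = ∑ a, (x a - (p a : ℕ)) + ∑ a, (p a : ℕ) := by
          rw [← Finset.sum_add_distrib]
          refine Finset.sum_congr rfl fun a _ => ?_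
          have := hpx a
          omega
        have h3 : ∑ a, (p a : ℕ) = ∑ i : Fin N, (i : ℕ) :=
          Equiv.sum_comp p (fun i : Fin N => (i : ℕ))
        omega
      rw [Model.tau_smul, ← hsum, tau_symms hp _ ?_ l hl, List.map_ofFn, List.prod_ofFn, mul_assoc]
      · rfl
      · intro n hn
        obtain ⟨a, rfl⟩ := (List.mem_ofFn' _ _).1 hn
        have := colors_lt hx a
        show x a - (p a : ℕ) < r
        omega
    · rw [Model.tau_zero, zero_mul]
  rw [Finset.sum_congr rfl fun p _ => hterm p, ← Finset.sum_mul]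
  congr 1
  rw [eq_div_iff hne]
  exact hj x

theorem alc_sum_cfg {n : ℕ} (w : Fin n → Fin N) :
    ∑ i, cfg (vac N) w n i = ∑ i : Fin N, (i : ℕ) + n := by
  rw [sum_cfg]
  rfl

/-- from the vacuum, a colour is a projection to the corresponding configuration -/
theorem tau_vac_colour {r : ℕ} (hN : 0 < N) (hNr : N ≤ r) {x : Fin N → ℕ} (hx : x ∈ colors N r)
    (g : (Fin N → ℕ) → ℂ) :
    (pathModel N r).tau g (vac N) (boxes x) (colourElt (q r) X 0 x) = g x := by
  classical
  have hr : 0 < r := by omega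
  have hmono := (Finset.mem_filter.1 hx).2.1
  have hvac := alc_vac (N := N) hNr
  set E : Finset (Fin N → ℕ) := insert x ((univ.filter fun w : Fin (boxes x) → Fin N =>
    (pathModel N r).good (vac N) w).image fun w => cfg (vac N) w (boxes x)) with hE
  have hEp : ∀ μ ∈ E, alc r μ ∧ ∑ i, μ i = ∑ i : Fin N, (i : ℕ) + boxes x := by
    intro μ hμ
    rcases Finset.mem_insert.1 hμ with rfl | hμ
    · exact ⟨colors_alc hx, sum_boxes hmono⟩
    · obtain ⟨w, hw, rfl⟩ := Finset.mem_image.1 hμ
      exact ⟨alc_cfg hvac (Finset.mem_filter.1 hw).2, alc_sum_cfg w⟩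
  have horth : ∀ lam ∈ E, ∀ μ ∈ E,
      ∑ v ∈ colors N r, Smat N r lam v * (starRingEnd ℂ) (Smat N r μ v) =
        if lam = μ then 1 else 0 := by
    intro lam hlam μ hμ
    obtain ⟨h1, h2⟩ := hEp lam hlam
    obtain ⟨h3, h4⟩ := hEp μ hμ
    exact Pool.Agent.Helper21.AEC.orth hN hr h1.1 h3.1 h1.2 h3.2 (h2.trans h4.symm)
  have hexp : ∀ lam ∈ E, g lam = ∑ μ ∈ E, ∑ v ∈ colors N r,
      (g μ * (starRingEnd ℂ) (Smat N r μ v)) * Smat N r lam v := by
    intro lam hlam
    have h1 : ∀ μ ∈ E, ∑ v ∈ colors N r, (g μ * (starRingEnd ℂ) (Smat N r μ v)) *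
        Smat N r lam v = if μ = lam then g μ else 0 := by
      intro μ hμ
      have h2 := horth lam hlam μ hμ
      have h3 : ∑ v ∈ colors N r, (g μ * (starRingEnd ℂ) (Smat N r μ v)) * Smat N r lam v =
          g μ * ∑ v ∈ colors N r, Smat N r lam v * (starRingEnd ℂ) (Smat N r μ v) := by
        rw [Finset.mul_sum]
        exact Finset.sum_congr rfl fun v _ => by ring
      rw [h3, h2]
      by_cases h : lam = μ
      · subst h; simp
      · rw [if_neg h, if_neg (Ne.symm h), mul_zero]
    rw [Finset.sum_congr rfl h1, Finset.sum_ite_eq' E lam, if_pos hlam]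
  have h1 : (pathModel N r).tau g (vac N) (boxes x) (colourElt (q r) X 0 x) =
      (pathModel N r).tau (fun lam => ∑ μ ∈ E, ∑ v ∈ colors N r,
        (g μ * (starRingEnd ℂ) (Smat N r μ v)) * Smat N r lam v) (vac N) (boxes x)
          (colourElt (q r) X 0 x) := by
    apply Model.tau_congr
    intro w hw
    apply hexp
    exact Finset.mem_insert_of_mem (Finset.mem_image.2 ⟨w, Finset.mem_filter.2
      ⟨Finset.mem_univ w, hw⟩, rfl⟩)
  rw [h1, hexp x (Finset.mem_insert_self _ _), Model.tau_sum_left]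
  refine Finset.sum_congr rfl fun μ _ => ?_
  rw [Model.tau_sum_left]
  refine Finset.sum_congr rfl fun v hv => ?_
  rw [Model.tau_mul_left, tau_colour hN hNr hx hv hvac]
  have := Smat_vac_ne hN hNr hv
  field_simp

end Pool.Agent.Helper15.RT
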