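import Mathlib
import Pool.Agent.Helper15.RT.ColourTrace

open Finset
open scoped Real

namespace Pool.Agent.Helper15.RT

open Pool.Agent.Helper15.AllN

variable {N : ℕ}

theorem HeckeRep.braidRel {A : Type*} [Ring A] [Algebra ℂ A] {t : ℂ} {m : ℕ} {s : ℕ → A}
    (h : HeckeRep t m s) : BraidRel m s := ⟨h.comm, h.braid⟩

/-- the inverse generators in the free algebra -/
noncomputable def X' (t : ℂ) (j : ℕ) : FA := X j - algebraMap ℂ FA (t - t⁻¹)

theorem HeckeRep.mul_inv {A : Type*} [Ring A] [Algebra ℂ A] {t : ℂ} {m : ℕ} {s : ℕ → A}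
    (h : HeckeRep t m s) {j : ℕ} (hj : j < m) :
    s j * (s j - algebraMap ℂ A (t - t⁻¹)) = 1 ∧ (s j - algebraMap ℂ A (t - t⁻¹)) * s j = 1 := by
  constructor
  · rw [mul_sub, h.sq j hj, ← Algebra.commutes, ← Algebra.smul_def]; abel
  · rw [sub_mul, h.sq j hj, ← Algebra.smul_def]; abel

theorem rep_X' {m : Model N} {t : ℂ} {l : Fin N → ℕ} {M : ℕ}
    (h : HeckeRep t (M - 1) (m.mat l M)) {j : ℕ} (hj : j + 1 < M) :
    m.rep l M (X j) * m.rep l M (X' t j) = 1 ∧ m.rep l M (X' t j) * m.rep l M (X j) = 1 := by
  rw [X', map_sub, AlgHom.commutes, Model.rep_X]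
  exact h.mul_inv (by omega)

theorem exists_inv_word {m : Model N} {t : ℂ} {l : Fin N → ℕ} {M : ℕ}
    (h : HeckeRep t (M - 1) (m.mat l M)) (w : List (ℕ × Bool)) (hw : ∀ p ∈ w, p.1 + 1 < M) :
    ∃ z : FA, m.rep l M (posEval X w) * m.rep l M z = 1 ∧
      m.rep l M z * m.rep l M (posEval X w) = 1 := by
  induction w with
  | nil =>
    refine ⟨1, ?_, ?_⟩
    · rw [posEval, List.map_nil, List.prod_nil, ← map_mul, mul_one, map_one]
    · rw [posEval, List.map_nil, List.prod_nil, ← map_mul, mul_one, map_one]
  | cons p w ih =>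
    obtain ⟨z, h1, h2⟩ := ih fun p hp => hw p (List.mem_cons_of_mem _ hp)
    obtain ⟨h3, h4⟩ := rep_X' h (hw p List.mem_cons_self)
    have e : posEval X (p :: w) = X p.1 * posEval X w := by
      rw [posEval, List.map_cons, List.prod_cons]; rfl
    refine ⟨z * X' t p.1, ?_, ?_⟩
    · rw [e, map_mul, map_mul]
      calc m.rep l M (X p.1) * m.rep l M (posEval X w) * (m.rep l M z * m.rep l M (X' t p.1))
          = m.rep l M (X p.1) * (m.rep l M (posEval X w) * m.rep l M z) *
              m.rep l M (X' t p.1) := by simp only [mul_assoc]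
        _ = 1 := by rw [h1, mul_one, h3]
    · rw [e, map_mul, map_mul]
      calc m.rep l M z * m.rep l M (X' t p.1) * (m.rep l M (X p.1) * m.rep l M (posEval X w))
          = m.rep l M z * (m.rep l M (X' t p.1) * m.rep l M (X p.1)) *
              m.rep l M (posEval X w) := by simp only [mul_assoc]
        _ = 1 := by rw [h4, mul_one, h2]

theorem map_posEval {A : Type*} [Ring A] [Algebra ℂ A] (φ : FA →ₐ[ℂ] A) (s : ℕ → FA)
    (w : List (ℕ × Bool)) : φ (posEval s w) = posEval (fun j => φ (s j)) w := by
  rw [posEval, posEval, map_list_prod, List.map_map]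
  rfl

theorem mem_block {o a b : ℕ} {p : ℕ × Bool} (hp : p ∈ block o a b) : p.1 + 2 ≤ o + a + b := by
  rw [block, List.mem_flatMap] at hp
  obtain ⟨t, ht, hp⟩ := hp
  obtain ⟨u, hu, rfl⟩ := List.mem_map.1 hp
  have h1 := List.mem_range.1 (List.mem_reverse.1 ht)
  have h2 := List.mem_range.1 hu
  show o + t + u + 2 ≤ _
  omega

/-- conjugation by the block crossing exchanges two groups of strands -/
theorem tau_conj {r : ℕ} (hr : 0 < r) (g : (Fin N → ℕ) → ℂ) (l : Fin N → ℕ) (a b : ℕ) {p z : FA}
    (hp : p ∈ Bd (a - 1)) (hz : z ∈ Bd (b - 1)) :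
    (pathModel N r).tau g l (a + b) (p * shf a z) =
      (pathModel N r).tau g l (a + b) (z * shf b p) := by
  set m := pathModel N r with hm
  have hH : HeckeRep (q r) (a + b - 1) (m.mat l (a + b)) := heckeRep_path hr l (a + b)
  have hB := hH.braidRel
  obtain ⟨y, hy1, hy2⟩ := exists_inv_word hH (block 0 a b) (fun p hp => by
    have := mem_block hp; omega)
  set Y := posEval X (block 0 a b) with hY
  have hRY : m.rep l (a + b) Y = XB (m.mat l (a + b)) 0 a b := by
    rw [hY, map_posEval, XB]
    congr 1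
    funext j
    exact m.rep_X l (a + b) j
  have h1 : m.rep l (a + b) p * m.rep l (a + b) Y = m.rep l (a + b) Y * m.rep l (a + b) (shf b p) := by
    refine Algebra.adjoin_induction (p := fun p _ => m.rep l (a + b) p * m.rep l (a + b) Y =
      m.rep l (a + b) Y * m.rep l (a + b) (shf b p)) ?_ ?_ ?_ ?_ hp
    · rintro x ⟨j, hj, rfl⟩
      rw [shf_X, hRY, m.rep_X, m.rep_X]
      have := Pool.Agent.Helper21.AEC.XB_nat_left hB (o := 0) (a := a) (b := b) (j := j)
        (by omega) (by omega)
      simpa only [zero_add] using this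
    · intro c
      simp only [AlgHom.commutes]
      exact Algebra.commutes _ _
    · intro x y _ _ hx hy
      rw [map_add, map_add, map_add, add_mul, mul_add, hx, hy]
    · intro x y _ _ hx hy
      rw [map_mul, map_mul, map_mul, mul_assoc, hy, ← mul_assoc, hx, mul_assoc]
  have h2 : m.rep l (a + b) (shf a z) * m.rep l (a + b) Y = m.rep l (a + b) Y * m.rep l (a + b) z := by
    refine Algebra.adjoin_induction (p := fun z _ => m.rep l (a + b) (shf a z) *
      m.rep l (a + b) Y = m.rep l (a + b) Y * m.rep l (a + b) z) ?_ ?_ ?_ ?_ hz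
    · rintro x ⟨j, hj, rfl⟩
      rw [shf_X, hRY, m.rep_X, m.rep_X]
      have := Pool.Agent.Helper21.AEC.XB_nat_right hB (o := 0) (a := a) (b := b) (j := j)
        (by omega) (by omega)
      simpa only [zero_add] using this
    · intro c
      simp only [AlgHom.commutes]
      exact Algebra.commutes _ _
    · intro x y _ _ hx hy
      rw [map_add, map_add, map_add, add_mul, mul_add, hx, hy]
    · intro x y _ _ hx hy
      rw [map_mul, map_mul, map_mul, mul_assoc, hy, ← mul_assoc, hx, mul_assoc]
  have e1 : m.tau g l (a + b) (p * shf a z) = m.tau g l (a + b) (Y * (shf b p * z * y)) := by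
    apply Model.tau_eq_of_rep
    simp only [map_mul]
    calc m.rep l (a + b) p * m.rep l (a + b) (shf a z)
        = m.rep l (a + b) p * (m.rep l (a + b) (shf a z) * (m.rep l (a + b) Y *
            m.rep l (a + b) y)) := by rw [hy1, mul_one]
      _ = m.rep l (a + b) p * (m.rep l (a + b) (shf a z) * m.rep l (a + b) Y) *
            m.rep l (a + b) y := by simp only [mul_assoc]
      _ = (m.rep l (a + b) p * m.rep l (a + b) Y) * m.rep l (a + b) z *
            m.rep l (a + b) y := by rw [h2]; simp only [mul_assoc]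
      _ = _ := by rw [h1]; simp only [mul_assoc]
  have e2 : m.tau g l (a + b) (shf b p * z * y * Y) = m.tau g l (a + b) (shf b p * z) := by
    apply Model.tau_eq_of_rep
    rw [map_mul, map_mul _ _ y, mul_assoc, hy2, mul_one]
  rw [e1, Model.tau_mul_comm, e2, Model.tau_mul_comm]

theorem colourElt_mem_Bd {x : Fin N → ℕ} (hx : StrictMono x) (t : ℂ) :
    colourElt t X 0 x ∈ Bd (boxes x - 1) := by
  rw [colourElt]
  apply Subalgebra.sum_mem
  intro p _
  split_ifs with hpx
  · apply Subalgebra.smul_mem
    have hsum : (List.ofFn fun a => x a - (p a : ℕ)).sum = boxes x := by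
      rw [List.sum_ofFn]
      have h1 := sum_boxes hx
      have h2 : ∑ a, x a = ∑ a, (x a - (p a : ℕ)) + ∑ a, (p a : ℕ) := by
        rw [← Finset.sum_add_distrib]
        refine Finset.sum_congr rfl fun a _ => ?_
        have := hpx a
        omega
      have h3 : ∑ a, (p a : ℕ) = ∑ i : Fin N, (i : ℕ) :=
        Equiv.sum_comp p (fun i : Fin N => (i : ℕ))
      omega
    have := symms_mem_Bd t (List.ofFn fun a => x a - (p a : ℕ)) 0
    rwa [hsum, zero_add] at this
  · exact zero_mem _

/-- the rows of the `S` matrix are characters of the algebra of traces -/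
theorem tau_star {r : ℕ} (hN : 0 < N) (hNr : N ≤ r) {x y : Fin N → ℕ} (hx : x ∈ colors N r)
    (hy : y ∈ colors N r) {b : ℕ} {z : FA} (hz : z ∈ Bd (b - 1)) :
    (pathModel N r).tau (fun c => Smat N r c y) x b z =
      Smat N r x y / Smat N r (vac N) y *
        (pathModel N r).tau (fun c => Smat N r c y) (vac N) b z := by
  have hr : 0 < r := by omega
  have hmono := (Finset.mem_filter.1 hx).2.1
  have hY := colourElt_mem_Bd hmono (q r)
  have h1 := (pathModel N r).tau_segment (fun c => Smat N r c y) (vac N) (boxes x) b hY z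
  rw [tau_vac_colour hN hNr hx] at h1
  have h2 := (pathModel N r).tau_segment (fun c => Smat N r c y) (vac N) b (boxes x) hz
    (colourElt (q r) X 0 x)
  rw [← h1, tau_conj hr _ _ _ _ hY hz, add_comm (boxes x) b, h2]
  have h3 : (pathModel N r).tau (fun l' => (pathModel N r).tau (fun c => Smat N r c y) l'
      (boxes x) (colourElt (q r) X 0 x)) (vac N) b z =
      (pathModel N r).tau (fun l' => Smat N r x y / Smat N r (vac N) y * Smat N r l' y)
        (vac N) b z := by
    apply Model.tau_congr
    intro w hw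
    exact tau_colour hN hNr hx hy (alc_cfg (alc_vac hNr) hw)
  rw [h3, Model.tau_mul_left]

/-! ### shift invariance -/

theorem cfg_shift {M : ℕ} (l : Fin N → ℕ) (k : ℕ) (w : Fin M → Fin N) (t : ℕ) :
    cfg (fun i => l i + k) w t = fun i => cfg l w t i + k := by
  ext i
  simp only [cfg]
  omega

theorem goodc_shift {r : ℕ} {c : Fin N → ℕ} (k : ℕ) :
    goodc r (fun i => c i + k) ↔ goodc r c := by
  constructor
  · intro h i j hij e
    exact h i j hij (Nat.ModEq.add_right k e)
  · intro h i j hij e
    exact h i j hij (Nat.ModEq.add_right_cancel' k e)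

theorem good_shift {r M : ℕ} (l : Fin N → ℕ) (k : ℕ) (w : Fin M → Fin N) :
    (pathModel N r).good (fun i => l i + k) w ↔ (pathModel N r).good l w := by
  constructor
  · intro h t ht
    have := h t ht
    rw [cfg_shift] at this
    exact (goodc_shift k).1 this
  · intro h t ht
    rw [cfg_shift]
    exact (goodc_shift k).2 (h t ht)

theorem spec_shift (r : ℕ) (c : Fin N → ℕ) (k : ℕ) (i : Fin N) :
    spec r (fun i => c i + k) i = q r ^ (2 * k) * spec r c i := by
  simp only [spec]
  rw [← pow_add]
  congr 1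
  ring

theorem mat_shift {r : ℕ} (l : Fin N → ℕ) (k M j : ℕ) :
    (pathModel N r).mat (fun i => l i + k) M j = (pathModel N r).mat l M j := by
  classical
  have hq : q r ^ (2 * k) ≠ 0 := pow_ne_zero _ (q_ne_zero r)
  by_cases h : j + 1 < M
  · rw [Model.mat, dif_pos h, Model.mat, dif_pos h]
    congr 1
    · funext w
      simp only [good_shift]
      split_ifs with hg
      · rw [cfg_shift]
        show pa _ _ _ _ = pa _ _ _ _
        rw [pa, pa, spec_shift, spec_shift]
        split_ifs with hxy
        · rfl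
        · rw [← mul_sub, mul_left_comm, mul_div_mul_left _ _ hq]
      · rfl
    · funext w
      simp only [good_shift]
      split_ifs with hg
      · rw [cfg_shift]
        show pb _ _ _ _ = pb _ _ _ _
        rw [pb, pb, spec_shift, spec_shift]
        split_ifs with hxy
        · rfl
        · rw [← mul_sub, mul_left_comm, mul_left_comm (q r)⁻¹, ← mul_sub,
            mul_div_mul_left _ _ hq]
      · rfl
  · rw [Model.mat, dif_neg h, Model.mat, dif_neg h]

theorem rep_shift {r : ℕ} (l : Fin N → ℕ) (k M : ℕ) (z : FA) :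
    (pathModel N r).rep (fun i => l i + k) M z = (pathModel N r).rep l M z := by
  rw [Model.rep, Model.rep]
  congr 2
  funext j
  exact mat_shift l k M j

theorem tau_shift {r : ℕ} (g : (Fin N → ℕ) → ℂ) (l : Fin N → ℕ) (k M : ℕ) (z : FA) :
    (pathModel N r).tau g (fun i => l i + k) M z =
      (pathModel N r).tau (fun c => g (fun i => c i + k)) l M z := by
  classical
  rw [Model.tau, Model.tau]
  refine Finset.sum_congr rfl fun w _ => ?_
  simp only [good_shift, rep_shift, cfg_shift]

theorem ip_shift (hN : 0 < N) (c y : Fin N → ℕ) (k : ℕ) :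
    ip N (fun i => c i + k) y = ip N c y := by
  have : (N : ℝ) ≠ 0 := by exact_mod_cast hN.ne'
  rw [ip, ip]
  push_cast
  simp only [add_mul, Finset.sum_add_distrib, Finset.sum_const, Finset.card_univ, Fintype.card_fin,
    nsmul_eq_mul, ← Finset.mul_sum]
  field_simp
  ring

theorem Smat_shift (hN : 0 < N) (r : ℕ) (c y : Fin N → ℕ) (k : ℕ) :
    Smat N r (fun i => c i + k) y = Smat N r c y := by
  rw [Smat, Smat]
  congr 1
  refine Finset.sum_congr rfl fun w _ => ?_
  have := ip_shift hN (fun i => c (w i)) y k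
  rw [this]

theorem alc_exists_color {r : ℕ} (hN : 0 < N) {l : Fin N → ℕ} (hl : alc r l) :
    ∃ x ∈ colors N r, ∃ k, l = fun i => x i + k := by
  set i0 : Fin N := ⟨0, hN⟩ with hi0
  have hmin : ∀ i, l i0 ≤ l i := fun i => hl.1.monotone (by rw [hi0]; exact Nat.zero_le _)
  refine ⟨fun i => l i - l i0, ?_, l i0, ?_⟩
  · rw [colors, Finset.mem_filter, Fintype.mem_piFinset]
    refine ⟨fun i => ?_, fun i j hij => ?_, fun i hi => ?_⟩
    · rw [Finset.mem_range]
      have := hl.2 i i0
      have := hmin i
      have := hl.2 i0 i0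
      omega
    · have := hl.1 hij
      have := hmin i
      show l i - l i0 < l j - l i0
      omega
    · have : i = i0 := Fin.ext hi
      rw [this]
      exact Nat.sub_self _
  · ext i
    have := hmin i
    show l i = l i - l i0 + l i0
    omega

theorem tau_star_alc {r : ℕ} (hN : 0 < N) (hNr : N ≤ r) {l y : Fin N → ℕ} (hl : alc r l)
    (hy : y ∈ colors N r) {b : ℕ} {z : FA} (hz : z ∈ Bd (b - 1)) :
    (pathModel N r).tau (fun c => Smat N r c y) l b z =
      Smat N r l y / Smat N r (vac N) y *
        (pathModel N r).tau (fun c => Smat N r c y) (vac N) b z := by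
  obtain ⟨x, hx, k, rfl⟩ := alc_exists_color hN hl
  rw [tau_shift]
  simp only [Smat_shift hN]
  exact tau_star hN hNr hx hy hz

end Pool.Agent.Helper15.RT
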