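import Mathlib
import Pool.Agent.Helper15.RT.Star
import Pool.Agent.Helper15.RT.QDefs
import Pool.Agent.Helper24.RTF.Twist

open Finset
open scoped Real

namespace Pool.Agent.Helper15.RT

open Pool.Agent.Helper15.AllN

variable {N : ℕ}

/-- inverse of the full twist -/
def FTi {G : Type*} [Monoid G] (s' : ℕ → G) : ℕ → G
  | 0 => 1
  | n + 1 => JM s' n * FTi s' n

theorem JM_inv {G : Type*} [Monoid G] {s s' : ℕ → G} {m : ℕ} (h : ∀ j < m, s j * s' j = 1)
    (h' : ∀ j < m, s' j * s j = 1) : ∀ n ≤ m, JM s n * JM s' n = 1 ∧ JM s' n * JM s n = 1 := by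
  intro n
  induction n with
  | zero => intro _; exact ⟨mul_one _, mul_one _⟩
  | succ n ih =>
    intro hn
    obtain ⟨i1, i2⟩ := ih (by omega)
    have e1 := h n (by omega)
    have e2 := h' n (by omega)
    constructor
    · show s n * JM s n * s n * (s' n * JM s' n * s' n) = 1
      calc s n * JM s n * s n * (s' n * JM s' n * s' n)
          = s n * (JM s n * ((s n * s' n) * JM s' n)) * s' n := by simp only [mul_assoc]
        _ = 1 := by rw [e1, one_mul, i1, mul_one, e1]
    · show s' n * JM s' n * s' n * (s n * JM s n * s n) = 1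
      calc s' n * JM s' n * s' n * (s n * JM s n * s n)
          = s' n * (JM s' n * ((s' n * s n) * JM s n)) * s n := by simp only [mul_assoc]
        _ = 1 := by rw [e2, one_mul, i2, mul_one, e2]

theorem FT_inv {G : Type*} [Monoid G] {s s' : ℕ → G} {m : ℕ} (h : ∀ j < m, s j * s' j = 1)
    (h' : ∀ j < m, s' j * s j = 1) :
    ∀ n ≤ m + 1, FT s n * FTi s' n = 1 ∧ FTi s' n * FT s n = 1 := by
  intro n
  induction n with
  | zero => intro _; exact ⟨mul_one _, mul_one _⟩
  | succ n ih =>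
    intro hn
    obtain ⟨i1, i2⟩ := ih (by omega)
    obtain ⟨e1, e2⟩ := JM_inv h h' n (by omega)
    constructor
    · show FT s n * JM s n * (JM s' n * FTi s' n) = 1
      calc FT s n * JM s n * (JM s' n * FTi s' n)
          = FT s n * ((JM s n * JM s' n) * FTi s' n) := by simp only [mul_assoc]
        _ = 1 := by rw [e1, one_mul, i1]
    · show JM s' n * FTi s' n * (FT s n * JM s n) = 1
      calc JM s' n * FTi s' n * (FT s n * JM s n)
          = JM s' n * ((FTi s' n * FT s n) * JM s n) := by simp only [mul_assoc]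
        _ = 1 := by rw [i2, one_mul, e2]

section Map

variable {A : Type*} [Ring A] [Algebra ℂ A] (φ : FA →ₐ[ℂ] A)

theorem map_JM (s : ℕ → FA) (n : ℕ) : φ (JM s n) = JM (fun j => φ (s j)) n := by
  induction n with
  | zero => exact map_one φ
  | succ n ih =>
    show φ (s n * JM s n * s n) = φ (s n) * JM (fun j => φ (s j)) n * φ (s n)
    rw [map_mul, map_mul, ih]

theorem map_FT (s : ℕ → FA) (n : ℕ) : φ (FT s n) = FT (fun j => φ (s j)) n := by
  induction n with
  | zero => exact map_one φ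
  | succ n ih =>
    show φ (FT s n * JM s n) = FT (fun j => φ (s j)) n * JM (fun j => φ (s j)) n
    rw [map_mul, ih, map_JM]

theorem map_FTi (s : ℕ → FA) (n : ℕ) : φ (FTi s n) = FTi (fun j => φ (s j)) n := by
  induction n with
  | zero => exact map_one φ
  | succ n ih =>
    show φ (JM s n * FTi s n) = JM (fun j => φ (s j)) n * FTi (fun j => φ (s j)) n
    rw [map_mul, ih, map_JM]

theorem map_evalBraid (s s' : ℕ → FA) (w : List (ℕ × Bool)) :
    φ (evalBraid s s' w) = evalBraid (fun j => φ (s j)) (fun j => φ (s' j)) w := by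
  rw [evalBraid, evalBraid, map_list_prod, List.map_map]
  congr 1
  refine List.map_congr_left fun p _ => ?_
  show φ (if p.2 then s p.1 else s' p.1) = _
  split_ifs <;> rfl

end Map

theorem shf_FT (a n : ℕ) : shf a (FT X n) = FT (fun j => X (a + j)) n := by
  rw [map_FT]
  simp only [shf_X]

theorem X'_mem_Bd (t : ℂ) {m j : ℕ} (h : j < m) : X' t j ∈ Bd m :=
  sub_mem (X_mem_Bd h) (Subalgebra.algebraMap_mem _ _)

theorem JM_mem_Bd {s : ℕ → FA} (hs : ∀ m j, j < m → s j ∈ Bd m) (n : ℕ) : JM s n ∈ Bd n := by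
  induction n with
  | zero => exact one_mem _
  | succ n ih =>
    exact mul_mem (mul_mem (hs _ _ (Nat.lt_succ_self n)) (Bd_mono (Nat.le_succ n) ih))
      (hs _ _ (Nat.lt_succ_self n))

theorem FT_mem_Bd {s : ℕ → FA} (hs : ∀ m j, j < m → s j ∈ Bd m) (n : ℕ) :
    FT s n ∈ Bd (n - 1) := by
  induction n with
  | zero => exact one_mem _
  | succ n ih =>
    exact mul_mem (Bd_mono (by omega) ih) (Bd_mono (by omega) (JM_mem_Bd hs n))

theorem FTi_mem_Bd {s : ℕ → FA} (hs : ∀ m j, j < m → s j ∈ Bd m) (n : ℕ) :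
    FTi s n ∈ Bd (n - 1) := by
  induction n with
  | zero => exact one_mem _
  | succ n ih =>
    exact mul_mem (Bd_mono (by omega) (JM_mem_Bd hs n)) (Bd_mono (by omega) ih)

theorem shf_mem_Bd' {a b : ℕ} {z : FA} (hz : z ∈ Bd (b - 1)) : shf a z ∈ Bd (a + b - 1) := by
  refine Algebra.adjoin_induction (p := fun z _ => shf a z ∈ Bd (a + b - 1)) ?_ ?_ ?_ ?_ hz
  · rintro x ⟨j, hj, rfl⟩
    rw [shf_X]
    exact X_mem_Bd (by omega)
  · intro c
    rw [AlgHom.commutes]
    exact Subalgebra.algebraMap_mem _ _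
  · intro x y _ _ hx hy
    rw [map_add]
    exact add_mem hx hy
  · intro x y _ _ hx hy
    rw [map_mul]
    exact mul_mem hx hy

theorem Theta_ne_zero (r : ℕ) (c : Fin N → ℕ) : Theta N r c ≠ 0 := zpow_ne_zero _ (q_ne_zero r)

/-- the full twist acts by its eigenvalue -/
theorem tau_FT {r : ℕ} (hN : 0 < N) (hNr : N ≤ r) (g : (Fin N → ℕ) → ℂ) (n : ℕ) (z : FA) :
    (pathModel N r).tau g (vac N) n (FT X n * z) =
      (pathModel N r).tau (fun c => Theta N r c * g c) (vac N) n z := by
  classical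
  rw [Model.tau, Model.tau]
  refine Finset.sum_congr rfl fun w _ => ?_
  by_cases hw : (pathModel N r).good (vac N) w
  · rw [if_pos hw, if_pos hw, map_mul, Matrix.mul_apply]
    simp only [Pool.Agent.Helper24.RTF.rep_FT hN hNr n w _ hw, ite_mul, zero_mul,
      Finset.sum_ite_eq, Finset.mem_univ, if_true]
    ring
  · rw [if_neg hw, if_neg hw]

theorem tau_FTi {r : ℕ} (hN : 0 < N) (hNr : N ≤ r) (g : (Fin N → ℕ) → ℂ) (n : ℕ) (z : FA) :
    (pathModel N r).tau g (vac N) n (FTi (X' (q r)) n * z) =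
      (pathModel N r).tau (fun c => (Theta N r c)⁻¹ * g c) (vac N) n z := by
  have hr : 0 < r := by omega
  have hH := heckeRep_path hr (vac N) n (N := N)
  have h1 : ∀ j < n - 1, (pathModel N r).rep (vac N) n (X j) *
      (pathModel N r).rep (vac N) n (X' (q r) j) = 1 := fun j hj =>
    (rep_X' hH (by omega)).1
  have h2 : ∀ j < n - 1, (pathModel N r).rep (vac N) n (X' (q r) j) *
      (pathModel N r).rep (vac N) n (X j) = 1 := fun j hj =>
    (rep_X' hH (by omega)).2
  have h3 := (FT_inv h1 h2 n (by omega)).1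
  have h4 : (pathModel N r).tau g (vac N) n (FTi (X' (q r)) n * z) =
      (pathModel N r).tau (fun c => Theta N r c * ((Theta N r c)⁻¹ * g c)) (vac N) n
        (FTi (X' (q r)) n * z) := by
    congr 1
    funext c
    rw [← mul_assoc, mul_inv_cancel₀ (Theta_ne_zero r c), one_mul]
  rw [h4, ← tau_FT hN hNr]
  apply Model.tau_eq_of_rep
  rw [map_mul, map_mul, map_FT, map_FTi, ← mul_assoc, h3, one_mul]

theorem word_eq {A : Type*} [Ring A] {B E4 E5 P3 P3' P4 P4' P5 P5' T4 T5 : A}
    (hB : B * (E4 * E5) = 1) (h4 : P4 = P3 * E4 * T4) (h5 : P5 = P4 * E5 * T5)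
    (i3 : P3' * P3 = 1) (i4 : P4 * P4' = 1) (i4' : P4' * P4 = 1) (i5 : P5 * P5' = 1) :
    B = T5 * P5' * P4 * T4 * P4' * P3 := by
  have e4 : E4 * T4 = P3' * P4 := by
    rw [h4, mul_assoc P3, ← mul_assoc P3', i3, one_mul]
  have e5 : E5 * T5 = P4' * P5 := by
    rw [h5, mul_assoc P4, ← mul_assoc P4', i4', one_mul]
  have key : (E4 * E5) * (T5 * P5' * P4 * T4 * P4' * P3) = 1 := by
    calc (E4 * E5) * (T5 * P5' * P4 * T4 * P4' * P3)
        = E4 * (E5 * T5) * P5' * P4 * T4 * P4' * P3 := by simp only [mul_assoc]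
      _ = E4 * P4' * (P5 * P5') * P4 * T4 * P4' * P3 := by rw [e5]; simp only [mul_assoc]
      _ = E4 * (P4' * P4) * T4 * P4' * P3 := by rw [i5, mul_one]; simp only [mul_assoc]
      _ = (E4 * T4) * P4' * P3 := by rw [i4', mul_one]
      _ = P3' * (P4 * P4') * P3 := by rw [e4]; simp only [mul_assoc]
      _ = 1 := by rw [i4, mul_one, i3]
  calc B = B * ((E4 * E5) * (T5 * P5' * P4 * T4 * P4' * P3)) := by rw [key, mul_one]
    _ = (B * (E4 * E5)) * (T5 * P5' * P4 * T4 * P4' * P3) := (mul_assoc B (E4 * E5) _).symm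
    _ = _ := by rw [hB, one_mul]

end Pool.Agent.Helper15.RT
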