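import Mathlib
import Pool.Agent.Helper15.RT.TauJ
import Pool.Agent.Helper21.AEC.Cable

open Finset
open scoped Real

namespace Pool.Agent.Helper15.RT

open Pool.Agent.Helper15.AllN

variable {N : ℕ}

theorem rep_word5 {r : ℕ} (hr : 0 < r) (l : Fin N → ℕ) (a b c d e : ℕ) :
    (pathModel N r).rep l (a + b + c + d + e)
      (evalBraid X (X' (q r)) (cable [a, b, c, d, e] word5)) =
    (pathModel N r).rep l (a + b + c + d + e)
      (shf (a + b + c + d) (FT X e) * FTi (X' (q r)) (a + b + c + d + e) *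
        FT X (a + b + c + d) * shf (a + b + c) (FT X d) * FTi (X' (q r)) (a + b + c + d) *
        FT X (a + b + c)) := by
  set M := a + b + c + d + e with hM
  have hH := heckeRep_path hr l M (N := N)
  have h1 : ∀ j < M - 1, (pathModel N r).rep l M (X j) *
      (pathModel N r).rep l M (X' (q r) j) = 1 := fun j hj => (rep_X' hH (by omega)).1
  have h2 : ∀ j < M - 1, (pathModel N r).rep l M (X' (q r) j) *
      (pathModel N r).rep l M (X j) = 1 := fun j hj => (rep_X' hH (by omega)).2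
  have hB : BraidRel (M - 1) (fun j => (pathModel N r).rep l M (X j)) := by
    have := hH.braidRel
    have e : (fun j => (pathModel N r).rep l M (X j)) = (pathModel N r).mat l M := by
      funext j; exact (pathModel N r).rep_X l M j
    rw [e]; exact this
  have h3 := FT_inv h1 h2 (a + b + c + d) (by omega)
  have h4 := FT_inv h1 h2 M (by omega)
  rw [map_evalBraid, Pool.Agent.Helper21.AEC.evalBraid_word5_FT hB h1 h2 a b c d e (by omega)
    h3.1 h3.2 h4.1]
  simp only [map_mul, map_FT, map_FTi, shf_X]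

theorem tau_word5 {r : ℕ} (hN : 0 < N) (hNr : N ≤ r) (g : (Fin N → ℕ) → ℂ) (a b c d e : ℕ)
    {Y0 Y1 Y2 Y3 Y4 : FA} (h0 : Y0 ∈ Bd (a - 1)) (h1 : Y1 ∈ Bd (b - 1)) (h2 : Y2 ∈ Bd (c - 1))
    (h3 : Y3 ∈ Bd (d - 1)) :
    (pathModel N r).tau g (vac N) (a + b + c + d + e)
      (evalBraid X (X' (q r)) (cable [a, b, c, d, e] word5) *
        (Y0 * shf a Y1 * shf (a + b) Y2 * shf (a + b + c) Y3 * shf (a + b + c + d) Y4)) =
    (pathModel N r).tau (fun l0 => (pathModel N r).tau (fun l1 => (pathModel N r).tau (fun l2 =>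
      Theta N r l2 * (pathModel N r).tau (fun l3 => (pathModel N r).tau (fun l4 =>
        (Theta N r l4)⁻¹ * g l4) l3 e (Y4 * FT X e)) l2 d (Y3 * FT X d)) l1 c Y2) l0 b Y1)
          (vac N) a Y0 := by
  have hr : 0 < r := by omega
  have hX : ∀ m j, j < m → X j ∈ Bd m := fun m j h => X_mem_Bd h
  have hX' : ∀ m j, j < m → X' (q r) j ∈ Bd m := fun m j h => X'_mem_Bd (q r) h
  set C3 := Y0 * shf a Y1 * shf (a + b) Y2 with hC3
  have hC3B : C3 ∈ Bd (a + b + c - 1) := by
    refine mul_mem (mul_mem (Bd_mono (by omega) h0) (Bd_mono ?_ (shf_mem_Bd' h1)))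
      (shf_mem_Bd' h2)
    omega
  set C4 := C3 * shf (a + b + c) Y3 with hC4
  have hC4B : C4 ∈ Bd (a + b + c + d - 1) :=
    mul_mem (Bd_mono (by omega) hC3B) (shf_mem_Bd' h3)
  have hFT4 : FT X (a + b + c + d) ∈ Bd (a + b + c + d - 1) := FT_mem_Bd hX _
  have hFTi4 : FTi (X' (q r)) (a + b + c + d) ∈ Bd (a + b + c + d - 1) := FTi_mem_Bd hX' _
  have hFT3 : FT X (a + b + c) ∈ Bd (a + b + c - 1) := FT_mem_Bd hX _
  have hT4 : shf (a + b + c) (FT X d) ∈ Bd (a + b + c + d - 1) := shf_mem_Bd' (FT_mem_Bd hX d)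
  -- replace the braid
  have s1 : (pathModel N r).tau g (vac N) (a + b + c + d + e)
      (evalBraid X (X' (q r)) (cable [a, b, c, d, e] word5) * (C4 * shf (a + b + c + d) Y4)) =
      (pathModel N r).tau g (vac N) (a + b + c + d + e) (shf (a + b + c + d) (FT X e) *
        (FTi (X' (q r)) (a + b + c + d + e) *
        ((FT X (a + b + c + d) * shf (a + b + c) (FT X d) * FTi (X' (q r)) (a + b + c + d) *
        FT X (a + b + c) * C4) * shf (a + b + c + d) Y4))) := by
    apply Model.tau_eq_of_rep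
    rw [map_mul, rep_word5 hr, ← map_mul]
    simp only [mul_assoc]
  rw [s1, Model.tau_mul_comm, mul_assoc, tau_FTi hN hNr, mul_assoc, ← map_mul]
  have hP : FT X (a + b + c + d) * shf (a + b + c) (FT X d) * FTi (X' (q r)) (a + b + c + d) *
      FT X (a + b + c) * C4 ∈ Bd (a + b + c + d - 1) :=
    mul_mem (mul_mem (mul_mem (mul_mem hFT4 hT4) hFTi4) (Bd_mono (by omega) hFT3)) hC4B
  rw [Model.tau_segment _ _ _ _ _ hP]
  set g4 : (Fin N → ℕ) → ℂ := fun l3 => (pathModel N r).tau (fun l4 => (Theta N r l4)⁻¹ * g l4) l3 e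
    (Y4 * FT X e) with hg4
  have s2 : (pathModel N r).tau g4 (vac N) (a + b + c + d) (FT X (a + b + c + d) * shf (a + b + c) (FT X d) *
      FTi (X' (q r)) (a + b + c + d) * FT X (a + b + c) * C4) =
      (pathModel N r).tau g4 (vac N) (a + b + c + d) ((FT X (a + b + c) * C3) *
        shf (a + b + c) (Y3 * FT X d)) := by
    have e1 : FT X (a + b + c + d) * shf (a + b + c) (FT X d) *
      FTi (X' (q r)) (a + b + c + d) * FT X (a + b + c) * C4 =
      FT X (a + b + c + d) * (shf (a + b + c) (FT X d) *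
      (FTi (X' (q r)) (a + b + c + d) * (FT X (a + b + c) * C4))) := by simp only [mul_assoc]
    rw [e1, tau_FT hN hNr, Model.tau_mul_comm, mul_assoc, tau_FTi hN hNr]
    have e2 : (fun c' => (Theta N r c')⁻¹ * (Theta N r c' * g4 c')) = g4 := by
      funext c'
      rw [← mul_assoc, inv_mul_cancel₀ (Theta_ne_zero r c'), one_mul]
    rw [e2, hC4, map_mul]
    simp only [mul_assoc]
  rw [s2, Model.tau_segment _ _ _ _ _ (mul_mem hFT3 hC3B), tau_FT hN hNr, hC3,
    Model.tau_segment _ _ _ _ _ (mul_mem (Bd_mono (by omega) h0) (shf_mem_Bd' h1)),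
    Model.tau_segment _ _ _ _ _ h0]

end Pool.Agent.Helper15.RT
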