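import Mathlib
import Pool.Agent.Helper15.RT.TauJ2
import Pool.Agent.Helper24.RTE.Chain

open Finset
open scoped Real

namespace Pool.Agent.Helper15.RT

open Pool.Agent.Helper15.AllN

variable {N : ℕ}

section Maps

variable {A : Type*} [Ring A] [Algebra ℂ A] (φ : FA →ₐ[ℂ] A)

theorem map_symms (t : ℂ) (s : ℕ → FA) (o : ℕ) (L : List ℕ) :
    φ (symms t s o L) = symms t (fun j => φ (s j)) o L := by
  induction L generalizing o with
  | nil => exact map_one φ
  | cons n L ih => rw [symms, symms, map_mul, map_symm, ih]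

theorem map_colourElt (t : ℂ) (s : ℕ → FA) (o : ℕ) (x : Fin N → ℕ) :
    φ (colourElt t s o x) = colourElt t (fun j => φ (s j)) o x := by
  rw [colourElt, colourElt, map_sum]
  refine Finset.sum_congr rfl fun p _ => ?_
  split_ifs
  · rw [map_smul, map_symms]
  · exact map_zero φ

theorem map_colourElts (t : ℂ) (s : ℕ → FA) (o : ℕ) (l : List (Fin N → ℕ)) :
    φ (colourElts t s o l) = colourElts t (fun j => φ (s j)) o l := by
  induction l generalizing o with
  | nil => exact map_one φ
  | cons x l ih => rw [colourElts, colourElts, map_mul, map_colourElt, ih]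

end Maps

theorem shf_colourElt (t : ℂ) (a : ℕ) (x : Fin N → ℕ) :
    shf a (colourElt t X 0 x) = colourElt t X a x := by
  rw [colourElt, colourElt, map_sum]
  refine Finset.sum_congr rfl fun p _ => ?_
  split_ifs
  · rw [map_smul, symms_shift, add_zero]
  · exact map_zero _

/-- the link invariant as a trace in the path model -/
theorem J_eq {r : ℕ} (hN : 0 < N) (hNr : N ≤ r) (x : Fin 5 → Fin N → ℕ) :
    J N r word5 (List.ofFn x) =
      Complex.exp (-(π * Complex.I * (-2 * ((boxes (x 0) + boxes (x 1) + boxes (x 2)) *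
        boxes (x 3) + (boxes (x 0) + boxes (x 1) + boxes (x 2) + boxes (x 3)) * boxes (x 4) : ℤ) :
          ℤ) / (r * N))) * ((Smat N r (vac N) (vac N))⁻¹ *
      (pathModel N r).tau (fun c => Smat N r c (vac N)) (vac N)
        (boxes (x 0) + boxes (x 1) + boxes (x 2) + boxes (x 3) + boxes (x 4))
        (evalBraid X (X' (q r)) (cable [boxes (x 0), boxes (x 1), boxes (x 2), boxes (x 3),
          boxes (x 4)] word5) *
        (colourElt (q r) X 0 (x 0) * shf (boxes (x 0)) (colourElt (q r) X 0 (x 1)) *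
          shf (boxes (x 0) + boxes (x 1)) (colourElt (q r) X 0 (x 2)) *
          shf (boxes (x 0) + boxes (x 1) + boxes (x 2)) (colourElt (q r) X 0 (x 3)) *
          shf (boxes (x 0) + boxes (x 1) + boxes (x 2) + boxes (x 3))
            (colourElt (q r) X 0 (x 4))))) := by
  have hl : List.ofFn x = [x 0, x 1, x 2, x 3, x 4] := by
    simp [List.ofFn_succ]
  set l : List (Fin N → ℕ) := List.ofFn x with hldef
  have hmap : l.map boxes = [boxes (x 0), boxes (x 1), boxes (x 2), boxes (x 3), boxes (x 4)] := by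
    rw [hl]; rfl
  have hsum : (l.map boxes).sum =
      boxes (x 0) + boxes (x 1) + boxes (x 2) + boxes (x 3) + boxes (x 4) := by
    rw [hmap]; simp; ring
  set M := (l.map boxes).sum with hM
  have hrep : ∀ j, (vertexModel N r).rep 0 M (X j) = Rmat N r M j := by
    intro j
    rw [Model.rep_X, vertexModel_mat]
  have hH : HeckeRep (q r) (M - 1) ((vertexModel N r).mat 0 M) := heckeRep_vertex r 0 M
  have i1 : ∀ j < M - 1, Rmat N r M j * (vertexModel N r).rep 0 M (X' (q r) j) = 1 :=
    fun j hj => by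
      have := (rep_X' (m := vertexModel N r) hH (j := j) (by omega)).1
      rwa [hrep] at this
  have i2 : ∀ j < M - 1, (vertexModel N r).rep 0 M (X' (q r) j) * Rmat N r M j = 1 :=
    fun j hj => by
      have := (rep_X' (m := vertexModel N r) hH (j := j) (by omega)).2
      rwa [hrep] at this
  have hB : BraidRel (M - 1) (Rmat N r M) := by
    have := hH.braidRel
    rwa [vertexModel_mat] at this
  have i3 : ∀ j < M - 1, (Rmat N r M j)⁻¹ = (vertexModel N r).rep 0 M (X' (q r) j) :=
    fun j hj => Matrix.inv_eq_right_inv (i1 j hj)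
  have hE : evalBraid (Rmat N r M) (fun j => (Rmat N r M j)⁻¹) (cable (l.map boxes) word5) =
      (vertexModel N r).rep 0 M (evalBraid X (X' (q r)) (cable (l.map boxes) word5)) := by
    rw [map_evalBraid, hmap]
    simp only [hrep]
    have c1 := Pool.Agent.Helper21.AEC.cable_word5 (s' := fun j => (Rmat N r M j)⁻¹) hB
      (fun j hj => by rw [i3 j hj]; exact i1 j hj) (fun j hj => by rw [i3 j hj]; exact i2 j hj)
      (boxes (x 0)) (boxes (x 1)) (boxes (x 2)) (boxes (x 3)) (boxes (x 4)) (by omega)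
    have c2 := Pool.Agent.Helper21.AEC.cable_word5
      (s' := fun j => (vertexModel N r).rep 0 M (X' (q r) j)) hB i1 i2
      (boxes (x 0)) (boxes (x 1)) (boxes (x 2)) (boxes (x 3)) (boxes (x 4)) (by omega)
    have c3 := mul_eq_one_comm.1 c2
    exact left_inv_eq_right_inv c1 c3
  have hJ : J N r word5 l = Complex.exp (-(π * Complex.I * writhe (cable (l.map boxes) word5) /
      (r * N))) * qtrace r (evalBraid (Rmat N r M) (fun j => (Rmat N r M j)⁻¹)
        (cable (l.map boxes) word5) * colourElts (q r) (Rmat N r M) 0 l) := rfl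
  have hC : colourElts (q r) (Rmat N r M) 0 l =
      (vertexModel N r).rep 0 M (colourElts (q r) X 0 l) := by
    rw [map_colourElts]
    simp only [hrep]
  rw [hJ, hE, hC, ← map_mul, qtrace_eq hN hNr, hsum, hmap,
    Pool.Agent.Helper21.AEC.writhe_word5]
  congr 4
  rw [hl]
  simp only [colourElts, shf_colourElt, zero_add, mul_one, mul_assoc]

/-- the number of boxes of a configuration -/
def nn (c : Fin N → ℕ) : ℤ := ∑ i, (c i : ℤ) - ∑ i : Fin N, ((i : ℕ) : ℤ)

theorem nn_cfg (l : Fin N → ℕ) {b : ℕ} (w : Fin b → Fin N) : nn (cfg l w b) = nn l + b := by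
  have h := sum_cfg l w
  have h' : (∑ i, (cfg l w b i : ℤ)) = ∑ i, (l i : ℤ) + b := by exact_mod_cast h
  rw [nn, nn, h']
  ring

theorem nn_vac : nn (vac N) = 0 := by simp [nn, vac]

theorem nn_color {r : ℕ} {x : Fin N → ℕ} (hx : x ∈ colors N r) : nn x = boxes x := by
  have h := sum_boxes (Finset.mem_filter.1 hx).2.1
  have h' : (∑ i, (x i : ℤ)) = ∑ i : Fin N, ((i : ℕ) : ℤ) + boxes x := by exact_mod_cast h
  rw [nn, h']
  ring

theorem tau_nn {m : Model N} (h : ℤ → ℂ) (g : (Fin N → ℕ) → ℂ) (l : Fin N → ℕ) (b : ℕ) (z : FA) :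
    m.tau (fun c => h (nn c) * g c) l b z = h (nn l + b) * m.tau g l b z := by
  rw [← Model.tau_mul_left]
  apply Model.tau_congr
  intro w _
  show h (nn (cfg l w b)) * _ = _
  rw [nn_cfg]

/-- the framing correction -/
noncomputable def Ec (N r : ℕ) (n : ℤ) : ℂ :=
  Complex.exp (π * Complex.I / r * ((n : ℂ) ^ 2 / N - N * n))

theorem Ec_ne_zero (N r : ℕ) (n : ℤ) : Ec N r n ≠ 0 := Complex.exp_ne_zero _

theorem Theta_eq {r : ℕ} (hN : 0 < N) (c : Fin N → ℕ) :
    Theta N r c = Ec N r (nn c) * theta N r c := by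
  have hN' : (N : ℂ) ≠ 0 := by exact_mod_cast hN.ne'
  have hv : (∑ i : Fin N, ((i : ℕ) : ℂ)) = N * ((N : ℂ) - 1) / 2 := by
    have h1 := Finset.sum_range_id_mul_two N
    rw [Fin.sum_univ_eq_sum_range (fun i : ℕ => (i : ℂ))]
    have h3 : ((∑ i ∈ range N, i : ℕ) : ℂ) * 2 = (N : ℂ) * ((N : ℂ) - 1) := by
      have := congrArg (fun n : ℕ => (n : ℂ)) h1
      push_cast [Nat.cast_sub (by omega : 1 ≤ N)] at this ⊢
      exact this
    push_cast at h3
    rw [← h3]; ring
  rw [Theta, Ec, theta, q, ← Complex.exp_int_mul, ← Complex.exp_add]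
  congr 1
  simp only [nn, ip, vac]
  push_cast
  rw [hv]
  set S2 : ℂ := ∑ i, (c i : ℂ) ^ 2
  set S1 : ℂ := ∑ i, (c i : ℂ)
  have e1 : (∑ i, (c i : ℂ) * (c i : ℂ)) = S2 := Finset.sum_congr rfl fun i _ => by ring
  have e2 : (∑ i : Fin N, ((i : ℕ) : ℂ) * ((i : ℕ) : ℂ)) = ∑ i : Fin N, ((i : ℕ) : ℂ) ^ 2 :=
    Finset.sum_congr rfl fun i _ => by ring
  rw [e1, e2]
  generalize (∑ i : Fin N, ((i : ℕ) : ℂ) ^ 2) = R2
  field_simp
  ring

end Pool.Agent.Helper15.RT
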