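import Mathlib
import Pool.Agent.Helper15.RT.Assembly
import Pool.Agent.Helper24.RTD.Final

open Finset
open scoped Real

namespace Pool.Agent.Helper15.RT

open Pool.Agent.Helper15.AllN

variable {N : ℕ}

/-- the trace as a linear operator in the weight -/
noncomputable def tauL (m : Model N) (b : ℕ) (z : FA) :
    ((Fin N → ℕ) → ℂ) →ₗ[ℂ] ((Fin N → ℕ) → ℂ) where
  toFun g := fun l => m.tau g l b z
  map_add' g g' := by
    classical
    funext l
    show m.tau (fun c => g c + g' c) l b z = m.tau g l b z + m.tau g' l b z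
    simp only [Model.tau]
    rw [← Finset.sum_add_distrib]
    refine Finset.sum_congr rfl fun w _ => ?_
    split_ifs
    · ring
    · rw [add_zero]
  map_smul' d g := by
    funext l
    exact m.tau_mul_left d g l b z

/-- the untwisted operators -/
noncomputable def Kop (N r : ℕ) (x : Fin N → ℕ) : ((Fin N → ℕ) → ℂ) →ₗ[ℂ] ((Fin N → ℕ) → ℂ) :=
  tauL (pathModel N r) (boxes x) (colourElt (q r) X 0 x)

/-- the twisted operators -/
noncomputable def Kop' (N r : ℕ) (x : Fin N → ℕ) : ((Fin N → ℕ) → ℂ) →ₗ[ℂ] ((Fin N → ℕ) → ℂ) :=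
  (Ec N r (boxes x))⁻¹ •
    tauL (pathModel N r) (boxes x) (colourElt (q r) X 0 x * FT X (boxes x))

theorem tauL_congr {r : ℕ} {b : ℕ} {z : FA} {g g' : (Fin N → ℕ) → ℂ}
    (h : ∀ c, alc r c → g c = g' c) {l : Fin N → ℕ} (hl : alc r l) :
    tauL (pathModel N r) b z g l = tauL (pathModel N r) b z g' l :=
  Model.tau_congr fun _ hw => h _ (alc_cfg hl hw)

theorem X_hyp : ∀ m j, j < m → X j ∈ Bd m := fun _ _ h => X_mem_Bd h

theorem Kop'_S {r : ℕ} (hN : 0 < N) (hNr : N ≤ r) {x y : Fin N → ℕ} (hx : x ∈ colors N r)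
    (hy : y ∈ colors N r) {l : Fin N → ℕ} (hl : alc r l) :
    Kop' N r x (fun c => Smat N r c y) l =
      theta N r x * (Smat N r x y / Smat N r (vac N) y) * Smat N r l y := by
  have hmono := (Finset.mem_filter.1 hx).2.1
  have hz : colourElt (q r) X 0 x * FT X (boxes x) ∈ Bd (boxes x - 1) :=
    mul_mem (colourElt_mem_Bd hmono (q r)) (FT_mem_Bd X_hyp _)
  show (Ec N r (boxes x))⁻¹ * (pathModel N r).tau (fun c => Smat N r c y) l (boxes x)
    (colourElt (q r) X 0 x * FT X (boxes x)) = _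
  rw [tau_star_alc hN hNr hl hy hz, Model.tau_mul_comm, tau_FT hN hNr,
    tau_vac_colour hN hNr hx, Theta_eq hN, nn_color hx]
  have h1 := Ec_ne_zero N r (boxes x)
  have h2 := Smat_vac_ne hN hNr hy
  field_simp

/-- the link invariant -/
theorem J_value {r : ℕ} (hN : 0 < N) (hNr : N ≤ r) {x : Fin 5 → Fin N → ℕ}
    (hx : ∀ i, x i ∈ colors N r) :
    J N r word5 (List.ofFn x) = (Smat N r (vac N) (vac N))⁻¹ *
      Kop N r (x 0) (Kop N r (x 1) (Kop N r (x 2) (fun l => theta N r l *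
        Kop' N r (x 3) (Kop' N r (x 4) (fun l' => (theta N r l')⁻¹ *
          Smat N r l' (vac N))) l))) (vac N) := by
  have hm : ∀ i, StrictMono (x i) := fun i => (Finset.mem_filter.1 (hx i)).2.1
  rw [J_eq hN hNr, tau_word5 hN hNr _ _ _ _ _ _ (colourElt_mem_Bd (hm 0) _)
    (colourElt_mem_Bd (hm 1) _) (colourElt_mem_Bd (hm 2) _) (colourElt_mem_Bd (hm 3) _)]
  set b0 := boxes (x 0) with hb0
  set b1 := boxes (x 1) with hb1
  set b2 := boxes (x 2) with hb2
  set b3 := boxes (x 3) with hb3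
  set b4 := boxes (x 4) with hb4
  set S : (Fin N → ℕ) → ℂ := fun c => Smat N r c (vac N) with hS
  set h : ℤ → ℂ := fun n => (Ec N r n)⁻¹ with hh
  -- step 4
  have e4 : (fun l4 => (Theta N r l4)⁻¹ * Smat N r l4 (vac N)) =
      fun l4 => h (nn l4) * ((theta N r l4)⁻¹ * S l4) := by
    funext l4
    rw [Theta_eq hN, mul_inv, mul_assoc]
  simp only [e4, tau_nn]
  set z4 := colourElt (q r) X 0 (x 4) * FT X b4 with hz4
  set z3 := colourElt (q r) X 0 (x 3) * FT X b3 with hz3
  set G4 : (Fin N → ℕ) → ℂ := fun l3 => (pathModel N r).tau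
    (fun l4 => (theta N r l4)⁻¹ * S l4) l3 b4 z4 with hG4
  set G3 : (Fin N → ℕ) → ℂ := fun l2 => (pathModel N r).tau G4 l2 b3 z3 with hG3
  have e3 : (fun l2 => Theta N r l2 * (pathModel N r).tau
      (fun l3 => h (nn l3 + b4) * G4 l3) l2 b3 z3) =
      fun l2 => (fun n => Ec N r n * h (n + b3 + b4)) (nn l2) * (theta N r l2 * G3 l2) := by
    funext l2
    rw [tau_nn (fun n => h (n + b4)), Theta_eq hN]
    ring
  change _ * (_ * (pathModel N r).tau (fun l0 => (pathModel N r).tau (fun l1 =>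
    (pathModel N r).tau (fun l2 => Theta N r l2 * (pathModel N r).tau
      (fun l3 => h (nn l3 + b4) * G4 l3) l2 b3 z3) l1 b2 _) l0 b1 _) (vac N) b0 _) = _
  rw [e3]
  simp only [tau_nn (fun n => Ec N r n * h (n + b3 + b4))]
  have e2 : ∀ l0, (pathModel N r).tau (fun l1 => Ec N r (nn l1 + b2) * h (nn l1 + b2 + b3 + b4) *
      (pathModel N r).tau (fun l2 => theta N r l2 * G3 l2) l1 b2 (colourElt (q r) X 0 (x 2)))
        l0 b1 (colourElt (q r) X 0 (x 1)) =
      Ec N r (nn l0 + b1 + b2) * h (nn l0 + b1 + b2 + b3 + b4) *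
      (pathModel N r).tau (fun l1 =>
      (pathModel N r).tau (fun l2 => theta N r l2 * G3 l2) l1 b2 (colourElt (q r) X 0 (x 2)))
        l0 b1 (colourElt (q r) X 0 (x 1)) := fun l0 =>
    tau_nn (fun n => Ec N r (n + b2) * h (n + b2 + b3 + b4)) _ _ _ _
  simp only [e2]
  rw [tau_nn (fun n => Ec N r (n + b1 + b2) * h (n + b1 + b2 + b3 + b4)), nn_vac]
  have hK : Kop N r (x 0) (Kop N r (x 1) (Kop N r (x 2) (fun l => theta N r l *
        Kop' N r (x 3) (Kop' N r (x 4) (fun l' => (theta N r l')⁻¹ *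
          Smat N r l' (vac N))) l))) (vac N) =
      (Ec N r b3)⁻¹ * (Ec N r b4)⁻¹ * (pathModel N r).tau (fun l0 =>
      (pathModel N r).tau (fun l1 =>
      (pathModel N r).tau (fun l2 => theta N r l2 * G3 l2) l1 b2 (colourElt (q r) X 0 (x 2)))
        l0 b1 (colourElt (q r) X 0 (x 1))) (vac N) b0 (colourElt (q r) X 0 (x 0)) := by
    have f1 : Kop' N r (x 4) (fun l' => (theta N r l')⁻¹ * Smat N r l' (vac N)) =
        (Ec N r b4)⁻¹ • G4 := rfl
    have f2 : Kop' N r (x 3) G4 = (Ec N r b3)⁻¹ • G3 := rfl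
    have f3 : (fun l => theta N r l * Kop' N r (x 3) ((Ec N r b4)⁻¹ • G4) l) =
        ((Ec N r b3)⁻¹ * (Ec N r b4)⁻¹) • (fun l => theta N r l * G3 l) := by
      rw [map_smul, f2]
      funext l
      simp only [Pi.smul_apply, smul_eq_mul]
      ring
    rw [f1, f3, map_smul, map_smul, map_smul]
    rfl
  rw [hK]
  generalize (pathModel N r).tau (fun l0 =>
      (pathModel N r).tau (fun l1 =>
      (pathModel N r).tau (fun l2 => theta N r l2 * G3 l2) l1 b2 (colourElt (q r) X 0 (x 2)))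
        l0 b1 (colourElt (q r) X 0 (x 1))) (vac N) b0 (colourElt (q r) X 0 (x 0)) = T
  have hconst : Complex.exp (-(π * Complex.I * (-2 * ((b0 + b1 + b2) *
        b3 + (b0 + b1 + b2 + b3) * b4 : ℤ) : ℤ) / (r * N))) *
      (Ec N r (0 + b0 + b1 + b2) * h (0 + b0 + b1 + b2 + b3 + b4)) =
      (Ec N r b3)⁻¹ * (Ec N r b4)⁻¹ := by
    simp only [hh, Ec]
    rw [← Complex.exp_neg, ← Complex.exp_neg, ← Complex.exp_neg, ← Complex.exp_add,
      ← Complex.exp_add, ← Complex.exp_add]
    congr 1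
    have hN' : (N : ℂ) ≠ 0 := by exact_mod_cast hN.ne'
    have hr' : (r : ℂ) ≠ 0 := by
      have : 0 < r := by omega
      exact_mod_cast this.ne'
    push_cast
    field_simp
    ring
  linear_combination (Smat N r (vac N) (vac N))⁻¹ * T * hconst

/-- the link -/
def link5 (N : ℕ) : FramedPureBraid where
  strands := 5
  word := word5
  framing := fr N
  bounded := by decide
  pure := by
    simp [word5, ← mul_assoc]

theorem vac_mem {r : ℕ} (h : N ≤ r) : vac N ∈ colors N r := by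
  rw [colors, Finset.mem_filter, Fintype.mem_piFinset]
  refine ⟨fun i => Finset.mem_range.2 ?_, fun i j hij => hij, fun i hi => hi⟩
  have := i.2
  show (i : ℕ) < r
  omega

theorem norm_Z {k : ℕ} (hN : 2 ≤ N) (f : ℤ) : ‖Z N k f (link5 N)‖ = ‖Zred N (k + N)‖ := by
  have hN0 : 0 < N := by omega
  have hNr : N ≤ k + N := by omega
  have hr : 0 < k + N := by omega
  obtain ⟨c, hc, hch⟩ := Pool.Agent.Helper24.RTE.chain hN hNr (Kop N (k + N)) (Kop' N (k + N))
    (fun x g g' h l hl => tauL_congr h hl)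
    (fun x g g' h l hl => by
      show _ * tauL (pathModel N (k + N)) _ _ g l = _ * tauL (pathModel N (k + N)) _ _ g' l
      rw [tauL_congr h hl])
    (fun x hx y hy l hl => tau_colour hN0 hNr hx hy hl)
    (fun x hx y hy l hl => Kop'_S hN0 hNr hx hy hl)
  have hS0 : (S₀ N (k + N) (fun i : Fin N => (i : ℕ)) : ℂ) = Smat N (k + N) (vac N) (vac N) :=
    Pool.Agent.Helper21.AEC.S0_eq hN0 hr (vac_mem hNr)
  have hne : Smat N (k + N) (vac N) (vac N) ≠ 0 := Smat_vac_ne hN0 hNr (vac_mem hNr)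
  have hZ : Z N k f (link5 N) =
      Complex.exp (2 * π * Complex.I * centralCharge N k / 24) ^ f *
        (Smat N (k + N) (vac N) (vac N) * ∑ x ∈ Fintype.piFinset fun _ : Fin 5 => colors N (k + N),
          (∏ i, (S0 N (k + N) (x i) : ℂ) * theta N (k + N) (x i) ^ fr N i) *
            J N (k + N) word5 (List.ofFn x)) := by
    rw [← hS0, ← mul_assoc]
    rfl
  have hsum : (Smat N (k + N) (vac N) (vac N) *
      ∑ x ∈ Fintype.piFinset fun _ : Fin 5 => colors N (k + N),
          (∏ i, (S0 N (k + N) (x i) : ℂ) * theta N (k + N) (x i) ^ fr N i) *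
            J N (k + N) word5 (List.ofFn x)) = c * (starRingEnd ℂ) (Zred N (k + N)) := by
    rw [← hch, Finset.mul_sum]
    refine Finset.sum_congr rfl fun x hx => ?_
    rw [J_value hN0 hNr (fun i => Fintype.mem_piFinset.1 hx i)]
    field_simp
  rw [hZ, hsum, norm_mul, norm_mul, hc, one_mul, norm_zpow]
  have h1 : ‖Complex.exp (2 * π * Complex.I * centralCharge N k / 24)‖ = 1 := by
    have : (2 * π * Complex.I * centralCharge N k / 24 : ℂ) =
        ((2 * π * centralCharge N k / 24 : ℝ) : ℂ) * Complex.I := by push_cast; ring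
    rw [this, Complex.norm_exp_ofReal_mul_I]
  rw [h1, one_zpow, one_mul, RCLike.norm_conj]

theorem main (hN : 2 ≤ N) (f : ℤ) (m : ℕ) (c : Fin (m + 1) → ℝ) :
    ¬ HasExpansion N (fun k => Z N k f (link5 N)) m c :=
  Pool.Agent.Helper24.RTD.no_expansion_subseq hN (fun _ => norm_Z hN f) m c

end Pool.Agent.Helper15.RT
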